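import Mathlib

/-!
Upward planar drawings of bipartite DAGs: definitions.
-/

namespace Pool.Agent.H858Z.Up

/-- A bipartite DAG: the vertices split into `V₁` and its complement `V₂`, and every edge goes
from `V₁` to `V₂`. -/
def IsBipDAG {V : Type} (E : V → V → Prop) : Prop :=
  ∃ V₁ : Set V, ∀ u v, E u v → u ∈ V₁ ∧ v ∉ V₁

/-- `S` is the trace of a continuous curve from `p` to `q` with strictly increasing
`y`-coordinate. -/
def IsUpCurve (p q : ℝ × ℝ) (S : Set (ℝ × ℝ)) : Prop :=
  ∃ γ : ℝ → ℝ × ℝ, ContinuousOn γ (Set.Icc 0 1) ∧ γ 0 = p ∧ γ 1 = q ∧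
    StrictMonoOn (fun t => (γ t).2) (Set.Icc 0 1) ∧ S = γ '' Set.Icc 0 1

/-- Vertices sit at distinct points `pos v`, the edge `(u, v)` occupies the point set `S u v`,
no edge passes through a vertex other than its endpoints, and two distinct edges meet only at
common endpoints. -/
def IsPlanarLayout {V : Type} (E : V → V → Prop) (pos : V → ℝ × ℝ)
    (S : V → V → Set (ℝ × ℝ)) : Prop :=
  Function.Injective pos ∧
  (∀ u v w, E u v → pos w ∈ S u v → w = u ∨ w = v) ∧
  ∀ u v u' v', E u v → E u' v' → (u, v) ≠ (u', v') → ∀ z, z ∈ S u v → z ∈ S u' v' →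
    ∃ w, (w = u ∨ w = v) ∧ (w = u' ∨ w = v') ∧ z = pos w

/-- The digraph admits an upward planar drawing (edges are arbitrary upward curves). -/
def UpwardPlanar {V : Type} (E : V → V → Prop) : Prop :=
  ∃ (pos : V → ℝ × ℝ) (S : V → V → Set (ℝ × ℝ)), IsPlanarLayout E pos S ∧
    ∀ u v, E u v → IsUpCurve (pos u) (pos v) (S u v)

/-- The point of the real plane given by a grid point. -/
def toR (p : ℤ × ℤ) : ℝ × ℝ := ((p.1 : ℝ), (p.2 : ℝ))

/-- The polygonal chain through a list of grid points. -/
def polySet : List (ℤ × ℤ) → Set (ℝ × ℝ)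
  | p :: q :: l => segment ℝ (toR p) (toR q) ∪ polySet (q :: l)
  | _ => ∅

/-- A poly-line upward planar grid drawing: vertices at grid points, the edge `(u, v)` is the
polygonal chain from `pos u` through the grid points `bends u v` to `pos v`, with strictly
increasing `y`-coordinate. -/
structure GridDrawing {V : Type} (E : V → V → Prop) where
  pos : V → ℤ × ℤ
  bends : V → V → List (ℤ × ℤ)
  up : ∀ u v, E u v → List.IsChain (fun p q : ℤ × ℤ => p.2 < q.2) (pos u :: (bends u v ++ [pos v]))
  planar : IsPlanarLayout E (fun v => toR (pos v))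
    (fun u v => polySet (pos u :: (bends u v ++ [pos v])))

/-- A straight-line drawing: no edge has a bend. -/
def GridDrawing.Straight {V : Type} {E : V → V → Prop} (D : GridDrawing E) : Prop :=
  ∀ u v, E u v → D.bends u v = []

/-- The vertices and bends of a drawing. -/
def GridDrawing.pts {V : Type} {E : V → V → Prop} (D : GridDrawing E) : Set (ℤ × ℤ) :=
  {p | (∃ v, p = D.pos v) ∨ ∃ u v, E u v ∧ p ∈ D.bends u v}

/-- Width times height of the smallest axis-parallel rectangle containing the drawing. -/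
noncomputable def GridDrawing.area {V : Type} {E : V → V → Prop} (D : GridDrawing E) : ℕ∞ :=
  (⨆ p ∈ D.pts, ⨆ q ∈ D.pts, ((p.1 - q.1).natAbs : ℕ∞)) *
    (⨆ p ∈ D.pts, ⨆ q ∈ D.pts, ((p.2 - q.2).natAbs : ℕ∞))

/-- `A_s(n)`: maximum over upward planar bipartite DAGs on `n` vertices of the minimum area of a
straight-line upward planar grid drawing (an empty infimum is `⊤`). -/
noncomputable def areaStraight (n : ℕ) : ℕ∞ :=
  ⨆ (E : Fin n → Fin n → Prop) (_ : IsBipDAG E ∧ UpwardPlanar E),
    ⨅ (D : GridDrawing E) (_ : D.Straight), D.area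

/-- `A_p(n)`: maximum over upward planar bipartite DAGs on `n` vertices of the minimum area of a
poly-line upward planar grid drawing (an empty infimum is `⊤`). -/
noncomputable def areaPoly (n : ℕ) : ℕ∞ :=
  ⨆ (E : Fin n → Fin n → Prop) (_ : IsBipDAG E ∧ UpwardPlanar E),
    ⨅ (D : GridDrawing E), D.area

end Pool.Agent.H858Z.Up
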