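import Pool.Agent.H858Z.UpGeo

/-!
The shift construction: from ranks to a straight-line drawing on an `O(n) × O(n)` grid.
-/

namespace Pool.Agent.H858Z.Up

open Classical Set

structure Ctx where
  N : ℤ → Finset ℤ
  W0 : Finset ℤ
  lam : ℤ
  rho : ℤ
  hN : ∀ a, ∀ b ∈ N a, lam < b ∧ b < rho ∧ b ∉ W0
  hW : ∀ u ∈ W0, lam ≤ u ∧ u ≤ rho
  lamW : lam ∈ W0
  rhoW : rho ∈ W0
  lr : lam < rho
  nc : ∀ a b1 b2 b a1 a2, b1 ∈ N a → b2 ∈ N a → b ∈ N a1 → b ∈ N a2 → b1 < b → b < b2 →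
    a1 < a → a < a2 → False

noncomputable def Ctx.seen (C : Ctx) (P : Finset ℤ) : Finset ℤ := C.W0 ∪ P.biUnion C.N

def Ctx.Obj (C : Ctx) (P : Finset ℤ) (o : (ℤ ⊕ ℤ) × (ℤ ⊕ ℤ)) : Prop :=
  (∃ a ∈ P, o = (Sum.inl a, Sum.inl a)) ∨ (∃ w ∈ C.seen P, o = (Sum.inr w, Sum.inr w)) ∨
    ∃ a ∈ P, ∃ b ∈ C.N a, o = (Sum.inl a, Sum.inr b)

def seg (pos : ℤ ⊕ ℤ → ℤ × ℤ) (o : (ℤ ⊕ ℤ) × (ℤ ⊕ ℤ)) : Set (ℝ × ℝ) :=
  segment ℝ (toR (pos o.1)) (toR (pos o.2))

noncomputable def Ctx.cnt (C : Ctx) (P : Finset ℤ) : ℤ := ((C.seen P).card : ℤ) + P.card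

structure Dr (C : Ctx) (P A : Finset ℤ) (X Y Z : ℤ → ℤ) (pos : ℤ ⊕ ℤ → ℤ × ℤ) : Prop where
  alive : ∀ u ∈ A, pos (Sum.inr u) = (X u, Y u)
  box : ∀ o, C.Obj P o → X C.lam ≤ (pos o.1).1 ∧ (pos o.1).1 ≤ X C.rho ∧
    -(5 * C.cnt P) ≤ (pos o.1).2 ∧ (pos o.1).2 ≤ 0
  notU : ∀ o, C.Obj P o → ∀ z ∈ seg pos o, ¬ Under A X Y Z z
  up : ∀ a ∈ P, ∀ b ∈ C.N a, (pos (Sum.inl a)).1 + (pos (Sum.inl a)).2 <
    (pos (Sum.inr b)).1 + (pos (Sum.inr b)).2
  pl : ∀ o o', C.Obj P o → C.Obj P o' → o ≠ o' → ∀ z ∈ seg pos o, z ∈ seg pos o' →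
    ∃ w, (w = o.1 ∨ w = o.2) ∧ (w = o'.1 ∨ w = o'.2) ∧ z = toR (pos w)

structure St (C : Ctx) (P A : Finset ℤ) (ξ Y Z : ℤ → ℤ) : Prop where
  lamA : C.lam ∈ A
  rhoA : C.rho ∈ A
  sub : A ⊆ C.seen P
  dead : ∀ b ∈ C.seen P, b ∉ A → ∃ a ∈ P, (∃ b1 ∈ C.N a, ∃ b2 ∈ C.N a, b1 < b ∧ b < b2) ∧
    (b ∈ C.W0 ∨ ∃ a1 ∈ P, a1 < a ∧ b ∈ C.N a1)
  gap : ∀ u ∈ A, ∀ u' ∈ A, u < u' → ξ u + 2 ≤ ξ u' ∧ Y u' - ξ u' ≤ Z u - ξ u - 1
  zle : ∀ u ∈ A, Z u ≤ Y u
  yle : ∀ u ∈ A, Y u ≤ 0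
  xi0 : ξ C.lam = 0
  xib : ξ C.rho ≤ 5 * C.cnt P
  phib : -(5 * C.cnt P) ≤ Y C.rho - ξ C.rho
  draw : ∀ X : ℤ → ℤ, (∀ u ∈ A, ∀ u' ∈ A, u < u' → ξ u' - ξ u ≤ X u' - X u) →
    ∃ pos, Dr C P A X Y Z pos

theorem toR_inj : Function.Injective toR := by
  intro p q h
  simp only [toR, Prod.mk.injEq, Int.cast_inj] at h
  exact Prod.ext h.1 h.2

theorem Ctx.seen_rng (C : Ctx) (P : Finset ℤ) : ∀ u ∈ C.seen P, C.lam ≤ u ∧ u ≤ C.rho := by
  intro u hu
  rcases Finset.mem_union.1 hu with h | h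
  · exact C.hW u h
  · obtain ⟨a, -, h⟩ := Finset.mem_biUnion.1 h
    have := C.hN a u h
    omega

theorem card_filter_lt_mono {S : Finset ℤ} {u u' : ℤ} (hu : u ∈ S) (h : u < u') :
    (S.filter (· < u)).card + 1 ≤ (S.filter (· < u')).card := by
  apply Finset.card_lt_card
  rw [Finset.ssubset_iff_of_subset]
  · exact ⟨u, by simp [hu, h], by simp⟩
  · intro c hc
    rw [Finset.mem_filter] at hc ⊢
    exact ⟨hc.1, lt_trans hc.2 h⟩

theorem st_base (C : Ctx) : ∃ A ξ Y Z, St C ∅ A ξ Y Z := by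
  have hs : C.seen ∅ = C.W0 := by simp [Ctx.seen]
  have hc : C.cnt ∅ = C.W0.card := by simp [Ctx.cnt, hs]
  have hle : (C.W0.filter (· < C.rho)).card ≤ C.W0.card := Finset.card_filter_le _ _
  refine ⟨C.W0, fun u => 2 * ((C.W0.filter (· < u)).card : ℤ), fun _ => 0, fun _ => 0,
    C.lamW, C.rhoW, by rw [hs], ?_, ?_, by simp, by simp, ?_, ?_, ?_, ?_⟩
  · intro b h1 h2
    rw [hs] at h1; exact absurd h1 h2
  · intro u hu u' hu' h
    have := card_filter_lt_mono hu h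
    omega
  · have : C.W0.filter (· < C.lam) = ∅ := by
      apply Finset.filter_eq_empty_iff.2
      intro u hu
      have := C.hW u hu
      omega
    simp [this]
  · rw [hc]; omega
  · rw [hc]; omega
  · intro X hX
    have mono : ∀ u ∈ C.W0, ∀ u' ∈ C.W0, u < u' → X u < X u' := by
      intro u hu u' hu' h
      have := card_filter_lt_mono hu h
      have := hX u hu u' hu' h
      omega
    have ob : ∀ o, C.Obj ∅ o → ∃ w ∈ C.W0, o = (Sum.inr w, Sum.inr w) := by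
      rintro o (⟨a, h, -⟩ | ⟨w, h, h'⟩ | ⟨a, h, -⟩)
      · simp at h
      · exact ⟨w, hs ▸ h, h'⟩
      · simp at h
    refine ⟨Sum.elim (fun _ => (0, 0)) (fun u => (X u, 0)), fun u hu => rfl, ?_, ?_, by simp, ?_⟩
    · intro o ho
      obtain ⟨w, hw, rfl⟩ := ob o ho
      have := C.hW w hw
      simp only [Sum.elim_inr, hc]
      refine ⟨?_, ?_, by omega, le_rfl⟩
      · rcases eq_or_lt_of_le this.1 with e | e
        · rw [e]
        · exact (mono _ C.lamW _ hw e).le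
      · rcases eq_or_lt_of_le this.2 with e | e
        · rw [e]
        · exact (mono _ hw _ C.rhoW e).le
    · intro o ho z hz
      obtain ⟨w, hw, rfl⟩ := ob o ho
      simp only [seg, segment_same, Sum.elim_inr, mem_singleton_iff] at hz
      rintro ⟨u, u', -, h | h⟩ <;> have := h.2.2 <;> simp [hz, toR] at this
    · intro o o' ho ho' hne z hz hz'
      obtain ⟨w, hw, rfl⟩ := ob o ho
      obtain ⟨w', hw', rfl⟩ := ob o' ho'
      simp only [seg, segment_same, Sum.elim_inr, mem_singleton_iff] at hz hz'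
      have := toR_inj (hz.symm.trans hz')
      simp only [Prod.mk.injEq, and_true] at this
      have : w = w' := by
        rcases lt_trichotomy w w' with c | c | c
        · have := mono _ hw _ hw' c; omega
        · exact c
        · have := mono _ hw' _ hw c; omega
      exact absurd (by rw [this]) hne

theorem dr_step (C : Ctx) {P A B A' : Finset ℤ} {ξ X Y Z X' Y' Z' : ℤ → ℤ} {p q Ya a : ℤ}
    (G : StepGeo A B A' ξ X Y Z X' Y' Z' p q Ya) {pos : ℤ ⊕ ℤ → ℤ × ℤ} (D : Dr C P A X Y Z pos)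
    (ha : a ∉ P) (hB : B = C.N a \ C.seen P) (sub : A ⊆ C.seen P)
    (hold : ∀ w ∈ C.N a, w ∈ C.seen P → w ∈ A ∧ p ≤ w ∧ w ≤ q)
    (lamA : C.lam ∈ A) (rhoA : C.rho ∈ A) (lp : C.lam ≤ p) (qr : q ≤ C.rho)
    (hc : C.cnt P ≤ C.cnt (insert a P)) (hY : -(5 * C.cnt (insert a P)) ≤ Ya - 1) (hY0 : Ya ≤ 0)
    (hb3 : ∀ b ∈ B, X p + 3 ≤ X' b) :
    ∃ pos', Dr C (insert a P) A' X' Y' Z' pos' := by
  let pos' : ℤ ⊕ ℤ → ℤ × ℤ := fun v => match v with
    | Sum.inl c => if c = a then (X p + 1, Ya) else pos (Sum.inl c)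
    | Sum.inr w => if w ∈ B then (X' w, Ya - 1) else pos (Sum.inr w)
  have nB : ∀ w ∈ C.seen P, w ∉ B := fun w hw c => by
    rw [hB] at c; exact (Finset.mem_sdiff.1 c).2 hw
  have pa : pos' (Sum.inl a) = (X p + 1, Ya) := by simp [pos']
  have pb : ∀ b ∈ B, pos' (Sum.inr b) = (X' b, Ya - 1) := fun b hb => by simp [pos', hb]
  have pP : ∀ c ∈ P, pos' (Sum.inl c) = pos (Sum.inl c) := fun c hc => by
    have : c ≠ a := fun e => ha (e ▸ hc)
    simp [pos', this]
  have pS : ∀ w ∈ C.seen P, pos' (Sum.inr w) = pos (Sum.inr w) := fun w hw => by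
    simp [pos', nB w hw]
  have seenN : ∀ c ∈ P, ∀ b ∈ C.N c, b ∈ C.seen P := fun c hc b hb =>
    Finset.mem_union_right _ (Finset.mem_biUnion.2 ⟨c, hc, hb⟩)
  have old : ∀ o, C.Obj P o → pos' o.1 = pos o.1 ∧ pos' o.2 = pos o.2 := by
    rintro o (⟨c, h, rfl⟩ | ⟨w, h, rfl⟩ | ⟨c, h, b, h', rfl⟩)
    · exact ⟨pP c h, pP c h⟩
    · exact ⟨pS w h, pS w h⟩
    · exact ⟨pP c h, pS b (seenN c h b h')⟩
  have oldseg : ∀ o, C.Obj P o → seg pos' o = seg pos o := fun o ho => by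
    simp only [seg, (old o ho).1, (old o ho).2]
  have tgt : ∀ w ∈ C.N a, (w ∈ B ∧ pos' (Sum.inr w) = (X' w, Ya - 1)) ∨
      (w ∈ A ∧ p ≤ w ∧ w ≤ q ∧ pos' (Sum.inr w) = (X w, Y w)) := by
    intro w hw
    by_cases c : w ∈ C.seen P
    · obtain ⟨h1, h2, h3⟩ := hold w hw c
      exact Or.inr ⟨h1, h2, h3, by rw [pS w c, D.alive w h1]⟩
    · have : w ∈ B := by rw [hB]; exact Finset.mem_sdiff.2 ⟨hw, c⟩
      exact Or.inl ⟨this, pb w this⟩
  have BN : ∀ b ∈ B, b ∈ C.N a := fun b hb => by rw [hB] at hb; exact (Finset.mem_sdiff.1 hb).1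
  have cases : ∀ o, C.Obj (insert a P) o → C.Obj P o ∨ o = (Sum.inl a, Sum.inl a) ∨
      (∃ b ∈ B, o = (Sum.inr b, Sum.inr b)) ∨ ∃ w ∈ C.N a, o = (Sum.inl a, Sum.inr w) := by
    rintro o (⟨c, h, rfl⟩ | ⟨w, h, rfl⟩ | ⟨c, h, b, h', rfl⟩)
    · rcases Finset.mem_insert.1 h with e | e
      · rw [e]; exact Or.inr (Or.inl rfl)
      · exact Or.inl (Or.inl ⟨c, e, rfl⟩)
    · by_cases c : w ∈ C.seen P
      · exact Or.inl (Or.inr (Or.inl ⟨w, c, rfl⟩))
      · refine Or.inr (Or.inr (Or.inl ⟨w, ?_, rfl⟩))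
        rw [hB]
        refine Finset.mem_sdiff.2 ⟨?_, c⟩
        rcases Finset.mem_union.1 h with e | e
        · exact absurd (Finset.mem_union_left _ e) c
        · obtain ⟨d, d1, d2⟩ := Finset.mem_biUnion.1 e
          rcases Finset.mem_insert.1 d1 with f | f
          · exact f ▸ d2
          · exact absurd (seenN d f w d2) c
    · rcases Finset.mem_insert.1 h with e | e
      · subst e; exact Or.inr (Or.inr (Or.inr ⟨b, h', rfl⟩))
      · exact Or.inl (Or.inr (Or.inr ⟨c, e, b, h', rfl⟩))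
  -- edges of the star
  have starU : ∀ w ∈ C.N a, ∀ z ∈ seg pos' (Sum.inl a, Sum.inr w),
      ¬ Under A' X' Y' Z' z ∧ (Under A X Y Z z ∨ (w ∈ A ∧ z = toR (pos' (Sum.inr w)))) := by
    intro w hw z hz
    simp only [seg, pa] at hz
    rcases tgt w hw with ⟨h1, h2⟩ | ⟨h1, h2, h3, h4⟩
    · rw [h2] at hz
      exact ⟨G.new_edge_not_under h1 hz, Or.inl (G.new_edge_under h1 hz)⟩
    · rw [h4] at hz ⊢
      refine ⟨G.old_edge_not_under h1 h2 h3 hz, ?_⟩
      rcases G.old_edge_under h1 h2 h3 hz with e | e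
      · exact Or.inr ⟨h1, e⟩
      · exact Or.inl e
  have aU : ¬ Under A' X' Y' Z' (toR (X p + 1, Ya)) ∧ Under A X Y Z (toR (X p + 1, Ya)) := by
    refine ⟨G.left_edge_not_under (left_mem_segment _ _ _), ?_⟩
    rcases G.old_edge_under G.pA le_rfl G.pq.le (left_mem_segment _ _ _) with e | e
    · have := toR_inj e
      simp at this
    · exact e
  have newU : ∀ o, (o = (Sum.inl a, Sum.inl a) ∨
      (∃ b ∈ B, o = (Sum.inr b, Sum.inr b)) ∨ ∃ w ∈ C.N a, o = (Sum.inl a, Sum.inr w)) →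
      ∀ z ∈ seg pos' o, ¬ Under A' X' Y' Z' z ∧
        (Under A X Y Z z ∨ ∃ w ∈ A, o.2 = Sum.inr w ∧ z = toR (pos' (Sum.inr w))) := by
    rintro o (rfl | ⟨b, hb, rfl⟩ | ⟨w, hw, rfl⟩) z hz
    · simp only [seg, segment_same, pa, mem_singleton_iff] at hz
      rw [hz]; exact ⟨aU.1, Or.inl aU.2⟩
    · simp only [seg, segment_same, mem_singleton_iff] at hz
      have := starU b (BN b hb) z (by rw [hz]; exact right_mem_segment _ _ _)
      refine ⟨this.1, Or.inl ?_⟩
      rcases this.2 with e | e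
      · exact e
      · exact absurd hb (nB b (sub e.1))
    · have := starU w hw z hz
      refine ⟨this.1, ?_⟩
      rcases this.2 with e | e
      · exact Or.inl e
      · exact Or.inr ⟨w, e.1, rfl, e.2⟩
  have neA : ∀ w ∈ C.N a, toR (pos' (Sum.inr w)) ≠ toR (pos' (Sum.inl a)) := by
    intro w hw e
    have := toR_inj e
    rw [pa] at this
    rcases tgt w hw with ⟨h1, h2⟩ | ⟨h1, h2, h3, h4⟩
    · rw [h2] at this; simp at this
    · rw [h4] at this
      have := G.yw_gt h1 h2 h3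
      simp only [Prod.mk.injEq] at *
      omega
  have onseg : ∀ w ∈ C.N a, ∀ w' ∈ C.N a,
      toR (pos' (Sum.inr w)) ∈ seg pos' (Sum.inl a, Sum.inr w') → w = w' := by
    intro w hw w' hw' hz
    rcases tgt w hw with ⟨h1, h2⟩ | ⟨h1, h2, h3, h4⟩
    · obtain ⟨s, s0, s1, a1, a2⟩ := seg_param hz
      simp only [pa, h2, toR] at a1 a2
      rcases tgt w' hw' with ⟨g1, g2⟩ | ⟨g1, g2, g3, g4⟩
      · simp only [g2] at a1 a2
        push_cast at a1 a2
        have : s = 1 := by linarith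
        rw [this] at a1
        have : X' w = X' w' := by
          have : (X' w : ℝ) = X' w' := by linarith
          exact_mod_cast this
        rcases lt_trichotomy w w' with c | c | c
        · have := G.mono' w (G.BA' h1) w' (G.BA' g1) c; omega
        · exact c
        · have := G.mono' w' (G.BA' g1) w (G.BA' h1) c; omega
      · simp only [g4] at a1 a2
        push_cast at a1 a2
        have : (Ya : ℝ) + 2 ≤ Y w' := by exact_mod_cast G.yw_gt g1 g2 g3
        nlinarith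
    · have ob : C.Obj P (Sum.inr w, Sum.inr w) := Or.inr (Or.inl ⟨w, sub h1, rfl⟩)
      have nu := D.notU _ ob (toR (pos' (Sum.inr w))) (by
        simp only [seg, segment_same, mem_singleton_iff, pS w (sub h1)])
      rcases (starU w' hw' _ hz).2 with e | e
      · exact absurd e nu
      · have := toR_inj e.2
        rw [h4, pS w' (sub e.1), D.alive w' e.1] at this
        simp only [Prod.mk.injEq] at this
        rcases lt_trichotomy w w' with c | c | c
        · have := G.mono w h1 w' e.1 c; omega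
        · exact c
        · have := G.mono w' e.1 w h1 c; omega
  have star : ∀ w ∈ C.N a, ∀ w' ∈ C.N a, w ≠ w' → ∀ z ∈ seg pos' (Sum.inl a, Sum.inr w),
      z ∈ seg pos' (Sum.inl a, Sum.inr w') → z = toR (pos' (Sum.inl a)) := by
    intro w hw w' hw' hne z h1 h2
    by_contra c
    rcases star_collinear h1 h2 c with e | e
    · exact hne (onseg w hw w' hw' e)
    · exact hne (onseg w' hw' w hw e).symm
  have mixed : ∀ o o', (o = (Sum.inl a, Sum.inl a) ∨
      (∃ b ∈ B, o = (Sum.inr b, Sum.inr b)) ∨ ∃ w ∈ C.N a, o = (Sum.inl a, Sum.inr w)) →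
      C.Obj P o' → ∀ z ∈ seg pos' o, z ∈ seg pos' o' →
      ∃ w, (w = o.1 ∨ w = o.2) ∧ (w = o'.1 ∨ w = o'.2) ∧ z = toR (pos' w) := by
    intro o o' ho ho' z hz hz'
    rw [oldseg o' ho'] at hz'
    rcases (newU o ho z hz).2 with e | ⟨w, w1, w2, w3⟩
    · exact absurd e (D.notU o' ho' z hz')
    · refine ⟨Sum.inr w, Or.inr w2.symm, ?_, w3⟩
      have ob : C.Obj P (Sum.inr w, Sum.inr w) := Or.inr (Or.inl ⟨w, sub w1, rfl⟩)
      by_cases c : (Sum.inr w, Sum.inr w) = o'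
      · rw [← c]; exact Or.inl rfl
      · obtain ⟨v, v1, v2, -⟩ := D.pl _ o' ob ho' c z (by
          simp only [seg, segment_same, mem_singleton_iff, w3, pS w (sub w1)]) hz'
        simp only [or_self] at v1
        rw [← v1]; exact v2
  have m1 : X C.lam ≤ X p := by
    rcases eq_or_lt_of_le lp with e | e
    · rw [e]
    · have := G.mono _ lamA _ G.pA e; omega
  have m2 : X q ≤ X C.rho := by
    rcases eq_or_lt_of_le qr with e | e
    · rw [e]
    · have := G.mono _ G.qA _ rhoA e; omega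
  have m3 := G.mono _ G.pA _ G.qA G.pq
  have x1 := (G.same C.lam (Or.inl lp)).1
  have x2 := (G.same C.rho (Or.inr qr)).1
  refine ⟨pos', ?_, ?_, ?_, ?_, ?_⟩
  · intro u hu
    rcases (G.memA' u).1 hu with ⟨h1, h2⟩ | h
    · rw [pS u (sub h1), D.alive u h1, (G.same u h2).1, (G.same u h2).2.1]
    · rw [pb u h, (G.newb u h).1]
  · intro o ho
    rw [x1, x2]
    rcases cases o ho with h | rfl | ⟨b, hb, rfl⟩ | ⟨w, hw, rfl⟩
    · have := D.box o h
      rw [(old o h).1]; omega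
    · simp only [pa]; omega
    · have := G.bx hb
      simp only [pb b hb]; omega
    · simp only [pa]; omega
  · intro o ho z hz
    rcases cases o ho with h | h
    · rw [oldseg o h] at hz
      exact fun c => D.notU o h z hz (G.under_mono c)
    · exact (newU o h z hz).1
  · intro c hc b hb
    rcases Finset.mem_insert.1 hc with e | e
    · subst e
      rw [pa]
      rcases tgt b hb with ⟨h1, h2⟩ | ⟨h1, h2, h3, h4⟩
      · have := hb3 b h1
        rw [h2]; simp only; omega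
      · rw [h4]
        have := G.yw_gt h1 h2 h3
        rcases eq_or_lt_of_le h2 with f | f
        · subst f; simp only; omega
        · have := G.mono p G.pA b h1 f
          simp only; omega
    · rw [pP c e, pS b (seenN c e b hb)]; exact D.up c e b hb
  · intro o o' ho ho' hne z hz hz'
    rcases cases o ho with h | h <;> rcases cases o' ho' with h' | h'
    · rw [oldseg o h] at hz
      rw [oldseg o' h'] at hz'
      obtain ⟨w, w1, w2, w3⟩ := D.pl o o' h h' hne z hz hz'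
      refine ⟨w, w1, w2, ?_⟩
      rcases w1 with e | e
      · rw [w3, e, (old o h).1]
      · rw [w3, e, (old o h).2]
    · obtain ⟨w, w1, w2, w3⟩ := mixed o' o h' h z hz' hz
      exact ⟨w, w2, w1, w3⟩
    · exact mixed o o' h h' z hz hz'
    · have ptb : ∀ b, ∀ z ∈ seg pos' (Sum.inr b, Sum.inr b), z = toR (pos' (Sum.inr b)) := by
        intro b z hz
        simpa only [seg, segment_same, mem_singleton_iff] using hz
      have pta : ∀ z ∈ seg pos' (Sum.inl a, Sum.inl a), z = toR (pos' (Sum.inl a)) := by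
        intro z hz
        simpa only [seg, segment_same, mem_singleton_iff] using hz
      rcases h with rfl | ⟨b, hb, rfl⟩ | ⟨w, hw, rfl⟩ <;>
        rcases h' with rfl | ⟨b', hb', rfl⟩ | ⟨w', hw', rfl⟩
      · exact absurd rfl hne
      · exact absurd ((ptb _ z hz').symm.trans (pta z hz)) (neA b' (BN b' hb'))
      · exact ⟨Sum.inl a, Or.inl rfl, Or.inl rfl, pta z hz⟩
      · exact absurd ((ptb _ z hz).symm.trans (pta z hz')) (neA b (BN b hb))
      · have := onseg b (BN b hb) b' (BN b' hb') (by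
          rw [← ptb _ z hz, ptb _ z hz']; exact right_mem_segment _ _ _)
        exact absurd (by rw [this]) hne
      · have := onseg b (BN b hb) w' hw' (by rw [← ptb _ z hz]; exact hz')
        exact ⟨Sum.inr b, Or.inl rfl, Or.inr (by rw [this]), ptb _ z hz⟩
      · exact ⟨Sum.inl a, Or.inl rfl, Or.inl rfl, pta z hz'⟩
      · have := onseg b' (BN b' hb') w hw (by rw [← ptb _ z hz']; exact hz)
        exact ⟨Sum.inr b', Or.inr (by rw [this]), Or.inl rfl, ptb _ z hz'⟩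
      · exact ⟨Sum.inl a, Or.inl rfl, Or.inl rfl,
          star w hw w' hw' (fun e => hne (by rw [e])) z hz hz'⟩

theorem card_filter_le_mono {S : Finset ℤ} {u u' : ℤ} (hu : u' ∈ S) (h : u < u') :
    (S.filter (· ≤ u)).card + 1 ≤ (S.filter (· ≤ u')).card := by
  apply Finset.card_lt_card
  rw [Finset.ssubset_iff_of_subset]
  · exact ⟨u', by simp [hu], by simp [h]⟩
  · intro c hc
    rw [Finset.mem_filter] at hc ⊢
    exact ⟨hc.1, by omega⟩

theorem st_step (C : Ctx) {P A : Finset ℤ} {ξ Y Z : ℤ → ℤ} (S : St C P A ξ Y Z) {a : ℤ}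
    (hmax : ∀ x ∈ P, x < a) : ∃ A' ξ' Y' Z', St C (insert a P) A' ξ' Y' Z' := by
  have ha : a ∉ P := fun c => lt_irrefl _ (hmax a c)
  have rng : ∀ u ∈ A, C.lam ≤ u ∧ u ≤ C.rho := fun u hu => C.seen_rng P u (S.sub hu)
  obtain ⟨l, r, l1, l2, l3, l4, l5⟩ : ∃ l r, C.lam ≤ l ∧ l ≤ r ∧ r < C.rho ∧
      (∀ b ∈ C.N a, l ≤ b ∧ b ≤ r) ∧ (l < r → l ∈ C.N a ∧ r ∈ C.N a) := by
    rcases (C.N a).eq_empty_or_nonempty with h | h
    · exact ⟨C.lam, C.lam, le_rfl, le_rfl, C.lr, by simp [h], fun c => absurd c (lt_irrefl _)⟩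
    · have h1 := (C.N a).min'_mem h
      have h2 := (C.N a).max'_mem h
      exact ⟨(C.N a).min' h, (C.N a).max' h, (C.hN a _ h1).1.le, (C.N a).min'_le _ h2,
        (C.hN a _ h2).2.1, fun b hb => ⟨(C.N a).min'_le _ hb, (C.N a).le_max' _ hb⟩, fun _ => ⟨h1, h2⟩⟩
  obtain ⟨p, hp, pmax⟩ := Finset.exists_max_image (A.filter (· ≤ l)) id
    ⟨C.lam, Finset.mem_filter.2 ⟨S.lamA, l1⟩⟩
  obtain ⟨pA, pl⟩ := Finset.mem_filter.1 hp
  obtain ⟨q, hq, qmin⟩ := Finset.exists_min_image (A.filter (fun u => r ≤ u ∧ p < u)) id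
    ⟨C.rho, Finset.mem_filter.2 ⟨S.rhoA, l3.le, by omega⟩⟩
  obtain ⟨qA, qr, pq⟩ := Finset.mem_filter.1 hq
  have cov : ∀ u ∈ A, p < u → u < q → l < u ∧ u < r := by
    intro u hu h1 h2
    constructor
    · by_contra c
      have : u ≤ p := pmax u (Finset.mem_filter.2 ⟨hu, by omega⟩)
      omega
    · by_contra c
      have : q ≤ u := qmin u (Finset.mem_filter.2 ⟨hu, by omega, h1⟩)
      omega
  set B := C.N a \ C.seen P with hB
  have Bin : ∀ b ∈ B, p < b ∧ b < q := by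
    intro b hb
    obtain ⟨h1, h2⟩ := Finset.mem_sdiff.1 hb
    have := l4 b h1
    have n1 : b ≠ p := fun e => h2 (e ▸ S.sub pA)
    have n2 : b ≠ q := fun e => h2 (e ▸ S.sub qA)
    omega
  have hold : ∀ w ∈ C.N a, w ∈ C.seen P → w ∈ A ∧ p ≤ w ∧ w ≤ q := by
    intro w hw hs
    have := l4 w hw
    refine ⟨?_, by omega, by omega⟩
    by_contra c
    obtain ⟨a', a1, ⟨b1, h1, b2, h2, h3, h4⟩, h5⟩ := S.dead w hs c
    rcases h5 with h5 | ⟨a0, h6, h7, h8⟩
    · exact (C.hN a w hw).2.2 h5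
    · exact C.nc a' b1 b2 w a0 a h1 h2 h8 hw h3 h4 h7 (hmax a' a1)
  have seenI : C.seen (insert a P) = C.seen P ∪ B := by
    ext w
    simp only [Ctx.seen, hB, Finset.biUnion_insert, Finset.mem_union, Finset.mem_sdiff]
    tauto
  have cnt : C.cnt (insert a P) = C.cnt P + B.card + 1 := by
    unfold Ctx.cnt
    rw [seenI, Finset.card_union_of_disjoint Finset.disjoint_sdiff, Finset.card_insert_of_notMem ha]
    push_cast; ring
  let rk : ℤ → ℤ := fun b => ((B.filter (· ≤ b)).card : ℤ)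
  have rk1 : ∀ b ∈ B, 1 ≤ rk b ∧ rk b ≤ B.card := by
    intro b hb
    have := card_filter_le_mono hb (show b - 1 < b by omega)
    have : (B.filter (· ≤ b)).card ≤ B.card := Finset.card_filter_le _ _
    simp only [rk]; omega
  have rk2 : ∀ b, ∀ b' ∈ B, b < b' → rk b + 1 ≤ rk b' := by
    intro b b' hb' h
    have := card_filter_le_mono hb' h
    simp only [rk]; omega
  let A' := A.filter (fun u => u ≤ p ∨ q ≤ u) ∪ B
  have memA' : ∀ u, u ∈ A' ↔ (u ∈ A ∧ (u ≤ p ∨ q ≤ u)) ∨ u ∈ B := by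
    intro u; simp [A']
  let Ya := Y q - ξ q + ξ p - 2
  let ξ' : ℤ → ℤ := fun u => if u ≤ p then ξ u else if q ≤ u then ξ u + (2 * B.card + 5)
    else ξ p + 1 + 2 * rk u
  let Y' : ℤ → ℤ := fun u => if u ∈ B then Ya - 1 else Y u
  let Z' : ℤ → ℤ := fun u => if u = p then Ya else if u ∈ B then Ya - 1 else Z u
  have vL : ∀ u, u < p → ξ' u = ξ u ∧ Y' u = Y u ∧ Z' u = Z u := by
    intro u h
    have : u ∉ B := fun c => by have := Bin u c; omega
    simp [ξ', Y', Z', this, h.le, h.ne]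
  have vP : ξ' p = ξ p ∧ Y' p = Y p ∧ Z' p = Ya := by
    have : p ∉ B := fun c => by have := Bin p c; omega
    simp [ξ', Y', Z', this]
  have vB : ∀ u ∈ B, ξ' u = ξ p + 1 + 2 * rk u ∧ Y' u = Ya - 1 ∧ Z' u = Ya - 1 := by
    intro u h
    have := Bin u h
    have n1 : ¬ u ≤ p := by omega
    have n2 : ¬ q ≤ u := by omega
    have n3 : u ≠ p := by omega
    simp [ξ', Y', Z', h, n1, n2, n3]
  have vR : ∀ u, q ≤ u → ξ' u = ξ u + (2 * B.card + 5) ∧ Y' u = Y u ∧ Z' u = Z u := by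
    intro u h
    have : u ∉ B := fun c => by have := Bin u c; omega
    have n1 : ¬ u ≤ p := by omega
    have n3 : u ≠ p := by omega
    simp [ξ', Y', Z', this, h, n1, n3]
  have cls : ∀ u ∈ A', (u ∈ A ∧ u < p ∧ ξ' u = ξ u ∧ Y' u = Y u ∧ Z' u = Z u) ∨
      (u = p ∧ ξ' u = ξ p ∧ Y' u = Y p ∧ Z' u = Ya) ∨
      (u ∈ B ∧ p < u ∧ u < q ∧ 1 ≤ rk u ∧ rk u ≤ B.card ∧ ξ' u = ξ p + 1 + 2 * rk u ∧
        Y' u = Ya - 1 ∧ Z' u = Ya - 1) ∨
      (u ∈ A ∧ q ≤ u ∧ ξ' u = ξ u + (2 * B.card + 5) ∧ Y' u = Y u ∧ Z' u = Z u) := by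
    intro u hu
    rcases (memA' u).1 hu with ⟨h1, h2 | h2⟩ | h
    · rcases eq_or_lt_of_le h2 with e | e
      · right; left; rw [e]; exact ⟨rfl, vP⟩
      · left; exact ⟨h1, e, vL u e⟩
    · right; right; right; exact ⟨h1, h2, vR u h2⟩
    · right; right; left; exact ⟨h, (Bin u h).1, (Bin u h).2, (rk1 u h).1, (rk1 u h).2, vB u h⟩
  have gpq := S.gap p pA q qA pq
  have zp := S.zle p pA
  have zq := S.zle q qA
  have yq := S.yle q qA
  have wk : ∀ u ∈ A, ∀ u' ∈ A, u ≤ u' → ξ u ≤ ξ u' ∧ Y u' - ξ u' ≤ Y u - ξ u := by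
    intro u hu u' hu' h
    rcases eq_or_lt_of_le h with e | e
    · rw [e]; omega
    · have := S.gap u hu u' hu' e
      have := S.zle u hu
      omega
  have hYa : Ya = Y q - ξ q + ξ p - 2 := rfl
  have gap' : ∀ u ∈ A', ∀ u' ∈ A', u < u' → ξ' u + 2 ≤ ξ' u' ∧ Y' u' - ξ' u' ≤ Z' u - ξ' u - 1 := by
    intro u hu u' hu' h
    rcases cls u hu with c | c | c | c <;> rcases cls u' hu' with d | d | d | d
    · have := S.gap u c.1 u' d.1 h; omega
    · have := S.gap u c.1 p pA c.2.1; omega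
    · have := S.gap u c.1 p pA c.2.1
      have := S.gap u c.1 q qA (by omega); omega
    · have := S.gap u c.1 u' d.1 h; omega
    · omega
    · omega
    · omega
    · have := wk q qA u' d.1 d.2.1; omega
    · omega
    · omega
    · have := rk2 u u' d.1 h; omega
    · have := wk q qA u' d.1 d.2.1; omega
    · omega
    · omega
    · omega
    · have := S.gap u c.1 u' d.1 h; omega
  have lp := rng p pA
  have qr' := rng q qA
  have w1 := wk C.lam S.lamA p pA lp.1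
  have w2 := wk q qA C.rho S.rhoA qr'.2
  have x0 := S.xi0
  have x1 := S.xib
  have x2 := S.phib
  have lam' : ξ' C.lam = ξ C.lam := by
    rcases eq_or_lt_of_le lp.1 with e | e
    · rw [e]; exact vP.1
    · exact (vL _ e).1
  have rho' := vR C.rho qr'.2
  refine ⟨A', ξ', Y', Z', (memA' _).2 (Or.inl ⟨S.lamA, Or.inl lp.1⟩),
    (memA' _).2 (Or.inl ⟨S.rhoA, Or.inr qr'.2⟩), ?_, ?_, gap', ?_, ?_, by rw [lam', x0],
    by rw [cnt]; omega, by rw [cnt]; omega, ?_⟩
  · intro u hu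
    rw [seenI]
    rcases (memA' u).1 hu with h | h
    · exact Finset.mem_union_left _ (S.sub h.1)
    · exact Finset.mem_union_right _ h
  · intro b h1 h2
    rw [seenI] at h1
    have nb : b ∉ B := fun c => h2 ((memA' b).2 (Or.inr c))
    have hs : b ∈ C.seen P := by
      rcases Finset.mem_union.1 h1 with e | e
      · exact e
      · exact absurd e nb
    by_cases c : b ∈ A
    · have c2 : ¬ (b ≤ p ∨ q ≤ b) := fun d => h2 ((memA' b).2 (Or.inl ⟨c, d⟩))
      have c3 := cov b c (by omega) (by omega)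
      have c4 := l5 (by omega)
      refine ⟨a, Finset.mem_insert_self _ _, ⟨l, c4.1, r, c4.2, c3⟩, ?_⟩
      rcases Finset.mem_union.1 hs with e | e
      · exact Or.inl e
      · obtain ⟨d, d1, d2⟩ := Finset.mem_biUnion.1 e
        exact Or.inr ⟨d, Finset.mem_insert_of_mem d1, hmax d d1, d2⟩
    · obtain ⟨a', a1, a2, a3⟩ := S.dead b hs c
      refine ⟨a', Finset.mem_insert_of_mem a1, a2, ?_⟩
      rcases a3 with e | ⟨d, d1, d2, d3⟩
      · exact Or.inl e
      · exact Or.inr ⟨d, Finset.mem_insert_of_mem d1, d2, d3⟩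
  · intro u hu
    rcases cls u hu with c | c | c | c
    · have := S.zle u c.1; omega
    · omega
    · omega
    · have := S.zle u c.1; omega
  · intro u hu
    rcases cls u hu with c | c | c | c
    · have := S.yle u c.1; omega
    · have := S.yle p pA; omega
    · omega
    · have := S.yle u c.1; omega
  · intro X' hX'
    let X : ℤ → ℤ := fun u => if p < u ∧ u < q then X' p + ξ u - ξ p else X' u
    have X1 : ∀ u, (u ≤ p ∨ q ≤ u) → X u = X' u := by
      intro u h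
      have : ¬ (p < u ∧ u < q) := by omega
      simp only [X, if_neg this]
    have X2 : ∀ u, p < u → u < q → X u = X' p + ξ u - ξ p := by
      intro u h h'
      simp only [X, if_pos (And.intro h h')]
    have pA' : p ∈ A' := (memA' _).2 (Or.inl ⟨pA, Or.inl le_rfl⟩)
    have adm : ∀ u ∈ A, ∀ u' ∈ A, u < u' → ξ u' - ξ u ≤ X u' - X u := by
      intro u hu u' hu' h
      have k : ∀ v ∈ A, (v ≤ p ∨ q ≤ v) → v ∈ A' := fun v hv c => (memA' _).2 (Or.inl ⟨hv, c⟩)
      have xv : ∀ v, v ≤ p → ξ' v = ξ v := by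
        intro v hv
        rcases eq_or_lt_of_le hv with e | e
        · rw [e]; exact vP.1
        · exact (vL _ e).1
      by_cases c1 : u ≤ p
      · by_cases c2 : u' ≤ p
        · have := hX' u (k u hu (Or.inl c1)) u' (k u' hu' (Or.inl c2)) h
          rw [xv u c1, xv u' c2] at this
          rw [X1 u (Or.inl c1), X1 u' (Or.inl c2)]; exact this
        · by_cases c3 : q ≤ u'
          · have := hX' u (k u hu (Or.inl c1)) u' (k u' hu' (Or.inr c3)) h
            rw [xv u c1, (vR u' c3).1] at this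
            rw [X1 u (Or.inl c1), X1 u' (Or.inr c3)]; omega
          · rw [X1 u (Or.inl c1), X2 u' (by omega) (by omega)]
            rcases eq_or_lt_of_le c1 with e | e
            · rw [e]; omega
            · have := hX' u (k u hu (Or.inl c1)) p pA' e
              rw [xv u c1, vP.1] at this
              omega
      · by_cases c2 : q ≤ u
        · have := hX' u (k u hu (Or.inr c2)) u' (k u' hu' (Or.inr (by omega))) h
          rw [(vR u c2).1, (vR u' (by omega)).1] at this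
          rw [X1 u (Or.inr c2), X1 u' (Or.inr (by omega))]; omega
        · rw [X2 u (by omega) (by omega)]
          by_cases c3 : q ≤ u'
          · have := hX' p pA' u' (k u' hu' (Or.inr c3)) (by omega)
            rw [vP.1, (vR u' c3).1] at this
            rw [X1 u' (Or.inr c3)]; omega
          · rw [X2 u' (by omega) (by omega)]; omega
    have G : StepGeo A B A' ξ X Y Z X' Y' Z' p q Ya := by
      refine ⟨pA, qA, pq, S.gap, S.zle, rfl, adm, ?_, memA', Bin, ?_, vP.2.2, fun b hb => (vB b hb).2, ?_⟩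
      · intro u hu h1 h2
        rw [X1 p (Or.inl le_rfl)]
        rcases eq_or_lt_of_le h1 with e | e
        · rw [← e, X1 p (Or.inl le_rfl)]; omega
        · exact X2 u e h2
      · intro u h
        refine ⟨(X1 u h).symm, ?_⟩
        rcases h with h | h
        · rcases eq_or_lt_of_le h with e | e
          · rw [e]; exact ⟨vP.2.1, fun c => absurd rfl c⟩
          · exact ⟨(vL u e).2.1, fun _ => (vL u e).2.2⟩
        · exact ⟨(vR u h).2.1, fun _ => (vR u h).2.2⟩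
      · intro u hu u' hu' h
        have := hX' u hu u' hu' h
        have := gap' u hu u' hu' h
        omega
    obtain ⟨pos, D⟩ := S.draw X adm
    refine dr_step C G D ha hB S.sub hold S.lamA S.rhoA lp.1 qr'.2 (by rw [cnt]; omega)
      (by rw [cnt]; omega) (by omega) ?_
    intro b hb
    have := hX' p pA' b ((memA' _).2 (Or.inr hb)) (Bin b hb).1
    rw [vP.1, (vB b hb).1] at this
    have := rk1 b hb
    rw [X1 p (Or.inl le_rfl)]; omega

theorem st_all (C : Ctx) (P : Finset ℤ) : ∃ A ξ Y Z, St C P A ξ Y Z := by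
  induction P using Finset.induction_on_max with
  | empty => exact st_base C
  | insert a P hmax ih =>
    obtain ⟨A, ξ, Y, Z, S⟩ := ih
    exact st_step C S hmax

theorem ctx_draw (C : Ctx) (P : Finset ℤ) : ∃ pos : ℤ ⊕ ℤ → ℤ × ℤ,
    (∀ o, C.Obj P o → 0 ≤ (pos o.1).1 ∧ (pos o.1).1 ≤ 5 * C.cnt P ∧
      -(5 * C.cnt P) ≤ (pos o.1).2 ∧ (pos o.1).2 ≤ 0) ∧
    (∀ a ∈ P, ∀ b ∈ C.N a, (pos (Sum.inl a)).1 + (pos (Sum.inl a)).2 <
      (pos (Sum.inr b)).1 + (pos (Sum.inr b)).2) ∧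
    ∀ o o', C.Obj P o → C.Obj P o' → o ≠ o' → ∀ z ∈ seg pos o, z ∈ seg pos o' →
      ∃ w, (w = o.1 ∨ w = o.2) ∧ (w = o'.1 ∨ w = o'.2) ∧ z = toR (pos w) := by
  obtain ⟨A, ξ, Y, Z, S⟩ := st_all C P
  obtain ⟨pos, D⟩ := S.draw ξ (fun _ _ _ _ _ => le_rfl)
  refine ⟨pos, fun o ho => ?_, D.up, D.pl⟩
  have := D.box o ho
  have := S.xi0
  have := S.xib
  omega

end Pool.Agent.H858Z.Up
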