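import Pool.Agent.H858Z.UpDefs

/-!
Geometry of one step of the shift construction.
-/

namespace Pool.Agent.H858Z.Up

open Classical Set

def Below (x1 y1 x2 y2 : ℝ) (z : ℝ × ℝ) : Prop :=
  x1 ≤ z.1 ∧ z.1 ≤ x2 ∧ (z.2 - y1) * (x2 - x1) < (y2 - y1) * (z.1 - x1)

theorem below_of_line {x1 y1 x2 y2 c μ x0 : ℝ} {z : ℝ × ℝ} (h1 : x1 ≤ z.1) (h2 : z.1 ≤ x2)
    (h12 : x1 < x2) (a1 : c + μ * (x1 - x0) < y1) (a2 : c + μ * (x2 - x0) ≤ y2)
    (az : z.2 ≤ c + μ * (z.1 - x0)) (hs : z.1 < x2 ∨ z.2 < y2) : Below x1 y1 x2 y2 z := by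
  refine ⟨h1, h2, ?_⟩
  rcases eq_or_lt_of_le h2 with e | e
  · have : z.2 < y2 := by
      rcases hs with hs | hs
      · linarith
      · exact hs
    rw [e]; nlinarith
  · have k1 := mul_pos (sub_pos.2 a1) (sub_pos.2 e)
    have k2 := mul_nonneg (sub_nonneg.2 a2) (sub_nonneg.2 h1)
    have k3 := mul_nonneg (sub_nonneg.2 az) (sub_pos.2 h12).le
    nlinarith

theorem not_below_of_line {x1 y1 x2 y2 c μ x0 : ℝ} {z : ℝ × ℝ}
    (a1 : y1 ≤ c + μ * (x1 - x0)) (a2 : y2 ≤ c + μ * (x2 - x0))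
    (az : c + μ * (z.1 - x0) ≤ z.2) : ¬ Below x1 y1 x2 y2 z := by
  rintro ⟨h1, h2, h3⟩
  have k1 := mul_nonneg (sub_nonneg.2 a1) (sub_nonneg.2 h2)
  have k2 := mul_nonneg (sub_nonneg.2 a2) (sub_nonneg.2 h1)
  have k3 := mul_nonneg (sub_nonneg.2 az) (sub_nonneg.2 (le_trans h1 h2))
  nlinarith

theorem lt_line_of_below {x1 y1 x2 y2 c μ x0 : ℝ} {z : ℝ × ℝ}
    (a1 : y1 ≤ c + μ * (x1 - x0)) (a2 : y2 ≤ c + μ * (x2 - x0))
    (h : Below x1 y1 x2 y2 z) : z.2 < c + μ * (z.1 - x0) := by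
  by_contra hn
  exact not_below_of_line a1 a2 (not_lt.1 hn) h

theorem above_aux {μ D D0 d κ : ℝ} (hμ : μ * D = κ + D0) (hD : D0 ≤ D) (h1 : d < D0) (h0 : 0 ≤ d)
    (hκ : 0 < κ) : μ * d < κ + d := by
  have hD0 : 0 < D0 := by linarith
  have hμ0 : 0 < μ := by
    by_contra c
    push Not at c
    nlinarith
  have k1 : μ * D0 ≤ κ + D0 := by nlinarith
  have k2 : μ * d * D0 < (κ + d) * D0 := by nlinarith
  exact lt_of_mul_lt_mul_right k2 hD0.le

theorem seg_param {u v z : ℝ × ℝ} (h : z ∈ segment ℝ u v) :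
    ∃ s : ℝ, 0 ≤ s ∧ s ≤ 1 ∧ z.1 = u.1 + s * (v.1 - u.1) ∧ z.2 = u.2 + s * (v.2 - u.2) := by
  obtain ⟨a, b, ha, hb, hab, rfl⟩ := h
  refine ⟨b, hb, by linarith, ?_, ?_⟩
  · simp only [Prod.fst_add, Prod.smul_fst, smul_eq_mul]
    have : a = 1 - b := by linarith
    rw [this]; ring
  · simp only [Prod.snd_add, Prod.smul_snd, smul_eq_mul]
    have : a = 1 - b := by linarith
    rw [this]; ring

theorem seg_of_param {u v z : ℝ × ℝ} {s : ℝ} (h0 : 0 ≤ s) (h1 : s ≤ 1)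
    (a : z.1 = u.1 + s * (v.1 - u.1)) (b : z.2 = u.2 + s * (v.2 - u.2)) : z ∈ segment ℝ u v := by
  refine ⟨1 - s, s, by linarith, h0, by ring, Prod.ext ?_ ?_⟩
  · simp only [Prod.fst_add, Prod.smul_fst, smul_eq_mul]; rw [a]; ring
  · simp only [Prod.snd_add, Prod.smul_snd, smul_eq_mul]; rw [b]; ring

theorem star_collinear {A u v z : ℝ × ℝ} (h1 : z ∈ segment ℝ A u) (h2 : z ∈ segment ℝ A v)
    (hz : z ≠ A) : u ∈ segment ℝ A v ∨ v ∈ segment ℝ A u := by
  obtain ⟨s, s0, s1, a1, a2⟩ := seg_param h1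
  obtain ⟨t, t0, t1, b1, b2⟩ := seg_param h2
  have hs : 0 < s := lt_of_le_of_ne s0 (fun c => hz (Prod.ext (by rw [a1, ← c]; ring) (by rw [a2, ← c]; ring)))
  have ht : 0 < t := lt_of_le_of_ne t0 (fun c => hz (Prod.ext (by rw [b1, ← c]; ring) (by rw [b2, ← c]; ring)))
  rcases le_total t s with c | c
  · left
    refine seg_of_param (s := t / s) (by positivity) ((div_le_one hs).2 c) ?_ ?_
    · field_simp; linarith
    · field_simp; linarith
  · right
    refine seg_of_param (s := s / t) (by positivity) ((div_le_one ht).2 c) ?_ ?_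
    · field_simp; linarith
    · field_simp; linarith

def Adj (A : Finset ℤ) (u u' : ℤ) : Prop :=
  u ∈ A ∧ u' ∈ A ∧ u < u' ∧ ∀ w ∈ A, ¬ (u < w ∧ w < u')

def Under (A : Finset ℤ) (X Y Z : ℤ → ℤ) (z : ℝ × ℝ) : Prop :=
  ∃ u u', Adj A u u' ∧ (Below (X u) (Y u) (X u + 1) (Z u) z ∨ Below (X u + 1) (Z u) (X u') (Y u') z)

/-- Data of one step, in final coordinates. -/
structure StepGeo (A B A' : Finset ℤ) (ξ X Y Z X' Y' Z' : ℤ → ℤ) (p q Ya : ℤ) : Prop where
  pA : p ∈ A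
  qA : q ∈ A
  pq : p < q
  gap : ∀ u ∈ A, ∀ u' ∈ A, u < u' → ξ u + 2 ≤ ξ u' ∧ Y u' - ξ u' ≤ Z u - ξ u - 1
  zle : ∀ u ∈ A, Z u ≤ Y u
  ya : Ya = Y q - ξ q + ξ p - 2
  adm : ∀ u ∈ A, ∀ u' ∈ A, u < u' → ξ u' - ξ u ≤ X u' - X u
  rigid : ∀ u ∈ A, p ≤ u → u < q → X u = X p + ξ u - ξ p
  memA' : ∀ u, u ∈ A' ↔ (u ∈ A ∧ (u ≤ p ∨ q ≤ u)) ∨ u ∈ B
  Bin : ∀ b ∈ B, p < b ∧ b < q
  same : ∀ u, (u ≤ p ∨ q ≤ u) → X' u = X u ∧ Y' u = Y u ∧ (u ≠ p → Z' u = Z u)
  zp : Z' p = Ya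
  newb : ∀ b ∈ B, Y' b = Ya - 1 ∧ Z' b = Ya - 1
  mono' : ∀ u ∈ A', ∀ u' ∈ A', u < u' → X' u + 2 ≤ X' u'

namespace StepGeo

variable {A B A' : Finset ℤ} {ξ X Y Z X' Y' Z' : ℤ → ℤ} {p q Ya : ℤ}

theorem mono (G : StepGeo A B A' ξ X Y Z X' Y' Z' p q Ya) :
    ∀ u ∈ A, ∀ u' ∈ A, u < u' → X u + 2 ≤ X u' := fun u hu u' hu' h => by
  have := G.adm u hu u' hu' h
  have := G.gap u hu u' hu' h
  omega

theorem phi (G : StepGeo A B A' ξ X Y Z X' Y' Z' p q Ya) :
    ∀ u ∈ A, ∀ u' ∈ A, u ≤ u' → Y u' - ξ u' ≤ Y u - ξ u := fun u hu u' hu' h => by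
  rcases eq_or_lt_of_le h with e | e
  · rw [e]
  · have := G.gap u hu u' hu' e
    have := G.zle u hu
    omega

theorem zp_gt (G : StepGeo A B A' ξ X Y Z X' Y' Z' p q Ya) : Ya + 3 ≤ Z p := by
  have := G.gap p G.pA q G.qA G.pq
  have := G.ya
  omega

theorem yw_gt (G : StepGeo A B A' ξ X Y Z X' Y' Z' p q Ya) {w : ℤ} (hw : w ∈ A) (h1 : p ≤ w)
    (h2 : w ≤ q) : Ya + 2 ≤ Y w := by
  have := G.phi w hw q G.qA h2
  have := G.ya
  rcases eq_or_lt_of_le h1 with e | e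
  · subst e; omega
  · have := G.gap p G.pA w hw e
    omega

/-- slope from the new black vertex to an old alive white vertex -/
theorem slope (G : StepGeo A B A' ξ X Y Z X' Y' Z' p q Ya) {w : ℤ} (hw : w ∈ A) (h1 : p < w)
    (h2 : w ≤ q) : ∃ μ : ℝ, 0 < μ ∧ (Ya : ℝ) + μ * (X w - (X p + 1)) = Y w ∧
      (∀ u ∈ A, p ≤ u → u < w → (Ya : ℝ) + μ * ((X u + 1) - (X p + 1)) < Z u) ∧
      (∀ u ∈ A, p < u → u < w → (Ya : ℝ) + μ * (X u - (X p + 1)) < Y u) := by
  have m1 := G.mono p G.pA w hw h1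
  have m2 := G.yw_gt hw h1.le h2
  have hD : (0 : ℝ) < X w - (X p + 1) := by
    have : (X p : ℝ) + 2 ≤ X w := by exact_mod_cast m1
    linarith
  have hR : (0 : ℝ) < Y w - Ya := by
    have : (Ya : ℝ) + 2 ≤ Y w := by exact_mod_cast m2
    linarith
  have hμ : ((Y w : ℝ) - Ya) / (X w - (X p + 1)) * (X w - (X p + 1)) = Y w - Ya := by
    field_simp
  have key : ∀ d : ℤ, 0 ≤ d → d < ξ w - ξ p - 1 →
      ((Y w : ℝ) - Ya) / (X w - (X p + 1)) * d < (Y w - Ya - (ξ w - ξ p - 1) : ℝ) + d := by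
    intro d d0 d1
    have a1 := G.adm p G.pA w hw h1
    have a2 := G.phi w hw q G.qA h2
    have a3 := G.ya
    refine above_aux (D := X w - (X p + 1)) (D0 := ξ w - ξ p - 1) (by rw [hμ]; ring) ?_ ?_ ?_ ?_
    · have : ((ξ w - ξ p : ℤ) : ℝ) ≤ ((X w - X p : ℤ) : ℝ) := by exact_mod_cast a1
      push_cast at this; linarith
    · exact_mod_cast d1
    · exact_mod_cast d0
    · have : (0 : ℤ) < Y w - Ya - (ξ w - ξ p - 1) := by omega
      exact_mod_cast this
  refine ⟨_, div_pos hR hD, by rw [hμ]; ring, ?_, ?_⟩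
  · intro u hu a b
    have r := G.rigid u hu a (by omega)
    have g := G.gap u hu w hw b
    have g0 : 0 ≤ ξ u - ξ p := by
      rcases eq_or_lt_of_le a with e | e
      · rw [e]; omega
      · have := G.gap p G.pA u hu e; omega
    have := key (ξ u - ξ p) g0 (by omega)
    have r' : (X u : ℝ) = X p + ξ u - ξ p := by exact_mod_cast r
    have g' : ((Y w - ξ w : ℤ) : ℝ) ≤ ((Z u - ξ u - 1 : ℤ) : ℝ) := by exact_mod_cast g.2
    push_cast at this g'
    have e : ((X u : ℝ) + 1) - (X p + 1) = ξ u - ξ p := by linarith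
    rw [e]; linarith
  · intro u hu a b
    have r := G.rigid u hu a.le (by omega)
    have g := G.gap u hu w hw b
    have g0 := G.gap p G.pA u hu a
    have g1 := G.phi u hu w hw b.le
    have := key (ξ u - ξ p - 1) (by omega) (by omega)
    have r' : (X u : ℝ) = X p + ξ u - ξ p := by exact_mod_cast r
    have g' : ((Y w - ξ w : ℤ) : ℝ) ≤ ((Y u - ξ u : ℤ) : ℝ) := by exact_mod_cast g1
    push_cast at this g'
    have e : (X u : ℝ) - (X p + 1) = ξ u - ξ p - 1 := by linarith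
    rw [e]; linarith

theorem under_of_line (G : StepGeo A B A' ξ X Y Z X' Y' Z' p q Ya) {w : ℤ} (hw : w ∈ A)
    {μ : ℝ} (e0 : (Ya : ℝ) + μ * (X w - (X p + 1)) = Y w)
    (e1 : ∀ u ∈ A, p ≤ u → u < w → (Ya : ℝ) + μ * ((X u + 1) - (X p + 1)) < Z u)
    (e2 : ∀ u ∈ A, p < u → u < w → (Ya : ℝ) + μ * (X u - (X p + 1)) < Y u)
    {z : ℝ × ℝ} (z1 : (X p : ℝ) + 1 ≤ z.1) (z2 : z.1 ≤ X w)
    (z3 : z.2 ≤ Ya + μ * (z.1 - (X p + 1))) (z4 : z.1 < X w ∨ z.2 < Y w) : Under A X Y Z z := by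
  obtain ⟨u', hu', hmin⟩ := Finset.exists_min_image (A.filter (fun u => z.1 ≤ X u)) id
    ⟨w, Finset.mem_filter.2 ⟨hw, z2⟩⟩
  obtain ⟨hu', zu'⟩ := Finset.mem_filter.1 hu'
  have uw : u' ≤ w := hmin w (Finset.mem_filter.2 ⟨hw, z2⟩)
  have pu : p < u' := by
    by_contra c
    push Not at c
    have : X u' ≤ X p := by
      rcases eq_or_lt_of_le c with e | e
      · rw [e]
      · have := G.mono u' hu' p G.pA e; omega
    have : (X u' : ℝ) ≤ X p := by exact_mod_cast this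
    linarith
  obtain ⟨u, hu, hmax⟩ := Finset.exists_max_image (A.filter (fun u => u < u')) id
    ⟨p, Finset.mem_filter.2 ⟨G.pA, pu⟩⟩
  obtain ⟨hu, uu⟩ := Finset.mem_filter.1 hu
  have pu2 : p ≤ u := hmax p (Finset.mem_filter.2 ⟨G.pA, pu⟩)
  have xu : (X u : ℝ) < z.1 := by
    by_contra c
    push Not at c
    have : u' ≤ u := hmin u (Finset.mem_filter.2 ⟨hu, c⟩)
    omega
  have adj : Adj A u u' := ⟨hu, hu', uu, fun v hv c => by
    have : v ≤ u := hmax v (Finset.mem_filter.2 ⟨hv, c.2⟩)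
    omega⟩
  have m : (X u : ℝ) + 2 ≤ X u' := by exact_mod_cast G.mono u hu u' hu' uu
  refine ⟨u, u', adj, ?_⟩
  by_cases c : z.1 < X u + 1
  · left
    have : p < u := lt_of_le_of_ne pu2 (fun e => by rw [← e] at c; linarith)
    exact below_of_line xu.le c.le (by linarith) (e2 u hu this (by omega))
      (e1 u hu pu2 (by omega)).le z3 (Or.inl c)
  · right
    push Not at c
    rcases eq_or_lt_of_le uw with e | e
    · subst e
      exact below_of_line c zu' (by linarith) (e1 u hu pu2 uu) e0.le z3 z4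
    · have k := e2 u' hu' pu e
      refine below_of_line c zu' (by linarith) (e1 u hu pu2 (by omega)) k.le z3 ?_
      rcases eq_or_lt_of_le zu' with f | f
      · right; rw [f] at z3; linarith
      · exact Or.inl f

theorem exists_next (G : StepGeo A B A' ξ X Y Z X' Y' Z' p q Ya) : ∃ u', Adj A p u' := by
  obtain ⟨u', hu', hmin⟩ := Finset.exists_min_image (A.filter (fun u => p < u)) id
    ⟨q, Finset.mem_filter.2 ⟨G.qA, G.pq⟩⟩
  obtain ⟨hu', h⟩ := Finset.mem_filter.1 hu'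
  exact ⟨u', G.pA, hu', h, fun v hv c => by
    have : u' ≤ v := hmin v (Finset.mem_filter.2 ⟨hv, c.1⟩)
    omega⟩

theorem pA' (G : StepGeo A B A' ξ X Y Z X' Y' Z' p q Ya) : p ∈ A' :=
  (G.memA' p).2 (Or.inl ⟨G.pA, Or.inl le_rfl⟩)

theorem qA' (G : StepGeo A B A' ξ X Y Z X' Y' Z' p q Ya) : q ∈ A' :=
  (G.memA' q).2 (Or.inl ⟨G.qA, Or.inr le_rfl⟩)

theorem BA' (G : StepGeo A B A' ξ X Y Z X' Y' Z' p q Ya) {b : ℤ} (hb : b ∈ B) : b ∈ A' :=
  (G.memA' b).2 (Or.inr hb)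

theorem bx (G : StepGeo A B A' ξ X Y Z X' Y' Z' p q Ya) {b : ℤ} (hb : b ∈ B) :
    X p + 2 ≤ X' b ∧ X' b + 2 ≤ X q := by
  have h1 := G.mono' p G.pA' b (G.BA' hb) (G.Bin b hb).1
  have h2 := G.mono' b (G.BA' hb) q G.qA' (G.Bin b hb).2
  rw [(G.same p (Or.inl le_rfl)).1] at h1
  rw [(G.same q (Or.inr le_rfl)).1] at h2
  exact ⟨h1, h2⟩

/-- the gaps of the new contour -/
theorem adj_cases (G : StepGeo A B A' ξ X Y Z X' Y' Z' p q Ya) {u u' : ℤ} (h : Adj A' u u') :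
    (Adj A u u' ∧ u' ≤ p) ∨ (Adj A u u' ∧ q ≤ u) ∨ ((u = p ∨ u ∈ B) ∧ (u' = q ∨ u' ∈ B)) := by
  obtain ⟨h1, h2, h3, h4⟩ := h
  have n1 := h4 p G.pA'
  have n2 := h4 q G.qA'
  have pq := G.pq
  by_cases c1 : u' ≤ p
  · left
    have a1 : u ∈ A := by
      rcases (G.memA' u).1 h1 with d | d
      · exact d.1
      · have := G.Bin u d; omega
    have a2 : u' ∈ A := by
      rcases (G.memA' u').1 h2 with d | d
      · exact d.1
      · have := G.Bin u' d; omega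
    exact ⟨⟨a1, a2, h3, fun w hw c => h4 w ((G.memA' w).2 (Or.inl ⟨hw, Or.inl (by omega)⟩)) c⟩, c1⟩
  by_cases c2 : q ≤ u
  · right; left
    have a1 : u ∈ A := by
      rcases (G.memA' u).1 h1 with d | d
      · exact d.1
      · have := G.Bin u d; omega
    have a2 : u' ∈ A := by
      rcases (G.memA' u').1 h2 with d | d
      · exact d.1
      · have := G.Bin u' d; omega
    exact ⟨⟨a1, a2, h3, fun w hw c => h4 w ((G.memA' w).2 (Or.inl ⟨hw, Or.inr (by omega)⟩)) c⟩, c2⟩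
  right; right
  constructor
  · rcases (G.memA' u).1 h1 with d | d
    · left; omega
    · exact Or.inr d
  · rcases (G.memA' u').1 h2 with d | d
    · left; omega
    · exact Or.inr d

/-- the region under the new contour lies in the region under the old one -/
theorem under_mono (G : StepGeo A B A' ξ X Y Z X' Y' Z' p q Ya) {z : ℝ × ℝ}
    (h : Under A' X' Y' Z' z) : Under A X Y Z z := by
  obtain ⟨u, u', adj, hb⟩ := h
  have pq := G.pq
  obtain ⟨μ, μ0, e0, e1, e2⟩ := G.slope G.qA G.pq le_rfl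
  have sp := G.same p (Or.inl le_rfl)
  have sq := G.same q (Or.inr le_rfl)
  rcases G.adj_cases adj with ⟨a, c⟩ | ⟨a, c⟩ | ⟨c, d⟩
  · have := a.2.2.1
    obtain ⟨s1, s2, s3⟩ := G.same u (Or.inl (by omega))
    obtain ⟨t1, t2, -⟩ := G.same u' (Or.inl c)
    rw [s1, s2, s3 (by omega), t1, t2] at hb
    exact ⟨u, u', a, hb⟩
  · have := a.2.2.1
    obtain ⟨s1, s2, s3⟩ := G.same u (Or.inr c)
    obtain ⟨t1, t2, -⟩ := G.same u' (Or.inr (by omega))
    rw [s1, s2, s3 (by omega), t1, t2] at hb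
    exact ⟨u, u', a, hb⟩
  · have lineB : ∀ b ∈ B, ∀ x : ℝ, (X' b : ℝ) ≤ x → ((Ya - 1 : ℤ) : ℝ) ≤ Ya + μ * (x - (X p + 1)) := by
      intro b hb x hx
      have : (X p : ℝ) + 2 ≤ X' b := by exact_mod_cast (G.bx hb).1
      have : 0 ≤ μ * (x - (X p + 1)) := mul_nonneg μ0.le (by linarith)
      push_cast; linarith
    have fin : (X p : ℝ) + 1 ≤ z.1 → z.1 ≤ X q → z.2 < Ya + μ * (z.1 - (X p + 1)) →
        Under A X Y Z z := by
      intro a1 a2 a3
      refine G.under_of_line G.qA e0 e1 e2 a1 a2 a3.le ?_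
      rcases eq_or_lt_of_le a2 with f | f
      · right; rw [f] at a3; linarith
      · exact Or.inl f
    rcases hb with hb | hb
    · rcases c with c | c
      · subst c
        obtain ⟨v, hv⟩ := G.exists_next
        refine ⟨u, v, hv, Or.inl ?_⟩
        rw [sp.1, sp.2.1, G.zp] at hb
        obtain ⟨b1, b2, b3⟩ := hb
        refine ⟨b1, b2, ?_⟩
        have : (Ya : ℝ) + 3 ≤ Z u := by exact_mod_cast G.zp_gt
        nlinarith
      · rw [(G.newb u c).1, (G.newb u c).2] at hb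
        have k1 : (X p : ℝ) + 2 ≤ X' u := by exact_mod_cast (G.bx c).1
        have k2 : (X' u : ℝ) + 2 ≤ X q := by exact_mod_cast (G.bx c).2
        exact fin (by linarith [hb.1]) (by linarith [hb.2.1])
          (lt_line_of_below (lineB u c _ le_rfl) (lineB u c _ (by linarith)) hb)
    · have l1 : (X p : ℝ) + 1 ≤ X' u + 1 ∧ (Z' u : ℝ) ≤ Ya + μ * (X' u + 1 - (X p + 1)) := by
        rcases c with c | c
        · subst c
          rw [sp.1, G.zp]; constructor <;> simp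
        · have k1 : (X p : ℝ) + 2 ≤ X' u := by exact_mod_cast (G.bx c).1
          rw [(G.newb u c).2]
          exact ⟨by linarith, lineB u c _ (by linarith)⟩
      have l2 : (X' u' : ℝ) ≤ X q ∧ (Y' u' : ℝ) ≤ Ya + μ * (X' u' - (X p + 1)) := by
        rcases d with d | d
        · subst d
          rw [sq.1, sq.2.1]; exact ⟨le_rfl, e0.ge⟩
        · have k2 : (X' u' : ℝ) + 2 ≤ X q := by exact_mod_cast (G.bx d).2
          rw [(G.newb u' d).1]
          exact ⟨by linarith, lineB u' d _ le_rfl⟩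
      exact fin (by linarith [hb.1]) (by linarith [hb.2.1]) (lt_line_of_below l1.2 l2.2 hb)

/-- new edges to old vertices lie under the old contour -/
theorem old_edge_under (G : StepGeo A B A' ξ X Y Z X' Y' Z' p q Ya) {w : ℤ} (hw : w ∈ A)
    (h1 : p ≤ w) (h2 : w ≤ q) {z : ℝ × ℝ}
    (hz : z ∈ segment ℝ (toR (X p + 1, Ya)) (toR (X w, Y w))) :
    z = toR (X w, Y w) ∨ Under A X Y Z z := by
  obtain ⟨s, s0, s1, a1, a2⟩ := seg_param hz
  simp only [toR] at a1 a2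
  push_cast at a1 a2
  rcases eq_or_lt_of_le s1 with e | e
  · left
    exact Prod.ext (by rw [a1, e]; simp [toR]) (by rw [a2, e]; simp [toR])
  right
  rcases eq_or_lt_of_le h1 with f | f
  · subst f
    obtain ⟨v, hv⟩ := G.exists_next
    refine ⟨p, v, hv, Or.inl ⟨by linarith, by linarith, ?_⟩⟩
    have : (Ya : ℝ) + 3 ≤ Z p := by exact_mod_cast G.zp_gt
    rw [a1, a2]
    nlinarith
  · obtain ⟨μ, μ0, e0, e1, e2⟩ := G.slope hw f h2
    have m : (X p : ℝ) + 2 ≤ X w := by exact_mod_cast G.mono p G.pA w hw f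
    refine G.under_of_line hw e0 e1 e2 (by nlinarith) (by nlinarith) ?_ (Or.inl (by nlinarith))
    rw [a1, a2, ← e0]; apply le_of_eq; ring

/-- new edges to new vertices lie under the old contour -/
theorem new_edge_under (G : StepGeo A B A' ξ X Y Z X' Y' Z' p q Ya) {b : ℤ} (hb : b ∈ B)
    {z : ℝ × ℝ} (hz : z ∈ segment ℝ (toR (X p + 1, Ya)) (toR (X' b, Ya - 1))) :
    Under A X Y Z z := by
  obtain ⟨s, s0, s1, a1, a2⟩ := seg_param hz
  simp only [toR] at a1 a2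
  push_cast at a1 a2
  obtain ⟨μ, μ0, e0, e1, e2⟩ := G.slope G.qA G.pq le_rfl
  have k1 : (X p : ℝ) + 2 ≤ X' b := by exact_mod_cast (G.bx hb).1
  have k2 : (X' b : ℝ) + 2 ≤ X q := by exact_mod_cast (G.bx hb).2
  have z1 : (X p : ℝ) + 1 ≤ z.1 := by nlinarith
  have z2 : z.1 < X q := by nlinarith
  refine G.under_of_line G.qA e0 e1 e2 z1 z2.le ?_ (Or.inl z2)
  have : 0 ≤ μ * (z.1 - (X p + 1)) := mul_nonneg μ0.le (by linarith)
  nlinarith

theorem xrange (G : StepGeo A B A' ξ X Y Z X' Y' Z' p q Ya) {u u' : ℤ} (hu : u ∈ A') (hu' : u' ∈ A')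
    (h : u ≤ u') : (X' u : ℝ) ≤ X' u' := by
  rcases eq_or_lt_of_le h with e | e
  · rw [e]
  · have := G.mono' u hu u' hu' e
    have : X' u ≤ X' u' := by omega
    exact_mod_cast this

theorem left_edge_not_under (G : StepGeo A B A' ξ X Y Z X' Y' Z' p q Ya) {z : ℝ × ℝ}
    (hz : z ∈ segment ℝ (toR (X p + 1, Ya)) (toR (X p, Y p))) : ¬ Under A' X' Y' Z' z := by
  obtain ⟨s, s0, s1, a1, a2⟩ := seg_param hz
  simp only [toR] at a1 a2
  push_cast at a1 a2
  have sp := G.same p (Or.inl le_rfl)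
  rintro ⟨u, u', ⟨h1, h2, h3, h4⟩, hb⟩
  have m : (X' u : ℝ) + 2 ≤ X' u' := by exact_mod_cast G.mono' u h1 u' h2 h3
  rcases lt_trichotomy u p with c | c | c
  · have c2 : u' ≤ p := by
      have := h4 p G.pA'
      omega
    have k := G.xrange h2 G.pA' c2
    rw [sp.1] at k
    rcases hb with hb | hb
    · linarith [hb.2.1]
    · have e1 : s = 1 := by linarith [hb.2.1]
      have e2 : u' = p := by
        by_contra d
        have := G.mono' u' h2 p G.pA' (by omega)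
        rw [sp.1] at this
        have : (X' u' : ℝ) + 2 ≤ X p := by exact_mod_cast this
        linarith [hb.2.1]
      subst e2
      have := hb.2.2
      rw [a1, a2, e1, sp.1, sp.2.1] at this
      nlinarith
  · subst c
    rw [sp.1, sp.2.1, G.zp] at hb
    rcases hb with hb | hb
    · have := hb.2.2
      rw [a1, a2] at this
      nlinarith
    · have e1 : s = 0 := by linarith [hb.1]
      have := hb.2.2
      rw [a1, a2, e1] at this
      nlinarith
  · have := G.mono' p G.pA' u h1 c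
    rw [sp.1] at this
    have : (X p : ℝ) + 2 ≤ X' u := by exact_mod_cast this
    rcases hb with hb | hb <;> linarith [hb.1]

theorem not_under_of (G : StepGeo A B A' ξ X Y Z X' Y' Z' p q Ya) {z : ℝ × ℝ} {w : ℤ}
    (hw : w ∈ A') (hw2 : w ≤ q) {μ : ℝ} (z1 : (X p : ℝ) + 1 ≤ z.1) (z2 : z.1 ≤ X' w)
    (z3 : Ya + μ * (z.1 - (X p + 1)) ≤ z.2)
    (l0 : (Y' w : ℝ) ≤ Ya + μ * (X' w - (X p + 1)))
    (lB : ∀ x : ℝ, (X p : ℝ) + 1 ≤ x → x ≤ X' w → (Ya : ℝ) - 1 ≤ Ya + μ * (x - (X p + 1))) :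
    ¬ Under A' X' Y' Z' z := by
  have sp := G.same p (Or.inl le_rfl)
  rintro ⟨u, u', adj, hb⟩
  obtain ⟨h1, h2, h3, h4⟩ := id adj
  have m : (X' u : ℝ) + 2 ≤ X' u' := by exact_mod_cast G.mono' u h1 u' h2 h3
  by_cases c : w ≤ u
  · have k := G.xrange hw h1 c
    rcases hb with hb | hb
    · have e : z.1 = X' w := by linarith [hb.1]
      have e2 : u = w := by
        by_contra d
        have : (X' w : ℝ) + 2 ≤ X' u := by exact_mod_cast G.mono' w hw u h1 (by omega)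
        linarith [hb.1]
      subst e2
      have := hb.2.2
      rw [e] at this z3
      nlinarith
    · linarith [hb.1]
  · have c2 : u' ≤ w := by
      have := h4 w hw
      omega
    have k := G.xrange h2 hw c2
    rcases G.adj_cases adj with ⟨a, d⟩ | ⟨a, d⟩ | ⟨d, d'⟩
    · have := G.xrange h2 G.pA' d
      rw [sp.1] at this
      rcases hb with hb | hb <;> linarith [hb.2.1]
    · omega
    · have l2 : (Y' u' : ℝ) ≤ Ya + μ * (X' u' - (X p + 1)) := by
        rcases d' with d' | d'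
        · have : u' = w := by omega
          rw [this]; exact l0
        · have k1 : (X p : ℝ) + 2 ≤ X' u' := by exact_mod_cast (G.bx d').1
          rw [(G.newb u' d').1]; push_cast
          exact lB _ (by linarith) k
      rcases d with d | d
      · subst d
        rw [sp.1, sp.2.1, G.zp] at hb
        rcases hb with hb | hb
        · have e : z.1 = X u + 1 := by linarith [hb.2.1]
          have := hb.2.2
          rw [e] at this z3
          nlinarith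
        · exact not_below_of_line (by simp) l2 z3 hb
      · have k1 : (X p : ℝ) + 2 ≤ X' u := by exact_mod_cast (G.bx d).1
        rw [(G.newb u d).1, (G.newb u d).2] at hb
        push_cast at hb
        rcases hb with hb | hb
        · exact not_below_of_line (lB _ (by linarith) (by linarith)) (lB _ (by linarith) (by linarith))
            z3 hb
        · exact not_below_of_line (lB _ (by linarith) (by linarith)) l2 z3 hb

theorem old_edge_not_under (G : StepGeo A B A' ξ X Y Z X' Y' Z' p q Ya) {w : ℤ} (hw : w ∈ A)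
    (h1 : p ≤ w) (h2 : w ≤ q) {z : ℝ × ℝ}
    (hz : z ∈ segment ℝ (toR (X p + 1, Ya)) (toR (X w, Y w))) : ¬ Under A' X' Y' Z' z := by
  rcases eq_or_lt_of_le h1 with f | f
  · subst f; exact G.left_edge_not_under hz
  obtain ⟨s, s0, s1, a1, a2⟩ := seg_param hz
  simp only [toR] at a1 a2
  push_cast at a1 a2
  obtain ⟨μ, μ0, e0, e1, e2⟩ := G.slope G.qA G.pq le_rfl
  have sq := G.same q (Or.inr le_rfl)
  have m : (X p : ℝ) + 2 ≤ X w := by exact_mod_cast G.mono p G.pA w hw f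
  have k : (Ya : ℝ) + μ * (X w - (X p + 1)) ≤ Y w ∧ (X w : ℝ) ≤ X q := by
    rcases eq_or_lt_of_le h2 with g | g
    · rw [g]; exact ⟨e0.le, le_rfl⟩
    · have : (X w : ℝ) + 2 ≤ X q := by exact_mod_cast G.mono w hw q G.qA g
      exact ⟨(e2 w hw f g).le, by linarith⟩
  refine G.not_under_of (μ := μ) G.qA' le_rfl (by nlinarith) (by rw [sq.1]; nlinarith [k.2]) ?_
    (by rw [sq.1, sq.2.1]; exact e0.ge) ?_
  · rw [a1, a2]; nlinarith [k.1]
  · intro x x1 x2
    have : 0 ≤ μ * (x - (X p + 1)) := mul_nonneg μ0.le (by linarith)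
    linarith

theorem new_edge_not_under (G : StepGeo A B A' ξ X Y Z X' Y' Z' p q Ya) {b : ℤ} (hb : b ∈ B)
    {z : ℝ × ℝ} (hz : z ∈ segment ℝ (toR (X p + 1, Ya)) (toR (X' b, Ya - 1))) :
    ¬ Under A' X' Y' Z' z := by
  obtain ⟨s, s0, s1, a1, a2⟩ := seg_param hz
  simp only [toR] at a1 a2
  push_cast at a1 a2
  have k1 : (X p : ℝ) + 2 ≤ X' b := by exact_mod_cast (G.bx hb).1
  have hD : (0 : ℝ) < X' b - (X p + 1) := by linarith
  have hμ : -1 / ((X' b : ℝ) - (X p + 1)) * (X' b - (X p + 1)) = -1 := by field_simp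
  have hμ0 : -1 / ((X' b : ℝ) - (X p + 1)) < 0 := div_neg_of_neg_of_pos (by norm_num) hD
  refine G.not_under_of (μ := -1 / ((X' b : ℝ) - (X p + 1))) (G.BA' hb) (G.Bin b hb).2.le
    (by nlinarith) (by nlinarith) ?_ (by rw [hμ, (G.newb b hb).1]; push_cast; linarith) ?_
  · rw [a1, a2]; apply le_of_eq
    have : -1 / ((X' b : ℝ) - (X p + 1)) * (X p + 1 + s * (X' b - (X p + 1)) - (X p + 1))
      = s * (-1 / ((X' b : ℝ) - (X p + 1)) * (X' b - (X p + 1))) := by ring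
    rw [this, hμ]; ring
  · intro x x1 x2
    nlinarith

end StepGeo

end Pool.Agent.H858Z.Up
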