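import Pool.Agent.H858Z.UpWord
import Pool.Agent.H858Z.UpGeo

/-!
Crossing parity for four-cycles in upward drawings.
-/

namespace Pool.Agent.H858Z.Up

open Classical Set

theorem poly_graph (q : ℤ × ℤ) : ∀ (l : List (ℤ × ℤ)) (p : ℤ × ℤ),
    List.IsChain (fun p q : ℤ × ℤ => p.2 < q.2) (p :: (l ++ [q])) →
    (p.2 : ℝ) < q.2 ∧ ∃ f : ℝ → ℝ, Continuous f ∧ f p.2 = p.1 ∧ f q.2 = q.1 ∧
      (∀ t ∈ Icc (p.2 : ℝ) q.2, (f t, t) ∈ polySet (p :: (l ++ [q])) ∧
        (∃ r ∈ p :: (l ++ [q]), (r.1 : ℝ) ≤ f t) ∧ (∃ r ∈ p :: (l ++ [q]), f t ≤ r.1)) ∧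
      ∀ r ∈ l, (p.2 : ℝ) < r.2 ∧ (r.2 : ℝ) < q.2 ∧ f r.2 = r.1 := by
  have one : ∀ p q : ℤ × ℤ, (p.2 : ℝ) < q.2 → ∃ f : ℝ → ℝ, Continuous f ∧ f p.2 = p.1 ∧ f q.2 = q.1 ∧
      ∀ t ∈ Icc (p.2 : ℝ) q.2, (f t, t) ∈ segment ℝ (toR p) (toR q) ∧
        ((p.1 : ℝ) ≤ f t ∨ (q.1 : ℝ) ≤ f t) ∧ (f t ≤ p.1 ∨ f t ≤ q.1) := by
    intro p q h
    have hd : (0 : ℝ) < q.2 - p.2 := by linarith
    refine ⟨fun t => p.1 + (t - p.2) / (q.2 - p.2) * (q.1 - p.1), by fun_prop, by simp, ?_, ?_⟩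
    · simp only; rw [div_self hd.ne']; ring
    · intro t ht
      have s0 : 0 ≤ (t - p.2) / (q.2 - p.2) := div_nonneg (by linarith [ht.1]) hd.le
      have s1 : (t - p.2) / (q.2 - p.2) ≤ 1 := (div_le_one hd).2 (by linarith [ht.2])
      refine ⟨seg_of_param s0 s1 rfl ?_, ?_, ?_⟩
      · simp only [toR]; field_simp; ring
      · rcases le_total (p.1 : ℝ) q.1 with c | c
        · left; simp only; nlinarith
        · right; simp only; nlinarith
      · rcases le_total (p.1 : ℝ) q.1 with c | c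
        · right; simp only; nlinarith
        · left; simp only; nlinarith
  intro l
  induction l with
  | nil =>
    intro p h
    have h1 : p.2 < q.2 := by simpa using h
    have h2 : (p.2 : ℝ) < q.2 := by exact_mod_cast h1
    obtain ⟨f, f1, f2, f3, f4⟩ := one p q h2
    refine ⟨h2, f, f1, f2, f3, fun t ht => ?_, by simp⟩
    obtain ⟨a, b, c⟩ := f4 t ht
    refine ⟨by simpa [polySet] using a, ?_, ?_⟩
    · rcases b with b | b
      · exact ⟨p, by simp, b⟩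
      · exact ⟨q, by simp, b⟩
    · rcases c with b | b
      · exact ⟨p, by simp, b⟩
      · exact ⟨q, by simp, b⟩
  | cons r l ih =>
    intro p h
    rw [List.cons_append, List.isChain_cons_cons] at h
    have h2 : (p.2 : ℝ) < r.2 := by exact_mod_cast h.1
    obtain ⟨h3, g, g1, g2, g3, g4, g5⟩ := ih r h.2
    obtain ⟨f, f1, f2, f3, f4⟩ := one p r h2
    refine ⟨by linarith, fun t => if t ≤ r.2 then f t else g t, ?_, ?_, ?_, ?_, ?_⟩
    · exact Continuous.if_le f1 g1 continuous_id continuous_const (fun t ht => by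
        rw [ht, f3, g2])
    · simp only [if_pos h2.le, f2]
    · simp only [if_neg (not_le.2 h3), g3]
    · intro t ht
      by_cases c : t ≤ r.2
      · simp only [if_pos c]
        obtain ⟨a, b, d⟩ := f4 t ⟨ht.1, c⟩
        refine ⟨Or.inl a, ?_, ?_⟩
        · rcases b with b | b
          · exact ⟨p, by simp, b⟩
          · exact ⟨r, by simp, b⟩
        · rcases d with b | b
          · exact ⟨p, by simp, b⟩
          · exact ⟨r, by simp, b⟩
      · simp only [if_neg c]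
        obtain ⟨a, ⟨b, b1, b2⟩, ⟨d, d1, d2⟩⟩ := g4 t ⟨(not_le.1 c).le, ht.2⟩
        exact ⟨Or.inr a, ⟨b, List.mem_cons_of_mem _ b1, b2⟩, ⟨d, List.mem_cons_of_mem _ d1, d2⟩⟩
    · intro s hs
      rcases List.mem_cons.1 hs with e | e
      · rw [e]; exact ⟨h2, h3, by simp only [if_pos le_rfl, f3]⟩
      · obtain ⟨a, b, c⟩ := g5 s e
        exact ⟨by linarith, b, by simp only [if_neg (not_le.2 a), c]⟩

variable {V : Type} {E : V → V → Prop}

noncomputable def Sys.ind (D : Sys E) (u v : V) (x t : ℝ) : ℕ :=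
  if D.Y u ≤ t ∧ t < D.Y v ∧ D.F u v t < x then 1 else 0

def Sys.Ins (D : Sys E) (s s' b b' : V) (x t : ℝ) : Prop :=
  (D.ind s b x t + D.ind s b' x t + D.ind s' b x t + D.ind s' b' x t) % 2 = 1

theorem Sys.Ins.symm {D : Sys E} {s s' b b' : V} {x t : ℝ} (h : D.Ins s s' b b' x t) :
    D.Ins s' s b b' x t := by
  unfold Sys.Ins at h ⊢; omega

theorem Sys.sign (D : Sys E) {u v s b : V} (hg : E u v) (he : E s b) {t1 t2 : ℝ}
    (a1 : D.Y u ≤ t1) (a2 : t2 ≤ D.Y v)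
    (hn : ∀ t, t1 ≤ t → t ≤ t2 → D.Y s ≤ t → t ≤ D.Y b → D.F s b t ≠ D.F u v t)
    {t t' : ℝ} (c1 : t1 ≤ t) (c2 : t ≤ t2) (c3 : D.Y s ≤ t) (c4 : t ≤ D.Y b)
    (d1 : t1 ≤ t') (d2 : t' ≤ t2) (d3 : D.Y s ≤ t') (d4 : t' ≤ D.Y b) :
    D.F s b t < D.F u v t → D.F s b t' < D.F u v t' := by
  intro h
  rcases lt_trichotomy (D.F s b t') (D.F u v t') with c | c | c
  · exact c
  · exact absurd c (hn t' d1 d2 d3 d4)
  · exact (D.asym (e := (s, b)) (g := (u, v)) he hg ⟨t, c3, c4, by simp only; linarith,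
      by simp only; linarith, h⟩ ⟨t', by simp only; linarith, by simp only; linarith, d3, d4, c⟩).elim

theorem Sys.ind_move (D : Sys E) {u v s b : V} (hg : E u v) (he : E s b) {t1 t2 : ℝ}
    (h12 : t1 ≤ t2) (a1 : D.Y u ≤ t1) (a2 : t2 ≤ D.Y v)
    (hn : ∀ t, t1 ≤ t → t ≤ t2 → D.Y s ≤ t → t ≤ D.Y b → D.F s b t ≠ D.F u v t) :
    (D.ind s b (D.F u v t1) t1 + D.ind s b (D.F u v t2) t2 +
      (if t1 < D.Y s ∧ D.Y s ≤ t2 ∧ D.X s < D.F u v (D.Y s) then 1 else 0) +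
      (if t1 < D.Y b ∧ D.Y b ≤ t2 ∧ D.X b < D.F u v (D.Y b) then 1 else 0)) % 2 = 0 := by
  have lt := D.lt s b he
  have bot := D.bot s b he
  have top := D.top s b he
  have sg := fun t t' c1 c2 c3 c4 d1 d2 d3 d4 =>
    D.sign hg he a1 a2 hn (t := t) (t' := t') c1 c2 c3 c4 d1 d2 d3 d4
  unfold Sys.ind
  by_cases p1 : D.Y s ≤ t1
  · have q1 : ¬ t1 < D.Y s := not_lt.2 p1
    by_cases p2 : t1 < D.Y b
    · by_cases p3 : t2 < D.Y b
      · have k1 := sg t1 t2 le_rfl h12 p1 p2.le h12 le_rfl (by linarith) p3.le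
        have k2 := sg t2 t1 h12 le_rfl (by linarith) p3.le le_rfl h12 p1 p2.le
        have q3 : ¬ D.Y b ≤ t2 := not_le.2 p3
        have p4 : D.Y s ≤ t2 := by linarith
        by_cases z : D.F s b t1 < D.F u v t1
        · simp [p1, p2, p3, p4, q1, q3, z, k1 z]
        · have z' : ¬ D.F s b t2 < D.F u v t2 := fun c => z (k2 c)
          simp [q1, q3, z, z']
      · have q3 : D.Y b ≤ t2 := not_lt.1 p3
        have k1 := sg t1 (D.Y b) le_rfl h12 p1 p2.le p2.le q3 lt.le le_rfl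
        have k2 := sg (D.Y b) t1 p2.le q3 lt.le le_rfl le_rfl h12 p1 p2.le
        rw [top] at k1 k2
        by_cases z : D.F s b t1 < D.F u v t1
        · simp [p1, p2, p3, q1, q3, z, k1 z]
        · have z' : ¬ D.X b < D.F u v (D.Y b) := fun c => z (k2 c)
          simp [q1, p3, z, z']
    · have p3 : ¬ t2 < D.Y b := by push Not at p2 ⊢; linarith
      simp [q1, p2, p3]
  · have q1 : t1 < D.Y s := not_le.1 p1
    by_cases p2 : D.Y s ≤ t2
    · by_cases p3 : t2 < D.Y b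
      · have q3 : ¬ D.Y b ≤ t2 := not_le.2 p3
        have k1 := sg (D.Y s) t2 q1.le p2 le_rfl lt.le h12 le_rfl p2 p3.le
        have k2 := sg t2 (D.Y s) h12 le_rfl p2 p3.le q1.le p2 le_rfl lt.le
        rw [bot] at k1 k2
        by_cases z : D.X s < D.F u v (D.Y s)
        · simp [p1, p2, p3, q1, q3, z, k1 z]
        · have z' : ¬ D.F s b t2 < D.F u v t2 := fun c => z (k2 c)
          simp [p1, q3, z, z']
      · have q3 : D.Y b ≤ t2 := not_lt.1 p3
        have q4 : t1 < D.Y b := by linarith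
        have k1 := sg (D.Y s) (D.Y b) q1.le p2 le_rfl lt.le q4.le q3 lt.le le_rfl
        have k2 := sg (D.Y b) (D.Y s) q4.le q3 lt.le le_rfl q1.le p2 le_rfl lt.le
        rw [bot, top] at k1 k2
        by_cases z : D.X s < D.F u v (D.Y s)
        · simp [p1, p2, p3, q1, q3, q4, z, k1 z]
        · have z' : ¬ D.X b < D.F u v (D.Y b) := fun c => z (k2 c)
          simp [p1, p3, z, z']
    · have p3 : ¬ D.Y b ≤ t2 := by push Not at p2 ⊢; linarith
      simp [p1, p2, p3]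

def OnC (s s' b b' w : V) : Prop := w = s ∨ w = s' ∨ w = b ∨ w = b'

structure Cyc (E : V → V → Prop) (s s' b b' : V) : Prop where
  e1 : E s b
  e2 : E s b'
  e3 : E s' b
  e4 : E s' b'

theorem Sys.notouch (D : Sys E) {u v s s' b b' x y : V} (hg : E u v) (he : E x y)
    (hx : OnC s s' b b' x) (hy : OnC s s' b b' y) (hne : ¬ (OnC s s' b b' u ∧ OnC s s' b b' v)) {t : ℝ}
    (a1 : D.Y u ≤ t) (a2 : t ≤ D.Y v) (hu : OnC s s' b b' u → D.Y u < t)
    (hv : OnC s s' b b' v → t < D.Y v) (b1 : D.Y x ≤ t) (b2 : t ≤ D.Y y) :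
    D.F x y t ≠ D.F u v t := by
  intro c
  obtain ⟨w, w1, w2, w3, -⟩ := D.meet x y u v he hg (fun e => hne (by
    simp only [Prod.mk.injEq] at e
    exact ⟨e.1 ▸ hx, e.2 ▸ hy⟩)) t b1 b2 a1 a2 c
  have : OnC s s' b b' w := by rcases w1 with e | e <;> rw [e] <;> assumption
  rcases w2 with e | e
  · rw [e] at this w3; linarith [hu this]
  · rw [e] at this w3; linarith [hv this]

theorem Sys.move_le (D : Sys E) {u v s s' b b' : V} (C : Cyc E s s' b b') (hg : E u v)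
    (hne : ¬ (OnC s s' b b' u ∧ OnC s s' b b' v)) {t1 t2 : ℝ} (h12 : t1 ≤ t2)
    (a1 : D.Y u ≤ t1) (a2 : t2 ≤ D.Y v) (hu : OnC s s' b b' u → D.Y u < t1)
    (hv : OnC s s' b b' v → t2 < D.Y v) :
    D.Ins s s' b b' (D.F u v t1) t1 ↔ D.Ins s s' b b' (D.F u v t2) t2 := by
  have k : ∀ x y, E x y → OnC s s' b b' x → OnC s s' b b' y → _ := fun x y he hx hy =>
    D.ind_move hg he h12 a1 a2 (fun t c1 c2 c3 c4 => D.notouch hg he hx hy hne (by linarith)
      (by linarith) (fun o => by linarith [hu o]) (fun o => by linarith [hv o]) c3 c4)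
  have k1 := k s b C.e1 (by simp [OnC]) (by simp [OnC])
  have k2 := k s b' C.e2 (by simp [OnC]) (by simp [OnC])
  have k3 := k s' b C.e3 (by simp [OnC]) (by simp [OnC])
  have k4 := k s' b' C.e4 (by simp [OnC]) (by simp [OnC])
  unfold Sys.Ins
  omega

theorem Sys.ins_down (D : Sys E) {u v s s' b b' : V} (C : Cyc E s s' b b') (hg : E u v)
    (hv : ¬ OnC s s' b b' v) (h : D.Ins s s' b b' (D.X v) (D.Y v)) {t : ℝ}
    (a1 : D.Y u ≤ t) (a2 : t ≤ D.Y v) (hu : OnC s s' b b' u → D.Y u < t) :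
    D.Ins s s' b b' (D.F u v t) t := by
  rw [D.move_le C hg (fun c => hv c.2) a2 a1 le_rfl hu (fun c => absurd c hv), D.top u v hg]
  exact h

theorem Sys.ins_edge (D : Sys E) {u v s s' b b' : V} (C : Cyc E s s' b b') (hg : E u v)
    (hu : ¬ OnC s s' b b' u) (hv : ¬ OnC s s' b b' v) :
    D.Ins s s' b b' (D.X u) (D.Y u) ↔ D.Ins s s' b b' (D.X v) (D.Y v) := by
  have := D.move_le C hg (fun c => hv c.2) (D.lt u v hg).le le_rfl le_rfl (fun c => absurd c hu)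
    (fun c => absurd c hv)
  rwa [D.bot u v hg, D.top u v hg] at this

theorem Sys.enclosed (D : Sys E) {s s' b b' : V} (C : Cyc E s s' b b') {x t : ℝ}
    (h : D.Ins s s' b b' x t)
    (hn : ∀ u v, E u v → OnC s s' b b' u → OnC s s' b b' v → D.Y u ≤ t → t ≤ D.Y v → D.F u v t ≠ x) :
    (∃ u v, (u = s ∨ u = s') ∧ (v = b ∨ v = b') ∧ D.Y u ≤ t ∧ t < D.Y v ∧ D.F u v t < x) ∧
    (∃ u v, (u = s ∨ u = s') ∧ (v = b ∨ v = b') ∧ D.Y u ≤ t ∧ t < D.Y v ∧ x < D.F u v t) := by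
  constructor
  · by_contra c
    have k : ∀ u v, (u = s ∨ u = s') → (v = b ∨ v = b') → D.ind u v x t = 0 := by
      intro u v h1 h2
      exact if_neg (fun d => c ⟨u, v, h1, h2, d⟩)
    unfold Sys.Ins at h
    rw [k s b (by simp) (by simp), k s b' (by simp) (by simp), k s' b (by simp) (by simp),
      k s' b' (by simp) (by simp)] at h
    omega
  · by_contra c
    have k : ∀ u v, E u v → (u = s ∨ u = s') → (v = b ∨ v = b') →
        D.ind u v x t + (if D.Y v ≤ t then 1 else 0) = (if D.Y u ≤ t then 1 else 0) := by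
      intro u v e h1 h2
      have lt := D.lt u v e
      unfold Sys.ind
      by_cases p1 : D.Y u ≤ t
      · by_cases p2 : D.Y v ≤ t
        · simp [p1, p2, not_lt.2 p2]
        · have p3 := not_le.1 p2
          have : D.F u v t < x := by
            rcases lt_trichotomy (D.F u v t) x with d | d | d
            · exact d
            · exact absurd d (hn u v e (by unfold OnC; tauto) (by unfold OnC; tauto) p1 p3.le)
            · exact absurd ⟨u, v, h1, h2, p1, p3, d⟩ c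
          simp [p1, p2, p3, this]
      · have p2 : ¬ D.Y v ≤ t := by push Not at p1 ⊢; linarith
        simp [p1, p2]
    have k1 := k s b C.e1 (by simp) (by simp)
    have k2 := k s b' C.e2 (by simp) (by simp)
    have k3 := k s' b C.e3 (by simp) (by simp)
    have k4 := k s' b' C.e4 (by simp) (by simp)
    unfold Sys.Ins at h
    omega

theorem Sys.three (D : Sys E) {α β γ b b' : V} (hab : α ≠ β) (hb : b ≠ b') (e1 : E α b) (e2 : E α b')
    (e3 : E β b) (e4 : E β b') (e6 : E γ b') {h : ℝ} (h1 : D.Y α ≤ h) (h2 : D.Y β ≤ h)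
    (h3 : D.Y γ ≤ h) (h4 : h ≤ D.Y b') (h5 : D.Y b' ≤ D.Y b)
    (k1 : D.F α b' h < D.F β b h) (k2 : D.F β b h < D.F γ b' h) : False := by
  have l1 := D.lt _ _ e1
  have l4 := D.lt _ _ e4
  have r1 : D.X b' ≤ D.F β b (D.Y b') := by
    by_contra c
    push Not at c
    exact D.asym (e := (α, b')) (g := (β, b)) e2 e3 ⟨h, h1, h4, h2, by simp only; linarith, k1⟩
      ⟨D.Y b', by simp only; linarith, h5, by simp only; linarith, le_rfl, by
        simp only [D.top _ _ e2]; exact c⟩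
  have r2 : D.F β b (D.Y b') ≤ D.X b' := by
    by_contra c
    push Not at c
    exact D.asym (e := (β, b)) (g := (γ, b')) e3 e6 ⟨h, h2, by simp only; linarith, h3, h4, k2⟩
      ⟨D.Y b', by simp only; linarith, le_rfl, by simp only; linarith, h5, by
        simp only [D.top _ _ e6]; exact c⟩
  obtain ⟨w, w1, w2, w3, -⟩ := D.meet β b α b' e3 e2 (fun c => hb (Prod.ext_iff.1 c).2) (D.Y b')
    (by linarith) h5 (by linarith) le_rfl (by rw [D.top _ _ e2]; linarith)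
  rcases w1 with p | p <;> rcases w2 with q | q
  · exact hab (q.symm.trans p)
  · rw [p] at w3; linarith
  · rw [← p, q] at l1; exact lt_irrefl _ l1
  · exact hb (p.symm.trans q)

theorem Sys.three' (D : Sys E) {α β γ b b' : V} (hab : α ≠ β) (hb : b ≠ b') (e1 : E α b) (e2 : E α b')
    (e3 : E β b) (e4 : E β b') (e5 : E γ b) (e6 : E γ b') {h : ℝ} (h1 : D.Y α ≤ h) (h2 : D.Y β ≤ h)
    (h3 : D.Y γ ≤ h) (h4 : h ≤ D.Y b') (h5 : h ≤ D.Y b)
    (k1 : D.F α b' h < D.F β b h) (k2 : D.F β b h < D.F γ b' h)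
    (k3 : D.F α b h < D.F β b' h) (k4 : D.F β b' h < D.F γ b h) : False := by
  rcases le_total (D.Y b') (D.Y b) with c | c
  · exact D.three hab hb e1 e2 e3 e4 e6 h1 h2 h3 h4 c k1 k2
  · exact D.three hab hb.symm e2 e1 e4 e3 e5 h1 h2 h3 h5 c k3 k4

theorem par2 {p q r : Prop} [Decidable p] [Decidable q] [Decidable r]
    (h : ¬ (((if p then 1 else 0) + (if q then 1 else 0) + (if r then 1 else 0) +
      (if r then 1 else 0) : ℕ) % 2 = 1)) : p ↔ q := by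
  by_cases a : p <;> by_cases b : q <;> by_cases c : r <;> simp [a, b, c] at h ⊢

theorem par4 {p q r s : Prop} [Decidable p] [Decidable q] [Decidable r] [Decidable s]
    (h : ¬ (((if p then 1 else 0) + (if q then 1 else 0) + (if r then 1 else 0) +
      (if s then 1 else 0) : ℕ) % 2 = 1)) : (p ↔ q) ↔ (r ↔ s) := by
  by_cases a : p <;> by_cases b : q <;> by_cases c : r <;> by_cases d : s <;> simp [a, b, c, d] at h ⊢

theorem pure_k23 {u1 v1 u2 v2 c : ℝ} (s1' : u1 ≠ u2) (s2' : u1 ≠ v2) (s3' : v1 ≠ u2) (s4' : v1 ≠ v2)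
    (s5' : u1 ≠ c) (s6' : v1 ≠ c) (s7' : u2 ≠ c) (s8' : v2 ≠ c)
    (q1 : u2 < u1 ↔ v2 < u1) (q2 : u2 < v1 ↔ v2 < v1) (q3 : u1 < u2 ↔ v1 < u2)
    (q5 : (u1 < c ↔ v1 < c) ↔ (u2 < c ↔ v2 < c))
    (T123 : v1 < u2 → u2 < c → u1 < v2 → v2 < c → False)
    (T132 : v1 < c → c < v2 → u1 < c → c < u2 → False)
    (T312 : c < u1 → u1 < v2 → c < v1 → v1 < u2 → False)
    (T213 : v2 < u1 → u1 < c → u2 < v1 → v1 < c → False)
    (T231 : v2 < c → c < v1 → u2 < c → c < u1 → False)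
    (T321 : c < u2 → u2 < v1 → c < v2 → v2 < u1 → False) : False := by
  rcases lt_or_gt_of_ne s1' with a | a
  · have a2 : v1 < u2 := q3.1 a
    have a3 : u1 < v2 := lt_of_le_of_ne (not_lt.1 (fun z => by linarith [q1.2 z])) s2'
    have a4 : v1 < v2 := lt_of_le_of_ne (not_lt.1 (fun z => by linarith [q2.2 z])) s4'
    rcases lt_or_gt_of_ne s5' with p | p <;> rcases lt_or_gt_of_ne s6' with q | q <;>
      rcases lt_or_gt_of_ne s7' with r | r <;> rcases lt_or_gt_of_ne s8' with s | s <;>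
      first
        | exact T123 a2 r a3 s
        | exact T132 q s p r
        | exact T312 p a3 q a2
        | linarith
        | (simp [p, q, r, s, p.le, q.le, r.le, s.le, not_lt.2 p.le, not_lt.2 q.le, not_lt.2 r.le,
            not_lt.2 s.le] at q5)
  · have a2 : v2 < u1 := q1.1 a
    have a3 : u2 < v1 := lt_of_le_of_ne (not_lt.1 (fun z => by linarith [q3.2 z])) s3'.symm
    have a4 : v2 < v1 := q2.1 a3
    rcases lt_or_gt_of_ne s5' with p | p <;> rcases lt_or_gt_of_ne s6' with q | q <;>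
      rcases lt_or_gt_of_ne s7' with r | r <;> rcases lt_or_gt_of_ne s8' with s | s <;>
      first
        | exact T213 a2 p a3 q
        | exact T231 s q r p
        | exact T321 r a3 s a2
        | linarith
        | (simp [p, q, r, s, p.le, q.le, r.le, s.le, not_lt.2 p.le, not_lt.2 q.le, not_lt.2 r.le,
            not_lt.2 s.le] at q5)

theorem Sys.k23_aux (D : Sys E) {s1 s2 s3 b b' : V} (n12 : s1 ≠ s2) (n13 : s1 ≠ s3) (n23 : s2 ≠ s3)
    (hb : b ≠ b') (e1 : E s1 b) (e2 : E s1 b') (e3 : E s2 b) (e4 : E s2 b') (e5 : E s3 b)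
    (e6 : E s3 b') (h1 : D.Y s1 ≤ D.Y s3) (h2 : D.Y s2 ≤ D.Y s3) :
    D.Ins s2 s3 b b' (D.X s1) (D.Y s1) ∨ D.Ins s1 s3 b b' (D.X s2) (D.Y s2) ∨
      D.Ins s1 s2 b b' (D.X s3) (D.Y s3) := by
  by_contra hc
  push Not at hc
  obtain ⟨c1, c2, c3⟩ := hc
  have l1 := D.lt _ _ e1
  have l2 := D.lt _ _ e2
  have l3 := D.lt _ _ e3
  have l4 := D.lt _ _ e4
  have l5 := D.lt _ _ e5
  have l6 := D.lt _ _ e6
  have mv : ∀ s s' s'' x, E s x → E s b → E s b' → Cyc E s' s'' b b' → s ≠ s' → s ≠ s'' →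
      D.Y s ≤ D.Y s3 → D.Y s3 < D.Y x → ¬ D.Ins s' s'' b b' (D.X s) (D.Y s) →
      ¬ D.Ins s' s'' b b' (D.F s x (D.Y s3)) (D.Y s3) := by
    intro s s' s'' x e f f' C n n' a a' hn
    have no : ¬ OnC s' s'' b b' s := by
      rintro (c | c | c | c)
      · exact n c
      · exact n' c
      · have := D.lt _ _ f; rw [← c] at this; exact lt_irrefl _ this
      · have := D.lt _ _ f'; rw [← c] at this; exact lt_irrefl _ this
    rw [← D.move_le C e (fun c => no c.1) a le_rfl a'.le (fun c => absurd c no) (fun _ => a'),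
      D.bot _ _ e]
    exact hn
  have m1 := mv s1 s2 s3 b e1 e1 e2 ⟨e3, e4, e5, e6⟩ n12 n13 h1 l5 c1
  have m2 := mv s1 s2 s3 b' e2 e1 e2 ⟨e3, e4, e5, e6⟩ n12 n13 h1 l6 c1
  have m3 := mv s2 s1 s3 b e3 e3 e4 ⟨e1, e2, e5, e6⟩ n12.symm n23 h2 l5 c2
  have m4 := mv s2 s1 s3 b' e4 e3 e4 ⟨e1, e2, e5, e6⟩ n12.symm n23 h2 l6 c2
  have sep : ∀ s x s' x', E s x → E s' x' → s ≠ s' → D.Y s ≤ D.Y s3 → D.Y s' ≤ D.Y s3 →
      D.Y s3 < D.Y x → D.Y s3 < D.Y x' → D.F s x (D.Y s3) ≠ D.F s' x' (D.Y s3) := by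
    intro s x s' x' e e' n a a' d d' c
    obtain ⟨w, w1, w2, w3, -⟩ := D.meet s x s' x' e e' (fun z => n (Prod.ext_iff.1 z).1) _ a d.le a'
      d'.le c
    rcases w1 with p | p <;> rcases w2 with q | q
    · exact n (p.symm.trans q)
    · rw [q] at w3; linarith
    · rw [p] at w3; linarith
    · rw [p] at w3; linarith
  have s1' := sep _ _ _ _ e1 e3 n12 h1 h2 l5 l5
  have s2' := sep _ _ _ _ e1 e4 n12 h1 h2 l5 l6
  have s3' := sep _ _ _ _ e2 e3 n12 h1 h2 l6 l5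
  have s4' := sep _ _ _ _ e2 e4 n12 h1 h2 l6 l6
  have s5' := sep _ _ _ _ e1 e5 n13 h1 le_rfl l5 l5
  have s6' := sep _ _ _ _ e2 e5 n13 h1 le_rfl l6 l5
  have s7' := sep _ _ _ _ e3 e5 n23 h2 le_rfl l5 l5
  have s8' := sep _ _ _ _ e4 e5 n23 h2 le_rfl l6 l5
  have b5 := D.bot _ _ e5
  have b6 := D.bot _ _ e6
  have T := fun α β γ (hab : α ≠ β) e1 e2 e3 e4 e5 e6 h1 h2 h3 =>
    D.three' (α := α) (β := β) (γ := γ) hab hb e1 e2 e3 e4 e5 e6 (h := D.Y s3) h1 h2 h3 l6.le l5.le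
  have T123 := T s1 s2 s3 n12 e1 e2 e3 e4 e5 e6 h1 h2 le_rfl
  have T132 := T s1 s3 s2 n13 e1 e2 e5 e6 e3 e4 h1 le_rfl h2
  have T312 := T s3 s1 s2 n13.symm e5 e6 e1 e2 e3 e4 le_rfl h1 h2
  have T213 := T s2 s1 s3 n12.symm e3 e4 e1 e2 e5 e6 h2 h1 le_rfl
  have T231 := T s2 s3 s1 n23 e3 e4 e5 e6 e1 e2 h2 le_rfl h1
  have T321 := T s3 s2 s1 n23.symm e5 e6 e3 e4 e1 e2 le_rfl h2 h1
  simp only [Sys.Ins, Sys.ind, h1, h2, l5, l6, le_refl, true_and, b5, b6] at m1 m2 m3 m4 c3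
  rw [b5] at s5' s6' s7' s8'
  simp only [b5, b6] at T123 T132 T312 T213 T231 T321
  exact pure_k23 s1' s2' s3' s4' s5' s6' s7' s8' (par2 m1) (par2 m2) (par2 m3) (par4 c3)
    T123 T132 T312 T213 T231 T321

theorem Sys.k23 (D : Sys E) {s1 s2 s3 b b' : V} (n12 : s1 ≠ s2) (n13 : s1 ≠ s3) (n23 : s2 ≠ s3)
    (hb : b ≠ b') (e1 : E s1 b) (e2 : E s1 b') (e3 : E s2 b) (e4 : E s2 b') (e5 : E s3 b)
    (e6 : E s3 b') :
    D.Ins s2 s3 b b' (D.X s1) (D.Y s1) ∨ D.Ins s1 s3 b b' (D.X s2) (D.Y s2) ∨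
      D.Ins s1 s2 b b' (D.X s3) (D.Y s3) := by
  have c : (D.Y s1 ≤ D.Y s3 ∧ D.Y s2 ≤ D.Y s3) ∨ (D.Y s1 ≤ D.Y s2 ∧ D.Y s3 ≤ D.Y s2) ∨
      (D.Y s2 ≤ D.Y s1 ∧ D.Y s3 ≤ D.Y s1) := by
    rcases le_total (D.Y s1) (D.Y s2) with a | a <;> rcases le_total (D.Y s1) (D.Y s3) with b | b <;>
      rcases le_total (D.Y s2) (D.Y s3) with c | c <;> first | tauto | (left; constructor <;> linarith)
  rcases c with c | c | c
  · exact D.k23_aux n12 n13 n23 hb e1 e2 e3 e4 e5 e6 c.1 c.2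
  · rcases D.k23_aux n13 n12 n23.symm hb e1 e2 e5 e6 e3 e4 c.1 c.2 with h | h | h
    · exact Or.inl h.symm
    · exact Or.inr (Or.inr h)
    · exact Or.inr (Or.inl h)
  · rcases D.k23_aux n23 n12.symm n13.symm hb e3 e4 e5 e6 e1 e2 c.1 c.2 with h | h | h
    · exact Or.inr (Or.inl h.symm)
    · exact Or.inr (Or.inr h.symm)
    · exact Or.inl h

end Pool.Agent.H858Z.Up
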