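import Pool.Agent.H858Z.UpRepA

/-!
Every word with two non-crossing partitions has a rank representation.
-/

namespace Pool.Agent.H858Z.Up

open Classical

variable {ι B W : Type}

theorem combine {E : Finset ι} {o : ι → ℝ} {β : ι → B} {ω : ι → W} {s t a : B} {l : W}
    (h : Good E o β ω s t l) (has : a ≠ s) (hat : a ≠ t) (hm : NC E o (mrg β a t))
    {SL SR : Finset ι} {p q : W} {xL xR : W → ℤ} {yL yR : B → ℤ}
    (L : Pocket E o β ω a t SL p xL yL) (R : Pocket E (fun e => - o e) β ω a t SR q xR yR)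
    (nL : ∀ e ∈ SL, β e ≠ s) (nR : ∀ e ∈ SR, β e ≠ s)
    (ih : ∀ S, S ⊆ E → Good S o (mrg β a t) ω s t l → Rep S o (mrg β a t) ω s t l) :
    Rep E o β ω s t l := by
  obtain ⟨e0, he0, s0, l0, m0⟩ := h.first
  obtain ⟨e1, he1, t1, l1, m1⟩ := h.last
  have hw := h.word
  have ne_o : ∀ e ∈ E, ∀ f ∈ E, β e ≠ β f → o e ≠ o f := fun e he f hf hn c =>
    hn (by rw [hw.inj _ he _ hf c])
  -- no t-edge between two a-edges
  have ata : ∀ e ∈ E, ∀ g ∈ E, ∀ f ∈ E, β e = a → β g = t → β f = a → o e ≤ o g → o g ≤ o f →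
      False := by
    intro e he g hg f hf a1 a2 a3 b1 b2
    have c1 := lt_of_le_of_ne b1 (ne_o _ he _ hg (by rw [a1, a2]; exact hat))
    have c2 := lt_of_le_of_ne b2 (ne_o _ hg _ hf (by rw [a3, a2]; exact hat.symm))
    have c3 := lt_of_le_of_ne (m1 f hf) (ne_o _ hf _ he1 (by rw [a3, t1]; exact hat))
    have := hw.nb e he g hg f hf e1 he1 c1 c2 c3 (by rw [a1, a3]) (by rw [a2, t1])
    exact hat (by rw [← a1, this, a2])
  have ordRL : ∀ e ∈ SR, ∀ f ∈ SL, o e < o f := by
    intro e he f hf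
    obtain ⟨kL, kL1, kL2, kL3, kL4⟩ := L.kept f hf
    obtain ⟨jL, jL1, jL2, jL3, jL4⟩ := L.lowr f hf
    obtain ⟨kR, kR1, kR2, kR3, kR4⟩ := R.kept e he
    obtain ⟨jR, jR1, jR2, jR3, jR4⟩ := R.lowr e he
    have a1 := jL4 f hf
    have a2 := jR4 e he
    have a3 := kR4 jR jR1
    have a4 := jL4 kL kL1
    by_contra c
    push Not at c
    have b0 : o jL ≤ o jR := by linarith
    have b1 : o kR < o jL := by
      by_contra d
      push Not at d
      exact ata jL (L.sub jL1) kR (R.sub kR1) jR (R.sub jR1) jL2 kR2 jR2 d (by linarith)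
    have b2 : o jR < o kL := by
      by_contra d
      push Not at d
      exact ata jL (L.sub jL1) kL (L.sub kL1) jR (R.sub jR1) jL2 kL2 jR2 a4 d
    have pq : p ≠ q := by
      intro d
      have : kR = kL := hw.simple _ (R.sub kR1) _ (L.sub kL1) (by rw [kR2, kL2]) (by rw [kR3, kL3, d])
      rw [this] at b1; linarith
    rcases eq_or_lt_of_le b0 with d | d
    · have := hw.inj _ (L.sub jL1) _ (R.sub jR1) d
      exact pq (by rw [← jL3, this, jR3])
    · have := hw.nw kR (R.sub kR1) jL (L.sub jL1) jR (R.sub jR1) kL (L.sub kL1) b1 d b2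
        (by rw [kR3, jR3]) (by rw [jL3, kL3])
      exact pq (by rw [← jL3, ← this, kR3])
  have disj : ∀ e ∈ SL, e ∉ SR := fun e he hr => lt_irrefl _ (ordRL e hr e he)
  have pq : ∀ e ∈ SL, ∀ f ∈ SR, p ≠ q := by
    intro e he f hf d
    obtain ⟨kL, kL1, kL2, kL3, kL4⟩ := L.kept e he
    obtain ⟨kR, kR1, kR2, kR3, kR4⟩ := R.kept f hf
    have : kR = kL := hw.simple _ (R.sub kR1) _ (L.sub kL1) (by rw [kR2, kL2]) (by rw [kR3, kL3, d])
    exact disj kL kL1 (this ▸ kR1)
  set out := E.filter (fun e => (e ∈ SL → β e = t ∧ ω e = p) ∧ (e ∈ SR → β e = t ∧ ω e = q))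
    with hout
  have mo : ∀ e, e ∈ out ↔ e ∈ E ∧ (e ∈ SL → β e = t ∧ ω e = p) ∧ (e ∈ SR → β e = t ∧ ω e = q) :=
    fun e => Finset.mem_filter
  have osub : out ⊆ E := Finset.filter_subset _ _
  have mA : ∀ e, β e = a → mrg β a t e = t := fun e he => by simp [mrg, he]
  have mN : ∀ e, β e ≠ a → mrg β a t e = β e := fun e he => by simp [mrg, he]
  have mT : ∀ e, β e = t → mrg β a t e = t := fun e he => by rw [mN e (by rw [he]; exact hat.symm), he]
  have e0out : e0 ∈ out :=
    (mo _).2 ⟨he0, fun c => absurd s0 (nL _ c), fun c => absurd s0 (nR _ c)⟩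
  have e1R : e1 ∉ SR := by
    intro c
    obtain ⟨j, j1, j2, j3, j4⟩ := R.lowr e1 c
    have := j4 e1 c
    have := m1 j (R.sub j1)
    exact ne_o _ (R.sub j1) _ he1 (by rw [j2, t1]; exact hat) (by linarith)
  have e1out : e1 ∈ out := by
    refine (mo _).2 ⟨he1, fun c => ⟨t1, ?_⟩, fun c => absurd c e1R⟩
    obtain ⟨k, k1, k2, k3, k4⟩ := L.kept e1 c
    have := hw.inj _ he1 _ (L.sub k1) (le_antisymm (k4 e1 c) (m1 k (L.sub k1)))
    rw [this, k3]
  have gout : Good out o (mrg β a t) ω s t l := by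
    refine ⟨⟨fun e he f hf => hw.inj e (osub he) f (osub hf), ?_, hm.mono osub, hw.nw.mono osub⟩,
      h.ne, ⟨e0, e0out, by rw [mN _ (by rw [s0]; exact has.symm), s0], l0, fun f hf => m0 f (osub hf)⟩,
      ⟨e1, e1out, mT _ t1, l1, fun f hf => m1 f (osub hf)⟩⟩
    have key : ∀ e ∈ out, ∀ f ∈ out, β e = a → β f = t → ω e = ω f → False := by
      intro e he f hf a1 a2 a3
      obtain ⟨b1, b2, b3⟩ := (mo _).1 he
      rcases lt_trichotomy (o e) (o f) with c | c | c
      · have := (b2 (L.maxl e b1 f (osub hf) a1 a2 a3 c).1).1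
        exact hat (by rw [← a1, this])
      · exact ne_o _ b1 _ (osub hf) (by rw [a1, a2]; exact hat) c
      · have := (b3 (R.maxl e b1 f (osub hf) a1 a2 a3 (by linarith)).1).1
        exact hat (by rw [← a1, this])
    intro e he f hf a1 a2
    by_cases c1 : β e = a <;> by_cases c2 : β f = a
    · exact hw.simple _ (osub he) _ (osub hf) (by rw [c1, c2]) a2
    · rw [mA _ c1, mN _ c2] at a1
      exact (key e he f hf c1 a1.symm a2).elim
    · rw [mA _ c2, mN _ c1] at a1
      exact (key f hf e he c2 a1 a2.symm).elim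
    · rw [mN _ c2, mN _ c1] at a1
      exact hw.simple _ (osub he) _ (osub hf) a1 a2
  obtain ⟨xo, yo, O⟩ := ih out osub gout
  -- inner whites
  let IL : W → Prop := fun b => b ≠ p ∧ ∃ e ∈ SL, ω e = b
  let IR : W → Prop := fun b => b ≠ q ∧ ∃ e ∈ SR, ω e = b
  have ILin : ∀ f ∈ E, IL (ω f) → f ∈ SL := by
    rintro f hf ⟨h1, e, he, h2⟩
    exact L.clW e he f hf h2.symm (by rw [h2]; exact h1)
  have IRin : ∀ f ∈ E, IR (ω f) → f ∈ SR := by
    rintro f hf ⟨h1, e, he, h2⟩
    exact R.clW e he f hf h2.symm (by rw [h2]; exact h1)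
  let π : W → W := fun b => if IL b then p else if IR b then q else b
  let sec : W → ℤ := fun b => if IL b then xL b - xL p else if IR b then xR q - xR b else 0
  have πL : ∀ e ∈ SL, π (ω e) = p ∧ sec (ω e) = xL (ω e) - xL p := by
    intro e he
    by_cases c : IL (ω e)
    · simp [π, sec, c]
    · have c2 : ¬ IR (ω e) := fun d => disj e he (IRin e (L.sub he) d)
      have : ω e = p := by
        by_contra d
        exact c ⟨d, e, he, rfl⟩
      simp only [π, sec, if_neg c, if_neg c2]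
      rw [this]; simp
  have πR : ∀ e ∈ SR, π (ω e) = q ∧ sec (ω e) = xR q - xR (ω e) := by
    intro e he
    have c1 : ¬ IL (ω e) := fun d => disj e (ILin e (R.sub he) d) he
    by_cases c : IR (ω e)
    · simp [π, sec, c, c1]
    · have : ω e = q := by
        by_contra d
        exact c ⟨d, e, he, rfl⟩
      simp only [π, sec, if_neg c, if_neg c1]
      rw [this]; simp
  have πO : ∀ e ∈ out, π (ω e) = ω e ∧ sec (ω e) = 0 := by
    intro e he
    obtain ⟨b1, b2, b3⟩ := (mo _).1 he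
    have c1 : ¬ IL (ω e) := fun d => d.1 (b2 (ILin e b1 d)).2
    have c2 : ¬ IR (ω e) := fun d => d.1 (b3 (IRin e b1 d)).2
    simp [π, sec, c1, c2]
  have rep_edge : ∀ e ∈ E, ∃ r ∈ out, ω r = π (ω e) ∧
      ((e ∈ SL ∧ r ∈ SL ∧ β r = t ∧ ω r = p ∧ ∀ f ∈ SL, o f ≤ o r) ∨
       (e ∈ SR ∧ r ∈ SR ∧ β r = t ∧ ω r = q ∧ ∀ f ∈ SR, o r ≤ o f) ∨
       (e ∉ SL ∧ e ∉ SR ∧ r = e)) := by
    intro e he
    by_cases c1 : e ∈ SL
    · obtain ⟨k, k1, k2, k3, k4⟩ := L.kept e c1
      exact ⟨k, (mo _).2 ⟨L.sub k1, fun _ => ⟨k2, k3⟩, fun d => absurd d (disj k k1)⟩,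
        by rw [(πL e c1).1, k3], Or.inl ⟨c1, k1, k2, k3, k4⟩⟩
    · by_cases c2 : e ∈ SR
      · obtain ⟨k, k1, k2, k3, k4⟩ := R.kept e c2
        exact ⟨k, (mo _).2 ⟨R.sub k1, fun d => absurd k1 (disj k d), fun _ => ⟨k2, k3⟩⟩,
          by rw [(πR e c2).1, k3], Or.inr (Or.inl ⟨c2, k1, k2, k3, fun f hf => by linarith [k4 f hf]⟩)⟩
      · have : e ∈ out := (mo _).2 ⟨he, fun d => absurd d c1, fun d => absurd d c2⟩
        exact ⟨e, this, (πO e this).1.symm, Or.inr (Or.inr ⟨c1, c2, rfl⟩)⟩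
  let x : W → ℤ ×ₗ ℤ := fun b => toLex (xo (π b), sec b)
  have xlt : ∀ b b', x b < x b' ↔ xo (π b) < xo (π b') ∨ xo (π b) = xo (π b') ∧ sec b < sec b' :=
    fun b b' => Prod.Lex.toLex_lt_toLex
  have XO : ∀ e ∈ out, ∀ f ∈ out, (x (ω e) < x (ω f) ↔ xo (ω e) < xo (ω f)) := by
    intro e he f hf
    rw [xlt, (πO e he).1, (πO e he).2, (πO f hf).1, (πO f hf).2]; omega
  have XL : ∀ e ∈ SL, ∀ f ∈ SL, (x (ω e) < x (ω f) ↔ xL (ω e) < xL (ω f)) := by
    intro e he f hf
    rw [xlt, (πL e he).1, (πL e he).2, (πL f hf).1, (πL f hf).2]; omega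
  have XR : ∀ e ∈ SR, ∀ f ∈ SR, (x (ω e) < x (ω f) ↔ xR (ω f) < xR (ω e)) := by
    intro e he f hf
    rw [xlt, (πR e he).1, (πR e he).2, (πR f hf).1, (πR f hf).2]; omega
  have Xle : ∀ b b', x b < x b' → xo (π b) ≤ xo (π b') := by
    intro b b' hh
    rw [xlt] at hh; omega
  -- blacks
  let BL : B → Prop := fun c => ∃ e ∈ SL, β e = c
  let BR : B → Prop := fun c => ∃ e ∈ SR, β e = c
  let lev : B → ℤ := fun c => if c = t then 4 else if c = a then 1 else if BL c then 3
    else if BR c then 2 else 0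
  let sy : B → ℤ := fun c => if c = t then 0 else if c = a then 0 else if BL c then yL c
    else if BR c then yR c else yo c
  let y : B → ℤ ×ₗ ℤ := fun c => toLex (lev c, sy c)
  have ylt : ∀ c c', y c < y c' ↔ lev c < lev c' ∨ lev c = lev c' ∧ sy c < sy c' :=
    fun b b' => Prod.Lex.toLex_lt_toLex
  have levt : lev t = 4 ∧ sy t = 0 := by simp [lev, sy]
  have cls : ∀ e ∈ E,
      (β e = t ∧ lev (β e) = 4 ∧ sy (β e) = 0) ∨ (β e = a ∧ lev (β e) = 1 ∧ sy (β e) = 0) ∨
      (β e ≠ t ∧ β e ≠ a ∧ e ∈ SL ∧ lev (β e) = 3 ∧ sy (β e) = yL (β e)) ∨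
      (β e ≠ t ∧ β e ≠ a ∧ e ∈ SR ∧ lev (β e) = 2 ∧ sy (β e) = yR (β e)) ∨
      (β e ≠ t ∧ β e ≠ a ∧ e ∉ SL ∧ e ∉ SR ∧ lev (β e) = 0 ∧ sy (β e) = yo (β e)) := by
    intro e he
    by_cases c1 : β e = t
    · left; simp [lev, sy, c1]
    by_cases c2 : β e = a
    · right; left; simp [lev, sy, c2, hat]
    by_cases c3 : BL (β e)
    · right; right; left
      obtain ⟨f, hf, hf2⟩ := id c3
      exact ⟨c1, c2, L.clB f hf e he hf2.symm (by rw [hf2]; exact c2) (by rw [hf2]; exact c1),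
        by simp [lev, c1, c2, c3], by simp [sy, c1, c2, c3]⟩
    by_cases c4 : BR (β e)
    · right; right; right; left
      obtain ⟨f, hf, hf2⟩ := id c4
      exact ⟨c1, c2, R.clB f hf e he hf2.symm (by rw [hf2]; exact c2) (by rw [hf2]; exact c1),
        by simp [lev, c1, c2, c3, c4], by simp [sy, c1, c2, c3, c4]⟩
    · right; right; right; right
      exact ⟨c1, c2, fun d => c3 ⟨e, d, rfl⟩, fun d => c4 ⟨e, d, rfl⟩,
        by simp [lev, c1, c2, c3, c4], by simp [sy, c1, c2, c3, c4]⟩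
  have toOut : ∀ e ∈ E, e ∉ SL → e ∉ SR → e ∈ out := fun e he c1 c2 =>
    (mo _).2 ⟨he, fun d => absurd d c1, fun d => absurd d c2⟩
  have clsL : ∀ e ∈ SL, (lev (β e) = 4 ∧ sy (β e) = 0 ∧ yL (β e) = yL t) ∨
      (lev (β e) = 1 ∧ sy (β e) = 0 ∧ yL (β e) = yL a) ∨ (lev (β e) = 3 ∧ sy (β e) = yL (β e)) := by
    intro e he
    rcases cls e (L.sub he) with c | c | c | c | c
    · exact Or.inl ⟨c.2.1, c.2.2, by rw [c.1]⟩
    · exact Or.inr (Or.inl ⟨c.2.1, c.2.2, by rw [c.1]⟩)
    · exact Or.inr (Or.inr c.2.2.2)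
    · exact absurd c.2.2.1 (disj e he)
    · exact absurd he c.2.2.1
  have clsR : ∀ e ∈ SR, (lev (β e) = 4 ∧ sy (β e) = 0 ∧ yR (β e) = yR t) ∨
      (lev (β e) = 1 ∧ sy (β e) = 0 ∧ yR (β e) = yR a) ∨ (lev (β e) = 2 ∧ sy (β e) = yR (β e)) := by
    intro e he
    rcases cls e (R.sub he) with c | c | c | c | c
    · exact Or.inl ⟨c.2.1, c.2.2, by rw [c.1]⟩
    · exact Or.inr (Or.inl ⟨c.2.1, c.2.2, by rw [c.1]⟩)
    · exact absurd he (disj e c.2.2.1)
    · exact Or.inr (Or.inr c.2.2.2)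
    · exact absurd he c.2.2.2.1
  have YL : ∀ e ∈ SL, ∀ f ∈ SL, y (β e) < y (β f) → yL (β e) < yL (β f) := by
    intro e he f hf hh
    have hne : β e ≠ β f := fun c => by rw [c] at hh; exact lt_irrefl _ hh
    have hne2 : yL (β e) ≠ yL (β f) := fun c => hne (L.rep.yinj e he f hf c)
    have a1 := L.rep.ylo e he
    have a2 := L.rep.yhi e he
    have a3 := L.rep.ylo f hf
    have a4 := L.rep.yhi f hf
    rw [ylt] at hh
    rcases clsL e he with c | c | c <;> rcases clsL f hf with d | d | d <;> omega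
  have YR : ∀ e ∈ SR, ∀ f ∈ SR, y (β e) < y (β f) → yR (β e) < yR (β f) := by
    intro e he f hf hh
    have hne : β e ≠ β f := fun c => by rw [c] at hh; exact lt_irrefl _ hh
    have hne2 : yR (β e) ≠ yR (β f) := fun c => hne (R.rep.yinj e he f hf c)
    have a1 := R.rep.ylo e he
    have a2 := R.rep.yhi e he
    have a3 := R.rep.ylo f hf
    have a4 := R.rep.yhi f hf
    rw [ylt] at hh
    rcases clsR e he with c | c | c <;> rcases clsR f hf with d | d | d <;> omega
  have levs : lev s = 0 ∧ sy s = yo s := by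
    rcases cls e0 he0 with c | c | c | c | c
    · exact absurd (s0.symm.trans c.1) h.ne
    · exact absurd (c.1.symm.trans s0) has
    · exact absurd s0 (nL _ c.2.2.1)
    · exact absurd s0 (nR _ c.2.2.1)
    · rw [s0] at c; exact c.2.2.2.2
  have outLe : ∀ e ∈ SL, ∀ r ∈ SL, β r = t → ω r = p → (∀ f ∈ SL, o f ≤ o r) → ∀ g ∈ out,
      o e ≤ o g → o r ≤ o g := by
    intro e he r hr r1 r2 r3 g hg hle
    by_contra c
    push Not at c
    have gL := L.conv e he r hr g (osub hg) hle c.le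
    obtain ⟨g1, g2⟩ := ((mo _).1 hg).2.1 gL
    have : g = r := hw.simple _ (osub hg) _ (L.sub hr) (by rw [g1, r1]) (by rw [g2, r2])
    rw [this] at c; exact lt_irrefl _ c
  have outGe : ∀ e ∈ SR, ∀ r ∈ SR, β r = t → ω r = q → (∀ f ∈ SR, o r ≤ o f) → ∀ g ∈ out,
      o g ≤ o e → o r < o g → False := by
    intro e he r hr r1 r2 r3 g hg hle c
    have gR := R.conv e he r hr g (osub hg) (by linarith) (by linarith)
    obtain ⟨g1, g2⟩ := ((mo _).1 hg).2.2 gR
    have : g = r := hw.simple _ (osub hg) _ (R.sub hr) (by rw [g1, r1]) (by rw [g2, r2])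
    rw [this] at c; exact lt_irrefl _ c
  refine RepBy.toRep (x := x) (y := y) ⟨?_, ?_, ?_, ?_, ?_, ?_, ?_, ?_⟩
  · intro e he f hf hh
    have hh' : xo (π (ω e)) = xo (π (ω f)) ∧ sec (ω e) = sec (ω f) := by
      simpa only [x, toLex_inj, Prod.mk.injEq] using hh
    obtain ⟨r, hr, r1, r2⟩ := rep_edge e he
    obtain ⟨r', hr', r1', r2'⟩ := rep_edge f hf
    have hπ : ω r = ω r' := O.xinj r hr r' hr' (by rw [r1, r1', hh'.1])
    have oneL : ∀ e ∈ SL, ∀ f ∈ out, ∀ r ∈ SL, ω r = p → ω f = p → sec (ω e) = sec (ω f) →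
        ω e = ω f := by
      intro e he f hf r hr a1 a2 a3
      rw [(πL e he).2, (πO f hf).2] at a3
      rw [a2, ← a1]
      exact L.rep.xinj e he r hr (by rw [a1]; omega)
    have oneR : ∀ e ∈ SR, ∀ f ∈ out, ∀ r ∈ SR, ω r = q → ω f = q → sec (ω e) = sec (ω f) →
        ω e = ω f := by
      intro e he f hf r hr a1 a2 a3
      rw [(πR e he).2, (πO f hf).2] at a3
      rw [a2, ← a1]
      exact R.rep.xinj e he r hr (by rw [a1]; omega)
    rcases r2 with c | c | c <;> rcases r2' with d | d | d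
    · have := hh'.2
      rw [(πL e c.1).2, (πL f d.1).2] at this
      exact L.rep.xinj e c.1 f d.1 (by omega)
    · exact absurd (by rw [← c.2.2.2.1, hπ, d.2.2.2.1]) (pq e c.1 f d.1)
    · obtain ⟨-, -, rfl⟩ := d
      exact oneL e c.1 r' hr' r c.2.1 c.2.2.2.1 (by rw [← hπ, c.2.2.2.1]) hh'.2
    · exact absurd (by rw [← d.2.2.2.1, ← hπ, c.2.2.2.1]) (pq f d.1 e c.1)
    · have := hh'.2
      rw [(πR e c.1).2, (πR f d.1).2] at this
      exact R.rep.xinj e c.1 f d.1 (by omega)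
    · obtain ⟨-, -, rfl⟩ := d
      exact oneR e c.1 r' hr' r c.2.1 c.2.2.2.1 (by rw [← hπ, c.2.2.2.1]) hh'.2
    · obtain ⟨-, -, rfl⟩ := c
      exact (oneL f d.1 r hr r' d.2.1 d.2.2.2.1 (by rw [hπ, d.2.2.2.1]) hh'.2.symm).symm
    · obtain ⟨-, -, rfl⟩ := c
      exact (oneR f d.1 r hr r' d.2.1 d.2.2.2.1 (by rw [hπ, d.2.2.2.1]) hh'.2.symm).symm
    · obtain ⟨-, -, rfl⟩ := c
      obtain ⟨-, -, rfl⟩ := d
      exact hπ
  · intro e he f hf hh
    have hh' : lev (β e) = lev (β f) ∧ sy (β e) = sy (β f) := by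
      simpa only [y, toLex_inj, Prod.mk.injEq] using hh
    rcases cls e he with c | c | c | c | c <;> rcases cls f hf with d | d | d | d | d <;>
      first
        | omega
        | (rw [c.1, d.1]; done)
        | exact L.rep.yinj e c.2.2.1 f d.2.2.1 (by omega)
        | exact R.rep.yinj e c.2.2.1 f d.2.2.1 (by omega)
        | (have := O.yinj e (toOut e he c.2.2.1 c.2.2.2.1) f (toOut f hf d.2.2.1 d.2.2.2.1)
            (by rw [mN _ c.2.1, mN _ d.2.1]; omega)
           rwa [mN _ c.2.1, mN _ d.2.1] at this)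
  · intro e he
    rw [← not_lt, ylt]
    rcases cls e he with c | c | c | c | c
    · omega
    · omega
    · omega
    · omega
    · have := O.ylo e (toOut e he c.2.2.1 c.2.2.2.1)
      rw [mN _ c.2.1] at this
      omega
  · intro e he
    rw [← not_lt, ylt]
    rcases cls e he with c | c | c | c | c <;> omega
  · intro e he
    rw [← not_lt, xlt]
    obtain ⟨r, hr, r1, r2⟩ := rep_edge e he
    have a1 := O.xlo r hr
    have a2 := πO e0 e0out
    rw [l0] at a2
    rw [a2.1, a2.2, ← r1]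
    rcases r2 with c | c | c
    · have := L.rep.xlo e c.1
      rw [(πL e c.1).2]; omega
    · have : xo l ≠ xo (ω r) := by
        intro d
        have := O.xinj e1 e1out r hr (by rw [l1, d])
        have := hw.simple _ he1 _ (osub hr) (by rw [t1, c.2.2.1]) this
        exact e1R (this ▸ c.2.1)
      omega
    · obtain ⟨-, -, rfl⟩ := c
      rw [(πO r hr).2]; omega
  · intro e he f hf a1 a2 a3
    have eo := toOut e he (fun c => nL e c a1) (fun c => nR e c a1)
    have fo := toOut f hf (fun c => nL f c a2) (fun c => nR f c a2)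
    rw [XO e eo f fo]
    exact O.incs e eo f fo (by rw [mN _ (by rw [a1]; exact has.symm), a1])
      (by rw [mN _ (by rw [a2]; exact has.symm), a2]) a3
  · intro e he f hf a1 a2 a3
    obtain ⟨r, hr, r1, r2⟩ := rep_edge e he
    obtain ⟨r', hr', r1', r2'⟩ := rep_edge f hf
    have key : β r = t → β r' = t → o r < o r' → x (ω f) < x (ω e) := by
      intro b1 b2 b3
      rw [xlt, ← r1, ← r1']
      exact Or.inl (O.dect r hr r' hr' (mT _ b1) (mT _ b2) b3)
    rcases r2 with c | c | c <;> rcases r2' with d | d | d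
    · rw [XL f d.1 e c.1]; exact L.rep.dect e c.1 f d.1 a1 a2 a3
    · linarith [ordRL f d.1 e c.1]
    · obtain ⟨d1, d2, rfl⟩ := d
      refine key c.2.2.1 a2 (lt_of_le_of_ne (outLe e c.1 r c.2.1 c.2.2.1 c.2.2.2.1 c.2.2.2.2 r' hr' a3.le) ?_)
      intro g
      exact d1 (hw.inj _ (osub hr) _ hf g ▸ c.2.1)
    · exact key c.2.2.1 d.2.2.1 (ordRL r c.2.1 r' d.2.1)
    · rw [XR f d.1 e c.1]; exact R.rep.dect f d.1 e c.1 a2 a1 (by linarith)
    · obtain ⟨d1, d2, rfl⟩ := d
      exact key c.2.2.1 a2 (by linarith [c.2.2.2.2 e c.1])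
    · obtain ⟨c1, c2, rfl⟩ := c
      exact key a1 d.2.2.1 (by linarith [d.2.2.2.2 f d.1])
    · obtain ⟨c1, c2, rfl⟩ := c
      refine key a1 d.2.2.1 ?_
      by_contra g
      push Not at g
      rcases eq_or_lt_of_le g with g | g
      · exact c2 (hw.inj _ (osub hr') _ he g ▸ d.2.1)
      · exact outGe f d.1 r' d.2.1 d.2.2.1 d.2.2.2.1 d.2.2.2.2 r hr a3.le g
    · obtain ⟨c1, c2, rfl⟩ := c
      obtain ⟨d1, d2, rfl⟩ := d
      exact key a1 a2 a3
  · intro u1 hu1 u2 hu2 f1 hf1 f2 hf2 a1 a2 a3 a4 a5 a6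
    obtain ⟨g, hg, g1, g2⟩ := rep_edge f2 hf2
    obtain ⟨g', hg', g1', g2'⟩ := rep_edge f1 hf1
    obtain ⟨r1, hr1, r11, r12⟩ := rep_edge u1 hu1
    obtain ⟨r2, hr2, r21, r22⟩ := rep_edge u2 hu2
    have b3 := Xle _ _ a3
    have b4 := Xle _ _ a4
    have low : lev (β f1) = 0 → f1 ∈ out ∧ β f1 ≠ a ∧ sy (β f1) = yo (β f1) := by
      intro z
      rcases cls f1 hf1 with c | c | c | c | c
      · omega
      · omega
      · omega
      · omega
      · exact ⟨toOut f1 hf1 c.2.2.1 c.2.2.2.1, c.2.1, c.2.2.2.2.2⟩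
    have high : 0 < lev (β f2) → mrg β a t g = t := by
      intro z
      rcases g2 with c | c | c
      · exact mT _ c.2.2.1
      · exact mT _ c.2.2.1
      · obtain ⟨c1, c2, rfl⟩ := c
        rcases cls g hf2 with d | d | d | d | d
        · exact mT _ d.1
        · exact mA _ d.1
        · exact absurd d.2.2.1 c1
        · exact absurd d.2.2.1 c2
        · omega
    have a5' := (ylt _ _).1 a5
    have a6' := (ylt _ _).1 a6
    rcases cls u1 hu1 with c | c | c | c | c
    · rcases cls f2 hf2 with d | d | d | d | d <;> omega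
    · -- c = a
      have z1 : lev (β f1) = 0 := by
        rcases cls f1 hf1 with d | d | d | d | d <;> omega
      obtain ⟨f1o, -, -⟩ := low z1
      have gw : ω g = ω f1 := by rw [g1, ← a2, (πO f1 f1o).1]
      have gt : β g = t := by
        rcases g2 with d | d | d
        · exact d.2.2.1
        · exact d.2.2.1
        · obtain ⟨d1, d2, rfl⟩ := d
          rcases cls g hf2 with d | d | d | d | d
          · exact d.1
          · omega
          · exact absurd d.2.2.1 d1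
          · exact absurd d.2.2.1 d2
          · omega
      have ua : β u2 = a := by rw [← a1, c.1]
      rw [(πO f1 f1o).1, ← gw] at b3 b4
      rw [← gw] at a3 a4
      rw [← r11] at b3
      rw [← r21] at b4
      by_cases z : o u1 < o g
      · have fin : mrg β a t r1 = t → o r1 < o g → False := fun w1 w2 => by
          have := O.dect r1 hr1 g hg w1 (mT _ gt) w2
          omega
        rcases r12 with d | d | d
        · have := outLe u1 d.1 r1 d.2.1 d.2.2.1 d.2.2.2.1 d.2.2.2.2 g hg z.le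
          rcases eq_or_lt_of_le this with w | w
          · have w' := hw.inj _ (osub hr1) _ (osub hg) w
            rw [← w', XL u1 d.1 r1 d.2.1, d.2.2.2.1] at a3
            have := L.rep.xlo u1 d.1
            omega
          · exact fin (mT _ d.2.2.1) w
        · exact fin (mT _ d.2.2.1) (by linarith [d.2.2.2.2 u1 d.1])
        · obtain ⟨d1, d2, rfl⟩ := d
          exact fin (mA _ c.1) z
      · have z' : o g < o u2 := by
          by_contra w
          push Not at w z
          exact ata u2 hu2 g (osub hg) u1 hu1 ua gt c.1 w z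
        have fin : mrg β a t r2 = t → o g < o r2 → False := fun w1 w2 => by
          have := O.dect g hg r2 hr2 (mT _ gt) w1 w2
          omega
        rcases r22 with d | d | d
        · exact fin (mT _ d.2.2.1) (by linarith [d.2.2.2.2 u2 d.1])
        · rcases lt_trichotomy (o g) (o r2) with w | w | w
          · exact fin (mT _ d.2.2.1) w
          · have w' := hw.inj _ (osub hg) _ (osub hr2) w
            rw [w', XR r2 d.2.1 u2 d.1, d.2.2.2.1] at a4
            have := R.rep.xlo u2 d.1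
            omega
          · exact outGe u2 d.1 r2 d.2.1 d.2.2.1 d.2.2.2.1 d.2.2.2.2 g hg z'.le w
        · obtain ⟨d1, d2, rfl⟩ := d
          exact fin (mA _ ua) z'
    · -- inner left
      have u2L : u2 ∈ SL := L.clB u1 c.2.2.1 u2 hu2 a1.symm c.2.1 c.1
      obtain ⟨k, k1, k2, k3, k4⟩ := L.kept u1 c.2.2.1
      have ko : k ∈ out := (mo _).2 ⟨L.sub k1, fun _ => ⟨k2, k3⟩, fun d => absurd d (disj k k1)⟩
      rw [(πL u1 c.2.2.1).1, ← g1'] at b3
      rw [(πL u2 u2L).1, ← g1'] at b4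
      have gp : ω g' = p := by
        rw [← k3]; exact O.xinj g' hg' k ko (by rw [k3]; omega)
      have np : ω f1 ≠ p := by
        intro w
        rw [w, ← k3, XL u1 c.2.2.1 k k1, k3] at a3
        have := L.rep.xlo u1 c.2.2.1
        omega
      have f1L : f1 ∈ SL := by
        rcases g2' with d | d | d
        · exact d.1
        · exact absurd (by rw [← gp, d.2.2.2.1]) (pq u1 c.2.2.1 f1 d.1)
        · obtain ⟨d1, d2, rfl⟩ := d
          exact absurd gp np
      have f2L : f2 ∈ SL := L.clW f1 f1L f2 hf2 a2.symm np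
      exact L.rep.nocross u1 c.2.2.1 u2 u2L f1 f1L f2 f2L a1 a2 ((XL _ c.2.2.1 _ f1L).1 a3)
        ((XL _ f1L _ u2L).1 a4) (YL _ f1L _ c.2.2.1 a5) (YL _ c.2.2.1 _ f2L a6)
    · -- inner right
      have u2R : u2 ∈ SR := R.clB u1 c.2.2.1 u2 hu2 a1.symm c.2.1 c.1
      obtain ⟨k, k1, k2, k3, k4⟩ := R.kept u1 c.2.2.1
      have ko : k ∈ out := (mo _).2 ⟨R.sub k1, fun d => absurd k1 (disj k d), fun _ => ⟨k2, k3⟩⟩
      rw [(πR u1 c.2.2.1).1, ← g1'] at b3
      rw [(πR u2 u2R).1, ← g1'] at b4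
      have gp : ω g' = q := by
        rw [← k3]; exact O.xinj g' hg' k ko (by rw [k3]; omega)
      have np : ω f1 ≠ q := by
        intro w
        rw [w, ← k3, XR k k1 u2 u2R, k3] at a4
        have := R.rep.xlo u2 u2R
        omega
      have f1R : f1 ∈ SR := by
        rcases g2' with d | d | d
        · exact absurd (by rw [← gp, d.2.2.2.1]) (pq f1 d.1 u1 c.2.2.1)
        · exact d.1
        · obtain ⟨d1, d2, rfl⟩ := d
          exact absurd gp np
      have f2R : f2 ∈ SR := R.clW f1 f1R f2 hf2 a2.symm np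
      exact R.rep.nocross u2 u2R u1 c.2.2.1 f1 f1R f2 f2R a1.symm a2 ((XR _ f1R _ u2R).1 a4)
        ((XR _ c.2.2.1 _ f1R).1 a3) (a1 ▸ YR _ f1R _ c.2.2.1 a5) (a1 ▸ YR _ c.2.2.1 _ f2R a6)
    · -- outer
      obtain ⟨c1, c2, c3, c4, c5, c6⟩ := c
      have u1o := toOut u1 hu1 c3 c4
      have u2o : u2 ∈ out := toOut u2 hu2
        (fun d => c3 (L.clB u2 d u1 hu1 a1 (a1 ▸ c2) (a1 ▸ c1)))
        (fun d => c4 (R.clB u2 d u1 hu1 a1 (a1 ▸ c2) (a1 ▸ c1)))
      have z1 : lev (β f1) = 0 := by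
        rcases cls f1 hf1 with d | d | d | d | d <;> omega
      obtain ⟨f1o, f1a, f1y⟩ := low z1
      have gw : ω g = ω f1 := by rw [g1, ← a2, (πO f1 f1o).1]
      refine O.nocross u1 u1o u2 u2o f1 f1o g hg (by rw [mN _ c2, mN _ (a1 ▸ c2), a1]) gw.symm
        ((XO _ u1o _ f1o).1 a3) ((XO _ f1o _ u2o).1 a4) (by rw [mN _ f1a, mN _ c2]; omega) ?_
      by_cases z : 0 < lev (β f2)
      · rw [high z]
        have w1 := O.yhi u1 u1o
        have w2 : yo (mrg β a t u1) ≠ yo t := by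
          intro w
          have := O.yinj u1 u1o e1 e1out (by rw [mT _ t1, w])
          rw [mT _ t1, mN _ c2] at this
          exact c1 this
        omega
      · rcases cls f2 hf2 with d | d | d | d | d
        · omega
        · omega
        · omega
        · omega
        · have : g = f2 := by
            rcases g2 with w | w | w
            · exact absurd w.1 d.2.2.1
            · exact absurd w.1 d.2.2.2.1
            · exact w.2.2
          rw [this, mN _ c2, mN _ d.2.1]; omega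

theorem step_rep {E : Finset ι} {o : ι → ℝ} {β : ι → B} {ω : ι → W} {s t a : B} {l : W}
    (h : Good E o β ω s t l) (has : a ≠ s) (hat : a ≠ t) (hae : ∃ e ∈ E, β e = a)
    (hm : NC E o (mrg β a t))
    (ih : ∀ (S : Finset ι) (o' : ι → ℝ) (β' : ι → B) s' t' l', (S.image β').card < (E.image β).card →
      Good S o' β' ω s' t' l' → Rep S o' β' ω s' t' l') :
    Rep E o β ω s t l := by
  obtain ⟨e0, he0, s0, l0, m0⟩ := h.first
  obtain ⟨e1, he1, t1, l1, m1⟩ := h.last
  have hw := h.word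
  have ms : ∀ e, β e = s → mrg β a t e = s := fun e he => by simp [mrg, he, has.symm]
  have before : ∀ e ∈ E, β e = s → ∀ f ∈ E, mrg β a t f = t → o e < o f := by
    intro e he a1 f hf a2
    by_contra c
    push Not at c
    have mt : mrg β a t e1 = t := by simp [mrg, t1]
    have n1 : o f ≠ o e := fun d => h.ne (by rw [← ms e a1, ← hw.inj _ hf _ he d, a2])
    have n2 : o e0 ≠ o f := fun d => h.ne (by rw [← ms e0 s0, hw.inj _ he0 _ hf d, a2])
    have n3 : o e ≠ o e1 := fun d => h.ne (by rw [← a1, hw.inj _ he _ he1 d, t1])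
    have := hm e0 he0 f hf e he e1 he1 (lt_of_le_of_ne (m0 f hf) n2) (lt_of_le_of_ne c n1)
      (lt_of_le_of_ne (m1 e he) n3) (by rw [ms e0 s0, ms e a1]) (by rw [a2, mt])
    exact h.ne (by rw [← ms e0 s0, this, a2])
  have small : ∀ S, S ⊆ E → (∀ e ∈ S, β e ≠ s) → (S.image β).card < (E.image β).card := by
    intro S hS hn
    apply Finset.card_lt_card
    rw [Finset.ssubset_iff_of_subset (Finset.image_subset_image hS)]
    refine ⟨s, Finset.mem_image.2 ⟨e0, he0, s0⟩, fun c => ?_⟩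
    obtain ⟨e, he, h2⟩ := Finset.mem_image.1 c
    exact hn e he h2
  obtain ⟨SL, p, xL, yL, L, nL⟩ := exists_pocket (s := s) hw l hat hm
    (fun e he a1 ea hea et het a2 a3 c => by
      have := before e he a1 ea hea (by simp [mrg, a2])
      linarith [c.1])
    (fun S p hS hn g => ih S o β a t p (small S hS hn) g)
  obtain ⟨SR, q, xR, yR, R, nR⟩ := exists_pocket (s := s) hw.neg l hat hm.neg
    (fun e he a1 ea hea et het a2 a3 c => by
      have := before e he a1 et het (by simp [mrg, a3])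
      linarith [c.2])
    (fun S p hS hn g => ih S _ β a t p (small S hS hn) g)
  refine combine h has hat hm L R nL nR (fun S hS g => ih S o _ s t l ?_ g)
  apply Finset.card_lt_card
  have sub : S.image (mrg β a t) ⊆ E.image β := by
    intro c hc
    obtain ⟨e, he, rfl⟩ := Finset.mem_image.1 hc
    unfold mrg
    split_ifs
    · exact Finset.mem_image.2 ⟨e1, he1, t1⟩
    · exact Finset.mem_image_of_mem _ (hS he)
  rw [Finset.ssubset_iff_of_subset sub]
  obtain ⟨ea, hea, a1⟩ := hae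
  refine ⟨a, Finset.mem_image.2 ⟨ea, hea, a1⟩, fun c => ?_⟩
  obtain ⟨e, he, h2⟩ := Finset.mem_image.1 c
  unfold mrg at h2
  split_ifs at h2 with h3
  · exact hat h2.symm
  · exact h3 h2

theorem rep_of_good (ω : ι → W) (n : ℕ) : ∀ (E : Finset ι) (o : ι → ℝ) (β : ι → B) (s t : B) (l : W),
    (E.image β).card < n → Good E o β ω s t l → Rep E o β ω s t l := by
  induction n with
  | zero => intro E o β s t l hn; omega
  | succ n ih =>
    intro E o β s t l hn h
    by_cases hb : ∀ e ∈ E, β e = s ∨ β e = t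
    · exact base_rep h hb
    push Not at hb
    obtain ⟨e1, he1, t1, l1, m1⟩ := h.last
    obtain ⟨m, hm, mmax⟩ := Finset.exists_max_image (E.filter (fun e => β e ≠ s ∧ β e ≠ t)) o
      (by obtain ⟨e, h1, h2⟩ := hb; exact ⟨e, Finset.mem_filter.2 ⟨h1, h2⟩⟩)
    obtain ⟨hm, ms, mt⟩ := Finset.mem_filter.1 hm
    have lt1 : o m < o e1 := lt_of_le_of_ne (m1 m hm) (fun c => mt (by
      rw [h.word.inj _ hm _ he1 c, t1]))
    obtain ⟨m', hm', mmin⟩ := Finset.exists_min_image (E.filter (fun e => o m < o e)) o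
      ⟨e1, Finset.mem_filter.2 ⟨he1, lt1⟩⟩
    obtain ⟨hm', lt2⟩ := Finset.mem_filter.1 hm'
    have adj : ∀ f ∈ E, β f ≠ β m → β f ≠ β m' →
        (o f < o m ∧ o f < o m') ∨ (o m < o f ∧ o m' < o f) := by
      intro f hf a1 a2
      rcases lt_trichotomy (o f) (o m) with c | c | c
      · exact Or.inl ⟨c, by linarith⟩
      · exact absurd (by rw [h.word.inj _ hf _ hm c]) a1
      · refine Or.inr ⟨c, lt_of_le_of_ne (mmin f (Finset.mem_filter.2 ⟨hf, c⟩)) (fun d => a2 ?_)⟩
        rw [h.word.inj _ hm' _ hf d]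
    have nc := merge_nc h.word.nb hm hm' rfl rfl adj
    have ih' : ∀ (S : Finset ι) (o' : ι → ℝ) (β' : ι → B) s' t' l',
        (S.image β').card < (E.image β).card → Good S o' β' ω s' t' l' → Rep S o' β' ω s' t' l' :=
      fun S o' β' s' t' l' c g => ih S o' β' s' t' l' (by omega) g
    by_cases c : β m' = t
    · rw [c] at nc
      exact step_rep h ms mt ⟨m, hm, rfl⟩ nc ih'
    · have c2 : β m' = s := by
        by_contra d
        have := mmax m' (Finset.mem_filter.2 ⟨hm', d, c⟩)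
        linarith
      rw [c2] at nc
      exact Rep.of_neg (step_rep h.neg mt ms ⟨m, hm, rfl⟩ nc.neg ih')

/-- Every word has a rank representation. -/
theorem word_ranks {E : Finset ι} {o : ι → ℝ} {β : ι → B} {ω : ι → W} (h : Word E o β ω) :
    ∃ (x : W → ℤ) (y : B → ℤ), (∀ e ∈ E, ∀ f ∈ E, x (ω e) = x (ω f) → ω e = ω f) ∧
      (∀ e ∈ E, ∀ f ∈ E, y (β e) = y (β f) → β e = β f) ∧
      ∀ e1 ∈ E, ∀ e2 ∈ E, ∀ f1 ∈ E, ∀ f2 ∈ E, β e1 = β e2 → ω f1 = ω f2 →
        x (ω e1) < x (ω f1) → x (ω f1) < x (ω e2) → y (β f1) < y (β e1) → y (β e1) < y (β f2) →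
        False := by
  obtain ⟨M, hM⟩ : ∃ M : ℝ, ∀ e ∈ E, |o e| < M := by
    obtain ⟨M, hM⟩ := (E.image (fun e => |o e|)).finite_toSet.bddAbove
    exact ⟨M + 1, fun e he => by
      have := hM (Finset.mem_coe.2 (Finset.mem_image_of_mem (fun e => |o e|) he))
      linarith⟩
  have hM0 : 0 < |M| + 1 := by positivity
  have hM1 : ∀ e ∈ E, -(|M| + 1) < o e ∧ o e < |M| + 1 := fun e he => by
    have := abs_lt.1 (hM e he)
    have := le_abs_self M
    constructor <;> linarith
  let E' : Finset (ι ⊕ Bool) := E.image Sum.inl ∪ {Sum.inr false, Sum.inr true}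
  let o' : ι ⊕ Bool → ℝ := Sum.elim o (fun b => if b then |M| + 1 else -(|M| + 1))
  let β' : ι ⊕ Bool → B ⊕ Bool := Sum.map β id
  let ω' : ι ⊕ Bool → Option W := Sum.elim (fun e => some (ω e)) (fun _ => none)
  have mem : ∀ e, e ∈ E' ↔ (∃ f ∈ E, e = Sum.inl f) ∨ e = Sum.inr false ∨ e = Sum.inr true := by
    intro e
    simp only [E', Finset.mem_union, Finset.mem_image, Finset.mem_insert, Finset.mem_singleton]
    constructor
    · rintro (⟨f, h1, h2⟩ | h)
      · exact Or.inl ⟨f, h1, h2.symm⟩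
      · exact Or.inr h
    · rintro (⟨f, h1, h2⟩ | h)
      · exact Or.inl ⟨f, h1, h2.symm⟩
      · exact Or.inr h
  have rng : ∀ e ∈ E', -(|M| + 1) ≤ o' e ∧ o' e ≤ |M| + 1 := by
    intro e he
    rcases (mem e).1 he with ⟨f, h1, rfl⟩ | rfl | rfl
    · exact ⟨(hM1 f h1).1.le, (hM1 f h1).2.le⟩
    · simp only [o', Sum.elim_inr]; constructor <;> simp <;> linarith
    · simp only [o', Sum.elim_inr]; constructor <;> simp <;> linarith
  have mid : ∀ e1 ∈ E', ∀ e2 ∈ E', ∀ e3 ∈ E', o' e1 < o' e2 → o' e2 < o' e3 →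
      ∃ f ∈ E, e2 = Sum.inl f := by
    intro e1 h1 e2 h2 e3 h3 a b
    rcases (mem e2).1 h2 with c | rfl | rfl
    · exact c
    · have := (rng e1 h1).1
      have z : o' (Sum.inr false) = -(|M| + 1) := by simp [o']
      linarith
    · have := (rng e3 h3).2
      have z : o' (Sum.inr true) = |M| + 1 := by simp [o']
      linarith
  have good : Good E' o' β' ω' (Sum.inr false) (Sum.inr true) none := by
    refine ⟨⟨?_, ?_, ?_, ?_⟩, by simp, ⟨Sum.inr false, (mem _).2 (by simp), rfl, rfl, fun f hf => ?_⟩,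
      ⟨Sum.inr true, (mem _).2 (by simp), rfl, rfl, fun f hf => ?_⟩⟩
    · intro e he f hf hh
      rcases (mem e).1 he with ⟨e, h1, rfl⟩ | rfl | rfl <;>
        rcases (mem f).1 hf with ⟨f, h2, rfl⟩ | rfl | rfl <;>
        simp only [o', Sum.elim_inr, Sum.elim_inl, if_true, Bool.false_eq_true, if_false] at hh
      · rw [h.inj e h1 f h2 hh]
      · linarith [hM1 e h1]
      · linarith [hM1 e h1]
      · linarith [hM1 f h2]
      · rfl
      · linarith
      · linarith [hM1 f h2]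
      · linarith
      · rfl
    · intro e he f hf a b
      rcases (mem e).1 he with ⟨e, h1, rfl⟩ | rfl | rfl <;>
        rcases (mem f).1 hf with ⟨f, h2, rfl⟩ | rfl | rfl <;>
        simp [β', ω'] at a b ⊢
      exact h.simple e h1 f h2 a b
    · intro e1 h1 e2 h2 e3 h3 e4 h4 a b c d e
      obtain ⟨f2, g2, rfl⟩ := mid e1 h1 e2 h2 e3 h3 a b
      obtain ⟨f3, g3, rfl⟩ := mid _ h2 e3 h3 e4 h4 b c
      rcases (mem e1).1 h1 with ⟨f1, g1, rfl⟩ | rfl | rfl <;>
        rcases (mem e4).1 h4 with ⟨f4, g4, rfl⟩ | rfl | rfl <;>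
        simp [β'] at d e ⊢
      exact h.nb f1 g1 f2 g2 f3 g3 f4 g4 a b c d e
    · intro e1 h1 e2 h2 e3 h3 e4 h4 a b c d e
      obtain ⟨f2, g2, rfl⟩ := mid e1 h1 e2 h2 e3 h3 a b
      obtain ⟨f3, g3, rfl⟩ := mid _ h2 e3 h3 e4 h4 b c
      rcases (mem e1).1 h1 with ⟨f1, g1, rfl⟩ | rfl | rfl <;>
        rcases (mem e4).1 h4 with ⟨f4, g4, rfl⟩ | rfl | rfl <;>
        simp [ω'] at d e ⊢
      exact h.nw f1 g1 f2 g2 f3 g3 f4 g4 a b c d e
    · simpa [o'] using (rng f hf).1
    · simpa [o'] using (rng f hf).2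
  obtain ⟨x, y, r⟩ := rep_of_good ω' _ E' o' β' _ _ _ (Nat.lt_succ_self _) good
  have mi : ∀ e ∈ E, Sum.inl e ∈ E' := fun e he => (mem _).2 (Or.inl ⟨e, he, rfl⟩)
  refine ⟨fun b => x (some b), fun c => y (Sum.inl c), ?_, ?_, ?_⟩
  · intro e he f hf hh
    simpa [ω'] using r.xinj _ (mi e he) _ (mi f hf) hh
  · intro e he f hf hh
    simpa [β'] using r.yinj _ (mi e he) _ (mi f hf) hh
  · intro e1 h1 e2 h2 f1 g1 f2 g2 a b c d e f
    exact r.nocross _ (mi _ h1) _ (mi _ h2) _ (mi _ g1) _ (mi _ g2) (by simp [β', a])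
      (by simp [ω', b]) c d e f

end Pool.Agent.H858Z.Up
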