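import Pool.Agent.H858Z.UpDefs
import Pool.Agent.H858Z.UpRepB

/-!
From an upward planar drawing to a word with two non-crossing partitions (sweep).
-/

namespace Pool.Agent.H858Z.Up

open Classical Set

structure Sys {V : Type} (E : V → V → Prop) where
  X : V → ℝ
  Y : V → ℝ
  F : V → V → ℝ → ℝ
  inj : ∀ u v, X u = X v → Y u = Y v → u = v
  cont : ∀ u v, E u v → ContinuousOn (F u v) (Icc (Y u) (Y v))
  lt : ∀ u v, E u v → Y u < Y v
  bot : ∀ u v, E u v → F u v (Y u) = X u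
  top : ∀ u v, E u v → F u v (Y v) = X v
  meet : ∀ u v u' v', E u v → E u' v' → (u, v) ≠ (u', v') → ∀ t, Y u ≤ t → t ≤ Y v → Y u' ≤ t →
    t ≤ Y v' → F u v t = F u' v' t → ∃ w, (w = u ∨ w = v) ∧ (w = u' ∨ w = v') ∧ Y w = t ∧
      X w = F u v t

theorem curve_graph {p q : ℝ × ℝ} {S : Set (ℝ × ℝ)} (h : IsUpCurve p q S) :
    p.2 < q.2 ∧ ∃ f : ℝ → ℝ, ContinuousOn f (Icc p.2 q.2) ∧ f p.2 = p.1 ∧ f q.2 = q.1 ∧
      ∀ t ∈ Icc p.2 q.2, (f t, t) ∈ S := by
  obtain ⟨γ, hc, h0, h1, hm, rfl⟩ := h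
  have m0 : (0 : ℝ) ∈ Icc (0 : ℝ) 1 := ⟨le_rfl, zero_le_one⟩
  have m1 : (1 : ℝ) ∈ Icc (0 : ℝ) 1 := ⟨zero_le_one, le_rfl⟩
  have hg : ContinuousOn (fun t => (γ t).2) (Icc 0 1) := continuous_snd.comp_continuousOn hc
  have surj : ∀ t ∈ Icc p.2 q.2, ∃ s ∈ Icc (0 : ℝ) 1, (γ s).2 = t := by
    intro t ht
    have := intermediate_value_Icc zero_le_one hg
    simp only [h0, h1] at this
    exact this ht
  choose! k hk1 hk2 using surj
  have hlt : p.2 < q.2 := by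
    have := hm m0 m1 zero_lt_one
    simpa only [h0, h1] using this
  have kc : ContinuousOn k (Icc p.2 q.2) := by
    rw [continuousOn_iff_isClosed]
    intro T hT
    refine ⟨(fun t => (γ t).2) '' (T ∩ Icc 0 1), ?_, ?_⟩
    · exact ((isCompact_Icc.inter_left hT).image_of_continuousOn (hg.mono inter_subset_right)).isClosed
    · ext t
      constructor
      · rintro ⟨a, b⟩
        exact ⟨⟨k t, ⟨a, hk1 t b⟩, hk2 t b⟩, b⟩
      · rintro ⟨⟨s, ⟨a, a'⟩, c⟩, b⟩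
        have : k t = s := hm.injOn (hk1 t b) a' (by simp only [hk2 t b]; exact c.symm)
        exact ⟨by simpa [this] using a, b⟩
  refine ⟨hlt, fun t => (γ (k t)).1, ?_, ?_, ?_, ?_⟩
  · exact continuous_fst.comp_continuousOn (hc.comp kc (fun t ht => hk1 t ht))
  · have : k p.2 = 0 := hm.injOn (hk1 _ ⟨le_rfl, hlt.le⟩) m0 (by
      simp only [hk2 _ ⟨le_rfl, hlt.le⟩, h0])
    simp only [this, h0]
  · have : k q.2 = 1 := hm.injOn (hk1 _ ⟨hlt.le, le_rfl⟩) m1 (by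
      simp only [hk2 _ ⟨hlt.le, le_rfl⟩, h1])
    simp only [this, h1]
  · intro t ht
    exact ⟨k t, hk1 t ht, Prod.ext rfl (hk2 t ht)⟩

/-- A layout whose edges contain graphs of continuous functions gives a system. -/
noncomputable def Sys.ofLayout {V : Type} {E : V → V → Prop} {pos : V → ℝ × ℝ}
    {S : V → V → Set (ℝ × ℝ)} (h : IsPlanarLayout E pos S) (F : V → V → ℝ → ℝ)
    (hF : ∀ u v, E u v → (pos u).2 < (pos v).2 ∧ ContinuousOn (F u v) (Icc (pos u).2 (pos v).2) ∧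
      F u v (pos u).2 = (pos u).1 ∧ F u v (pos v).2 = (pos v).1 ∧
      ∀ t ∈ Icc (pos u).2 (pos v).2, (F u v t, t) ∈ S u v) : Sys E where
  X v := (pos v).1
  Y v := (pos v).2
  F := F
  inj u v a b := h.1 (Prod.ext a b)
  cont u v e := (hF u v e).2.1
  lt u v e := (hF u v e).1
  bot u v e := (hF u v e).2.2.1
  top u v e := (hF u v e).2.2.2.1
  meet u v u' v' e e' hne t a b c d hh := by
    obtain ⟨w, w1, w2, w3⟩ := h.2.2 u v u' v' e e' hne (F u v t, t) ((hF u v e).2.2.2.2 t ⟨a, b⟩)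
      (hh ▸ (hF u' v' e').2.2.2.2 t ⟨c, d⟩)
    exact ⟨w, w1, w2, by rw [← w3], by rw [← w3]⟩

theorem sys_of_upward {V : Type} {E : V → V → Prop} (h : UpwardPlanar E) : Nonempty (Sys E) := by
  obtain ⟨pos, S, h1, h2⟩ := h
  have : ∀ u v, ∃ f : ℝ → ℝ, E u v → (pos u).2 < (pos v).2 ∧
      ContinuousOn f (Icc (pos u).2 (pos v).2) ∧ f (pos u).2 = (pos u).1 ∧ f (pos v).2 = (pos v).1 ∧
      ∀ t ∈ Icc (pos u).2 (pos v).2, (f t, t) ∈ S u v := by
    intro u v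
    by_cases e : E u v
    · obtain ⟨a, f, hf⟩ := curve_graph (h2 u v e)
      exact ⟨f, fun _ => ⟨a, hf⟩⟩
    · exact ⟨fun _ => 0, fun c => absurd c e⟩
  choose F hF using this
  exact ⟨Sys.ofLayout h1 F hF⟩

variable {V : Type} {E : V → V → Prop}

def Sys.left (D : Sys E) (e g : V × V) : Prop :=
  ∃ t, D.Y e.1 ≤ t ∧ t ≤ D.Y e.2 ∧ D.Y g.1 ≤ t ∧ t ≤ D.Y g.2 ∧ D.F e.1 e.2 t < D.F g.1 g.2 t

theorem Sys.asym_aux (D : Sys E) {e g : V × V} (he : E e.1 e.2) (hg : E g.1 g.2) {t1 t2 : ℝ}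
    (h12 : t1 ≤ t2) (a1 : D.Y e.1 ≤ t1) (a2 : t2 ≤ D.Y e.2) (b1 : D.Y g.1 ≤ t1) (b2 : t2 ≤ D.Y g.2)
    (c1 : D.F e.1 e.2 t1 < D.F g.1 g.2 t1) (c2 : D.F g.1 g.2 t2 < D.F e.1 e.2 t2) : False := by
  have hne : (e.1, e.2) ≠ (g.1, g.2) := by
    intro c
    have : e = g := c
    rw [this] at c1; exact lt_irrefl _ c1
  have hc : ContinuousOn (fun t => D.F e.1 e.2 t - D.F g.1 g.2 t) (Icc t1 t2) :=
    ((D.cont _ _ he).mono (Icc_subset_Icc a1 a2)).sub ((D.cont _ _ hg).mono (Icc_subset_Icc b1 b2))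
  obtain ⟨t, ⟨ht1, ht2⟩, ht⟩ := intermediate_value_Ioo h12 hc
    (show (0 : ℝ) ∈ Ioo _ _ from ⟨by linarith, by linarith⟩)
  obtain ⟨w, w1, -, w3, -⟩ := D.meet _ _ _ _ he hg hne t (by linarith) (by linarith) (by linarith)
    (by linarith) (by simp only at ht; linarith)
  rcases w1 with w1 | w1 <;> rw [w1] at w3 <;> linarith

theorem Sys.asym (D : Sys E) {e g : V × V} (he : E e.1 e.2) (hg : E g.1 g.2)
    (h1 : D.left e g) (h2 : D.left g e) : False := by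
  obtain ⟨t1, a1, a2, a3, a4, a5⟩ := h1
  obtain ⟨t2, b1, b2, b3, b4, b5⟩ := h2
  rcases le_total t1 t2 with c | c
  · exact D.asym_aux he hg c a1 b4 a3 b2 a5 b5
  · exact D.asym_aux hg he c b1 a4 b3 a2 b5 a5

structure SwInv (D : Sys E) (P : Finset V) (o : V × V → ℝ) : Prop where
  inj : ∀ e f : V × V, E e.1 e.2 → E f.1 f.2 → e.1 ∈ P → f.1 ∈ P → o e = o f → e = f
  nb : ∀ e1 e2 e3 e4 : V × V, E e1.1 e1.2 → E e2.1 e2.2 → E e3.1 e3.2 → E e4.1 e4.2 →
    e1.1 ∈ P → e2.1 ∈ P → o e1 < o e2 → o e2 < o e3 → o e3 < o e4 → e1.1 = e3.1 → e2.1 = e4.1 →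
    e1.1 = e2.1
  nw : ∀ e1 e2 e3 e4 : V × V, E e1.1 e1.2 → E e2.1 e2.2 → E e3.1 e3.2 → E e4.1 e4.2 →
    e1.2 ∈ P → e2.2 ∈ P → o e1 < o e2 → o e2 < o e3 → o e3 < o e4 → e1.2 = e3.2 → e2.2 = e4.2 →
    e1.2 = e2.2
  mid : ∀ g1 e g2 : V × V, E g1.1 g1.2 → E e.1 e.2 → E g2.1 g2.2 → g1.2 ∈ P → g1.2 = g2.2 →
    e.1 ∈ P → e.2 ∉ P → o g1 < o e → o e < o g2 → False
  ord : ∀ e g : V × V, E e.1 e.2 → E g.1 g.2 → e.1 ∈ P → e.2 ∉ P → g.1 ∈ P → g.2 ∉ P →
    D.left e g → o e < o g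

theorem sw_white (D : Sys E) {P : Finset V} {o : V × V → ℝ} (h : SwInv D P o) {v : V} (hv : v ∉ P)
    (lo : ∀ u ∈ P, D.Y u ≤ D.Y v) (hi : ∀ w, w ∉ P → D.Y v ≤ D.Y w) (nout : ∀ w, ¬ E v w) :
    SwInv D (insert v P) o := by
  have st : ∀ e : V × V, E e.1 e.2 → e.1 ∈ insert v P → e.1 ∈ P := by
    intro e he hm
    rcases Finset.mem_insert.1 hm with c | c
    · exact absurd (c ▸ he) (nout _)
    · exact c
  have src : ∀ e : V × V, E e.1 e.2 → e.2 = v → e.1 ∈ P := by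
    intro e he c
    by_contra d
    have := hi _ d
    have := D.lt _ _ he
    rw [c] at this; linarith
  refine ⟨fun e f a b c d => h.inj e f a b (st e a c) (st f b d),
    fun e1 e2 e3 e4 a b c d e f => h.nb e1 e2 e3 e4 a b c d (st _ a e) (st _ b f), ?_, ?_, ?_⟩
  · intro e1 e2 e3 e4 a1 a2 a3 a4 b1 b2 c1 c2 c3 d1 d2
    rcases Finset.mem_insert.1 b1 with p | p <;> rcases Finset.mem_insert.1 b2 with q | q
    · rw [p, q]
    · exact (h.mid e2 e3 e4 a2 a3 a4 q d2 (src _ a3 (d1 ▸ p)) (by rw [← d1, p]; exact hv) c2 c3).elim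
    · exact (h.mid e1 e2 e3 a1 a2 a3 p d1 (src _ a2 q) (by rw [q]; exact hv) c1 c2).elim
    · exact h.nw e1 e2 e3 e4 a1 a2 a3 a4 p q c1 c2 c3 d1 d2
  · intro g1 e g2 a1 a2 a3 b1 b2 b3 b4 c1 c2
    have eP : e.2 ∉ P := fun c => b4 (Finset.mem_insert_of_mem c)
    have ev : e.2 ≠ v := fun c => b4 (c ▸ Finset.mem_insert_self _ _)
    have e1 := st e a2 b3
    rcases Finset.mem_insert.1 b1 with p | p
    · have g1P := src _ a1 p
      have g2P := src _ a3 (b2 ▸ p)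
      have n1 : ¬ D.left e g1 := fun c => by
        have := h.ord e g1 a2 a1 e1 eP g1P (by rw [p]; exact hv) c
        linarith
      have n2 : ¬ D.left g2 e := fun c => by
        have := h.ord g2 e a3 a2 g2P (by rw [← b2, p]; exact hv) e1 eP c
        linarith
      have t1 := D.top _ _ a1
      have t2 := D.top _ _ a3
      rw [p] at t1
      rw [← b2, p] at t2
      have r1 : D.X v ≤ D.F e.1 e.2 (D.Y v) := by
        by_contra c
        push Not at c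
        exact n1 ⟨D.Y v, lo _ e1, hi _ eP, lo _ g1P, by rw [p], by rw [p, t1]; exact c⟩
      have r2 : D.F e.1 e.2 (D.Y v) ≤ D.X v := by
        by_contra c
        push Not at c
        exact n2 ⟨D.Y v, lo _ g2P, by rw [← b2, p], lo _ e1, hi _ eP, by rw [← b2, p, t2]; exact c⟩
      obtain ⟨w, w1, w2, w3, w4⟩ := D.meet e.1 e.2 g1.1 g1.2 a2 a1
        (fun c => ev (by rw [← p]; exact (Prod.ext_iff.1 c).2)) (D.Y v) (lo _ e1) (hi _ eP)
        (lo _ g1P) (by rw [p]) (by rw [p, t1]; linarith)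
      have : w = v := D.inj _ _ (by linarith) w3
      rcases w1 with w1 | w1
      · exact hv (by rw [← this, w1]; exact e1)
      · exact ev (by rw [← w1, this])
    · exact h.mid g1 e g2 a1 a2 a3 p b2 e1 eP c1 c2
  · intro e g a1 a2 b1 b2 b3 b4 c
    exact h.ord e g a1 a2 (st _ a1 b1) (fun c => b2 (Finset.mem_insert_of_mem c)) (st _ a2 b3)
      (fun c => b4 (Finset.mem_insert_of_mem c)) c

theorem sw_black [Fintype V] (D : Sys E) {P : Finset V} {o : V × V → ℝ} (h : SwInv D P o) {v : V}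
    (hv : v ∉ P) (lo : ∀ u ∈ P, D.Y u ≤ D.Y v) (hi : ∀ w, w ∉ P → D.Y v ≤ D.Y w)
    (nin : ∀ w, ¬ E w v) : ∃ o', SwInv D (insert v P) o' := by
  have fi : ∀ e : V × V, E e.1 e.2 → e.2 ∈ insert v P → e.2 ∈ P := by
    intro e he hm
    rcases Finset.mem_insert.1 hm with c | c
    · exact absurd (c ▸ he) (nin _)
    · exact c
  have fis : ∀ e : V × V, E e.1 e.2 → e.2 ∈ P → e.1 ∈ P := by
    intro e he c
    by_contra d
    have := hi _ d
    have := D.lt _ _ he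
    have := lo _ c
    linarith
  obtain ⟨t', ht1, ht2⟩ : ∃ t', D.Y v < t' ∧ ∀ w, E v w → t' ≤ D.Y w := by
    by_cases c : ∃ w, E v w
    · obtain ⟨w, hw, hmin⟩ := Finset.exists_min_image (Finset.univ.filter (fun w => E v w)) D.Y
        (by obtain ⟨w, hw⟩ := c; exact ⟨w, by simp [hw]⟩)
      exact ⟨D.Y w, D.lt _ _ (by simpa using hw), fun w' hw' => hmin w' (by simp [hw'])⟩
    · exact ⟨D.Y v + 1, by linarith, fun w hw => absurd ⟨w, hw⟩ c⟩
  obtain ⟨m, m1, m2, m3⟩ : ∃ m : ℝ,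
      (∀ g : V × V, E g.1 g.2 → g.1 ∈ P → g.2 ∉ P → D.F g.1 g.2 (D.Y v) < D.X v → o g ≤ m) ∧
      (∀ g : V × V, E g.1 g.2 → g.1 ∈ P → g.2 ∉ P → D.X v < D.F g.1 g.2 (D.Y v) → m < o g) ∧
      (∀ g1 g2 : V × V, E g1.1 g1.2 → E g2.1 g2.2 → g1.2 ∈ P → g1.2 = g2.2 → o g1 ≤ m → m < o g2 →
        False) := by
    by_cases c : ∃ g : V × V, E g.1 g.2 ∧ g.1 ∈ P ∧ g.2 ∉ P ∧ D.F g.1 g.2 (D.Y v) < D.X v
    · obtain ⟨k, hk, hmax⟩ := Finset.exists_max_image (Finset.univ.filter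
        (fun g : V × V => E g.1 g.2 ∧ g.1 ∈ P ∧ g.2 ∉ P ∧ D.F g.1 g.2 (D.Y v) < D.X v)) o
        (by obtain ⟨w, hw⟩ := c; exact ⟨w, by simp [hw]⟩)
      obtain ⟨k1, k2, k3, k4⟩ := (Finset.mem_filter.1 hk).2
      refine ⟨o k, fun g a b c d => hmax g (by simp [a, b, c, d]), fun g a b c d => ?_, ?_⟩
      · exact h.ord k g k1 a k2 k3 b c ⟨D.Y v, lo _ k2, hi _ k3, lo _ b, hi _ c, by linarith⟩
      · intro g1 g2 a b c d e f
        rcases eq_or_lt_of_le e with e | e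
        · exact k3 (h.inj g1 k a k1 (fis _ a c) k2 e ▸ c)
        · exact h.mid g1 k g2 a k1 b c d k2 k3 e f
    · obtain ⟨M, hM⟩ := (Set.finite_range o).bddBelow
      have hM' : ∀ g, M ≤ o g := fun g => hM ⟨g, rfl⟩
      exact ⟨M - 1, fun g a b c' d => absurd ⟨g, a, b, c', d⟩ c, fun g _ _ _ _ => by linarith [hM' g],
        fun g1 g2 _ _ _ _ e _ => by linarith [hM' g1]⟩
  let o' : V × V → ℝ := fun e => if e.1 = v then m + Real.sigmoid (D.F e.1 e.2 t')
    else if o e ≤ m then o e else o e + 1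
  have oN : ∀ e : V × V, e.1 = v → m < o' e ∧ o' e < m + 1 ∧
      o' e = m + Real.sigmoid (D.F e.1 e.2 t') := by
    intro e he
    have := Real.sigmoid_pos (D.F e.1 e.2 t')
    have := Real.sigmoid_lt_one (D.F e.1 e.2 t')
    simp only [o', if_pos he]
    exact ⟨by linarith, by linarith, trivial⟩
  have oO : ∀ e : V × V, e.1 ≠ v → (o e ≤ m ∧ o' e = o e) ∨ (m < o e ∧ o' e = o e + 1) := by
    intro e he
    simp only [o', if_neg he]
    by_cases c : o e ≤ m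
    · exact Or.inl ⟨c, if_pos c⟩
    · exact Or.inr ⟨not_le.1 c, if_neg c⟩
  have oLt : ∀ e f : V × V, e.1 ≠ v → f.1 ≠ v → (o' e < o' f ↔ o e < o f) := by
    intro e f a b
    rcases oO e a with c | c <;> rcases oO f b with d | d <;> rw [c.2, d.2] <;>
      constructor <;> intro z <;> linarith [c.1, d.1]
  have nP : ∀ e : V × V, e.1 ∈ P → e.1 ≠ v := fun e a c => hv (c ▸ a)
  have btw : ∀ e1 e2 e3 : V × V, e1.1 = v → e3.1 = v → o' e1 < o' e2 → o' e2 < o' e3 → e2.1 = v := by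
    intro e1 e2 e3 a b c d
    by_contra z
    have := oN e1 a
    have := oN e3 b
    rcases oO e2 z with w | w <;> linarith [w.1, w.2]
  have difN : ∀ e f : V × V, E e.1 e.2 → E f.1 f.2 → e.1 = v → f.1 = v →
      D.F e.1 e.2 t' = D.F f.1 f.2 t' → e = f := by
    intro e f a b c d z
    by_contra hne
    obtain ⟨w, w1, w2, w3, -⟩ := D.meet e.1 e.2 f.1 f.2 a b hne t' (by rw [c]; exact ht1.le)
      (ht2 _ (c ▸ a)) (by rw [d]; exact ht1.le) (ht2 _ (d ▸ b)) z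
    rcases w1 with w1 | w1
    · rw [w1, c] at w3; linarith
    · rcases w2 with w2 | w2
      · rw [w2, d] at w3; linarith
      · exact hne (Prod.ext (by rw [c, d]) (by rw [← w1, w2]))
  have side : ∀ e g : V × V, E e.1 e.2 → E g.1 g.2 → e.1 = v → g.1 ∈ P → g.2 ∉ P →
      (D.left g e ∧ o' g < o' e) ∨ (D.left e g ∧ o' e < o' g) := by
    intro e g a b c d z
    have bt := D.bot _ _ a
    have lt := D.lt _ _ a
    rw [c] at bt lt
    have := oN e c
    rcases lt_trichotomy (D.F g.1 g.2 (D.Y v)) (D.X v) with w | w | w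
    · left
      refine ⟨⟨D.Y v, lo _ d, hi _ z, by rw [c], lt.le, by rw [c, bt]; exact w⟩, ?_⟩
      have := m1 g b d z w
      rcases oO g (nP g d) with y | y <;> linarith [y.1, y.2]
    · exfalso
      obtain ⟨u, w1, w2, w3, w4⟩ := D.meet g.1 g.2 e.1 e.2 b a
        (fun y => nP g d (by rw [← c]; exact (Prod.ext_iff.1 y).1)) (D.Y v) (lo _ d) (hi _ z)
        (by rw [c]) lt.le (by rw [c, bt]; exact w)
      have : u = v := D.inj _ _ (by rw [w4, w]) w3
      rcases w1 with w1 | w1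
      · exact nP g d (by rw [← w1, this])
      · exact nin g.1 (by rw [← this, w1]; exact b)
    · right
      refine ⟨⟨D.Y v, by rw [c], lt.le, lo _ d, hi _ z, by rw [c, bt]; exact w⟩, ?_⟩
      have := m2 g b d z w
      rcases oO g (nP g d) with y | y <;> linarith [y.1, y.2]
  refine ⟨o', ?_, ?_, ?_, ?_, ?_⟩
  · intro e f a b c d z
    rcases Finset.mem_insert.1 c with p | p <;> rcases Finset.mem_insert.1 d with q | q
    · apply difN e f a b p q
      have := (oN e p).2.2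
      have := (oN f q).2.2
      exact Real.sigmoid_strictMono.injective (by linarith)
    · have := oN e p
      rcases oO f (nP f q) with y | y <;> linarith [y.1, y.2]
    · have := oN f q
      rcases oO e (nP e p) with y | y <;> linarith [y.1, y.2]
    · apply h.inj e f a b p q
      apply le_antisymm
      · rw [← not_lt, ← oLt f e (nP f q) (nP e p)]; linarith
      · rw [← not_lt, ← oLt e f (nP e p) (nP f q)]; linarith
  · intro e1 e2 e3 e4 a1 a2 a3 a4 b1 b2 c1 c2 c3 d1 d2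
    rcases Finset.mem_insert.1 b1 with p | p
    · rw [p, btw e1 e2 e3 p (d1 ▸ p) c1 c2]
    · rcases Finset.mem_insert.1 b2 with q | q
      · exact absurd (d1.trans (btw e2 e3 e4 q (d2 ▸ q) c2 c3)) (nP _ p)
      · have n1 := nP _ p
        have n2 := nP _ q
        exact h.nb e1 e2 e3 e4 a1 a2 a3 a4 p q ((oLt _ _ n1 n2).1 c1) ((oLt _ _ n2 (d1 ▸ n1)).1 c2)
          ((oLt _ _ (d1 ▸ n1) (d2 ▸ n2)).1 c3) d1 d2
  · intro e1 e2 e3 e4 a1 a2 a3 a4 b1 b2 c1 c2 c3 d1 d2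
    have p := fi _ a1 b1
    have q := fi _ a2 b2
    have n1 := nP _ (fis _ a1 p)
    have n2 := nP _ (fis _ a2 q)
    have n3 := nP _ (fis _ a3 (d1 ▸ p))
    have n4 := nP _ (fis _ a4 (d2 ▸ q))
    exact h.nw e1 e2 e3 e4 a1 a2 a3 a4 p q ((oLt _ _ n1 n2).1 c1) ((oLt _ _ n2 n3).1 c2)
      ((oLt _ _ n3 n4).1 c3) d1 d2
  · intro g1 e g2 a1 a2 a3 b1 b2 b3 b4 c1 c2
    have p := fi _ a1 b1
    have n1 := nP _ (fis _ a1 p)
    have n2 := nP _ (fis _ a3 (b2 ▸ p))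
    have eP : e.2 ∉ P := fun c => b4 (Finset.mem_insert_of_mem c)
    rcases Finset.mem_insert.1 b3 with q | q
    · have := oN e q
      refine m3 g1 g2 a1 a3 p b2 ?_ ?_
      · rcases oO g1 n1 with y | y <;> linarith [y.1, y.2]
      · rcases oO g2 n2 with y | y <;> linarith [y.1, y.2]
    · exact h.mid g1 e g2 a1 a2 a3 p b2 q eP ((oLt _ _ n1 (nP _ q)).1 c1) ((oLt _ _ (nP _ q) n2).1 c2)
  · intro e g a1 a2 b1 b2 b3 b4 c
    have eP : e.2 ∉ P := fun c => b2 (Finset.mem_insert_of_mem c)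
    have gP : g.2 ∉ P := fun c => b4 (Finset.mem_insert_of_mem c)
    rcases Finset.mem_insert.1 b1 with p | p <;> rcases Finset.mem_insert.1 b3 with q | q
    · rw [(oN e p).2.2, (oN g q).2.2]
      have : D.F e.1 e.2 t' < D.F g.1 g.2 t' := by
        rcases lt_trichotomy (D.F e.1 e.2 t') (D.F g.1 g.2 t') with w | w | w
        · exact w
        · have := difN e g a1 a2 p q w
          rw [this] at c
          exact (D.asym a2 a2 c c).elim
        · exact (D.asym a1 a2 c ⟨t', by rw [q]; exact ht1.le, ht2 _ (q ▸ a2), by rw [p]; exact ht1.le,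
            ht2 _ (p ▸ a1), w⟩).elim
      linarith [Real.sigmoid_strictMono this]
    · rcases side e g a1 a2 p q gP with w | w
      · exact (D.asym a1 a2 c w.1).elim
      · exact w.2
    · rcases side g e a2 a1 q p eP with w | w
      · exact w.2
      · exact (D.asym a1 a2 c w.1).elim
    · exact (oLt _ _ (nP _ p) (nP _ q)).2 (h.ord e g a1 a2 p eP q gP c)

theorem sweep [Fintype V] (D : Sys E) (hb : IsBipDAG E) (P : Finset V) :
    (∀ u ∈ P, ∀ w, w ∉ P → D.Y u ≤ D.Y w) → ∃ o, SwInv D P o := by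
  induction P using Finset.induction_on_max_value D.Y with
  | empty =>
    intro _
    exact ⟨fun _ => 0, by simp, by simp, by simp, by simp, by simp⟩
  | insert v P hv hmax ih =>
    intro hP
    have hi : ∀ w, w ∉ P → D.Y v ≤ D.Y w := by
      intro w hw
      by_cases c : w = v
      · rw [c]
      · exact hP v (Finset.mem_insert_self _ _) w (by simp [c, hw])
    obtain ⟨o, ho⟩ := ih (fun u hu w hw => le_trans (hmax u hu) (hi w hw))
    obtain ⟨V₁, hV⟩ := hb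
    by_cases c : v ∈ V₁
    · exact sw_black D ho hv hmax hi (fun w hw => (hV w v hw).2 c)
    · exact ⟨o, sw_white D ho hv hmax hi (fun w hw => c (hV v w hw).1)⟩

/-- Rank (segment contact) representation of an upward planar bipartite DAG. -/
theorem ranks_of_upward [Fintype V] (hb : IsBipDAG E) (h : UpwardPlanar E) :
    ∃ (x y : V → ℤ), (∀ u v u' v', E u v → E u' v' → x v = x v' → v = v') ∧
      (∀ u v u' v', E u v → E u' v' → y u = y u' → u = u') ∧
      ∀ a b1 b2 b a1 a2, E a b1 → E a b2 → E a1 b → E a2 b →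
        x b1 < x b → x b < x b2 → y a1 < y a → y a < y a2 → False := by
  obtain ⟨D⟩ := sys_of_upward h
  obtain ⟨o, ho⟩ := sweep D hb Finset.univ (by simp)
  have m : ∀ e : V × V, e ∈ Finset.univ.filter (fun e : V × V => E e.1 e.2) ↔ E e.1 e.2 := by simp
  have w : Word (Finset.univ.filter (fun e : V × V => E e.1 e.2)) o Prod.fst Prod.snd := by
    refine ⟨fun e he f hf => ho.inj e f ((m _).1 he) ((m _).1 hf) (by simp) (by simp),
      fun e _ f _ a b => Prod.ext a b, ?_, ?_⟩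
    · intro e1 h1 e2 h2 e3 h3 e4 h4
      exact ho.nb e1 e2 e3 e4 ((m _).1 h1) ((m _).1 h2) ((m _).1 h3) ((m _).1 h4) (by simp) (by simp)
    · intro e1 h1 e2 h2 e3 h3 e4 h4
      exact ho.nw e1 e2 e3 e4 ((m _).1 h1) ((m _).1 h2) ((m _).1 h3) ((m _).1 h4) (by simp) (by simp)
  obtain ⟨x, y, r1, r2, r3⟩ := word_ranks w
  refine ⟨x, y, fun u v u' v' a b => r1 (u, v) ((m _).2 a) (u', v') ((m _).2 b),
    fun u v u' v' a b => r2 (u, v) ((m _).2 a) (u', v') ((m _).2 b), ?_⟩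
  intro a b1 b2 b a1 a2 e1 e2 e3 e4
  exact r3 (a, b1) ((m _).2 e1) (a, b2) ((m _).2 e2) (a1, b) ((m _).2 e3) (a2, b) ((m _).2 e4) rfl rfl

end Pool.Agent.H858Z.Up
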