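import Pool.Agent.H858Z.UpDraw
import Pool.Agent.H858Z.UpWord

/-!
Upper bound: straight-line upward drawings of bipartite DAGs on an `O(n) × O(n)` grid.
-/

namespace Pool.Agent.H858Z.Up

open Classical Set

variable {V : Type} {E : V → V → Prop}

theorem exists_inj_rank [Fintype V] (x : V → ℤ) : ∃ x' : V → ℤ, Function.Injective x' ∧
    ∀ b b', x' b < x' b' → x b ≤ x b' := by
  obtain ⟨x', h⟩ := exists_rank (fun v => toLex (x v, Fintype.equivFin V v)) Finset.univ
  refine ⟨x', fun b b' e => ?_, fun b b' e => ?_⟩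
  · have h1 := h b (by simp) b' (by simp)
    have h2 := h b' (by simp) b (by simp)
    have : toLex (x b, Fintype.equivFin V b) = toLex (x b', Fintype.equivFin V b') := by
      apply le_antisymm
      · rw [← not_lt, ← h2]; omega
      · rw [← not_lt, ← h1]; omega
    simp only [toLex_inj, Prod.mk.injEq] at this
    exact (Fintype.equivFin V).injective this.2
  · rw [h b (by simp) b' (by simp), Prod.Lex.toLex_lt_toLex] at e
    rcases e with e | e
    · exact le_of_lt e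
    · exact le_of_eq e.1

theorem unshear {p q : ℤ × ℤ} {z : ℝ × ℝ}
    (h : z ∈ segment ℝ (toR (p.1, p.1 + p.2)) (toR (q.1, q.1 + q.2))) :
    (z.1, z.2 - z.1) ∈ segment ℝ (toR p) (toR q) := by
  obtain ⟨s, s0, s1, a1, a2⟩ := seg_param h
  simp only [toR] at a1 a2
  push_cast at a1 a2
  refine seg_of_param s0 s1 ?_ ?_
  · simp only [toR]; exact a1
  · simp only [toR]; rw [a1, a2]; ring

theorem draw_of_ranks [Fintype V] (hb : IsBipDAG E) (x y : V → ℤ)
    (hx : ∀ u v u' v', E u v → E u' v' → x v = x v' → v = v')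
    (hy : ∀ u v u' v', E u v → E u' v' → y u = y u' → u = u')
    (nc : ∀ a b1 b2 b a1 a2, E a b1 → E a b2 → E a1 b → E a2 b →
        x b1 < x b → x b < x b2 → y a1 < y a → y a < y a2 → False) :
    ∃ D : GridDrawing E, D.Straight ∧ ∀ v, 0 ≤ (D.pos v).1 ∧ (D.pos v).1 ≤ 5 * (Fintype.card V + 2) ∧
      -(5 * (Fintype.card V + 2)) ≤ (D.pos v).2 ∧ (D.pos v).2 ≤ 5 * (Fintype.card V + 2) := by
  obtain ⟨V₁, hV⟩ := hb
  obtain ⟨x', xi, xo⟩ := exists_inj_rank x
  obtain ⟨y', yi, yo⟩ := exists_inj_rank y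
  have xs : ∀ u v u' v', E u v → E u' v' → x' v < x' v' → x v < x v' := by
    intro u v u' v' e e' h
    refine lt_of_le_of_ne (xo _ _ h) (fun c => ?_)
    rw [hx u v u' v' e e' c] at h; exact lt_irrefl _ h
  have ys : ∀ u v u' v', E u v → E u' v' → y' u < y' u' → y u < y u' := by
    intro u v u' v' e e' h
    refine lt_of_le_of_ne (yo _ _ h) (fun c => ?_)
    rw [hy u v u' v' e e' c] at h; exact lt_irrefl _ h
  obtain ⟨M, hM⟩ : ∃ M : ℤ, 0 < M ∧ ∀ v, -M < x' v ∧ x' v < M := by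
    obtain ⟨M, hM⟩ := (Set.finite_range (fun v => |x' v|)).bddAbove
    refine ⟨|M| + 1, by positivity, fun v => ?_⟩
    have h1 : |x' v| ≤ M := hM ⟨v, rfl⟩
    have h2 := le_abs_self M
    have h3 := abs_le.1 h1
    omega
  let N : ℤ → Finset ℤ := fun a => (Finset.univ.filter (fun v => ∃ u, y' u = a ∧ E u v)).image x'
  have mN : ∀ a b, b ∈ N a ↔ ∃ u v, E u v ∧ y' u = a ∧ x' v = b := by
    intro a b
    simp only [N, Finset.mem_image, Finset.mem_filter, Finset.mem_univ, true_and]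
    constructor
    · rintro ⟨v, ⟨u, h1, h2⟩, h3⟩; exact ⟨u, v, h2, h1, h3⟩
    · rintro ⟨u, v, h1, h2, h3⟩; exact ⟨v, ⟨u, h2, h1⟩, h3⟩
  let W0 : Finset ℤ := {-M, M} ∪ (Finset.univ.filter (fun v => v ∉ V₁ ∧ ∀ u, ¬ E u v)).image x'
  have mW : ∀ b, b ∈ W0 ↔ b = -M ∨ b = M ∨ ∃ v, v ∉ V₁ ∧ (∀ u, ¬ E u v) ∧ x' v = b := by
    intro b
    simp only [W0, Finset.mem_union, Finset.mem_insert, Finset.mem_singleton, Finset.mem_image,
      Finset.mem_filter, Finset.mem_univ, true_and, or_assoc, and_assoc]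
  let C : Ctx := {
    N := N
    W0 := W0
    lam := -M
    rho := M
    hN := by
      intro a b h
      obtain ⟨u, v, h1, h2, rfl⟩ := (mN a b).1 h
      have := hM.2 v
      refine ⟨this.1, this.2, fun c => ?_⟩
      rcases (mW _).1 c with c | c | ⟨w, c1, c2, c3⟩
      · omega
      · omega
      · exact c2 u (xi c3 ▸ h1)
    hW := by
      intro u h
      have := hM.1
      rcases (mW _).1 h with c | c | ⟨w, c1, c2, c3⟩
      · omega
      · omega
      · have := hM.2 w; omega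
    lamW := (mW _).2 (Or.inl rfl)
    rhoW := (mW _).2 (Or.inr (Or.inl rfl))
    lr := by have := hM.1; omega
    nc := by
      intro a b1 b2 b a1 a2 h1 h2 h3 h4 c1 c2 c3 c4
      obtain ⟨u, v1, e1, rfl, rfl⟩ := (mN _ _).1 h1
      obtain ⟨u', v2, e2, f, rfl⟩ := (mN _ _).1 h2
      obtain rfl := yi f
      obtain ⟨u1, v, e3, rfl, rfl⟩ := (mN _ _).1 h3
      obtain ⟨u2, v', e4, rfl, f⟩ := (mN _ _).1 h4
      obtain rfl := xi f
      exact nc _ _ _ _ _ _ e1 e2 e3 e4 (xs _ _ _ _ e1 e3 c1) (xs _ _ _ _ e3 e2 c2)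
        (ys _ _ _ _ e3 e1 c3) (ys _ _ _ _ e1 e4 c4) }
  let P : Finset ℤ := (Finset.univ.filter (fun v => v ∈ V₁)).image y'
  have mP : ∀ v ∈ V₁, y' v ∈ P := fun v hv => Finset.mem_image_of_mem _ (by simp [hv])
  have cnt : C.cnt P ≤ Fintype.card V + 2 := by
    have h1 : C.seen P ⊆ {-M, M} ∪ (Finset.univ.filter (fun v => ¬ v ∈ V₁)).image x' := by
      intro b hb
      rcases Finset.mem_union.1 hb with h | h
      · rcases (mW _).1 h with c | c | ⟨w, c1, c2, c3⟩
        · simp [c]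
        · simp [c]
        · exact Finset.mem_union_right _ (c3 ▸ Finset.mem_image_of_mem _ (by simp [c1]))
      · obtain ⟨a, -, h⟩ := Finset.mem_biUnion.1 h
        obtain ⟨u, v, e, -, rfl⟩ := (mN _ _).1 h
        exact Finset.mem_union_right _ (Finset.mem_image_of_mem _ (by simp [(hV u v e).2]))
    have h2 := Finset.card_le_card h1
    have h3 := Finset.card_union_le ({-M, M} : Finset ℤ) ((Finset.univ.filter (fun v => ¬ v ∈ V₁)).image x')
    have h4 : ({-M, M} : Finset ℤ).card ≤ 2 := Finset.card_le_two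
    have h5 : ((Finset.univ.filter (fun v => ¬ v ∈ V₁)).image x').card ≤ _ := Finset.card_image_le
    have h6 : P.card ≤ _ := Finset.card_image_le
    have h7 := Finset.card_filter_add_card_filter_not (s := (Finset.univ : Finset V)) (fun v => v ∈ V₁)
    rw [Finset.card_univ] at h7
    unfold Ctx.cnt
    omega
  obtain ⟨pos, box, up, pl⟩ := ctx_draw C P
  let φ : V → ℤ ⊕ ℤ := fun v => if v ∈ V₁ then Sum.inl (y' v) else Sum.inr (x' v)
  have φ1 : ∀ v ∈ V₁, φ v = Sum.inl (y' v) := fun v h => if_pos h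
  have φ2 : ∀ v, v ∉ V₁ → φ v = Sum.inr (x' v) := fun v h => if_neg h
  have φi : Function.Injective φ := by
    intro u v h
    by_cases c : u ∈ V₁ <;> by_cases d : v ∈ V₁
    · rw [φ1 u c, φ1 v d] at h; exact yi (Sum.inl_injective h)
    · rw [φ1 u c, φ2 v d] at h; simp at h
    · rw [φ2 u c, φ1 v d] at h; simp at h
    · rw [φ2 u c, φ2 v d] at h; exact xi (Sum.inr_injective h)
  have oV : ∀ v, C.Obj P (φ v, φ v) := by
    intro v
    by_cases c : v ∈ V₁
    · rw [φ1 v c]; exact Or.inl ⟨_, mP v c, rfl⟩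
    · rw [φ2 v c]
      refine Or.inr (Or.inl ⟨_, ?_, rfl⟩)
      by_cases d : ∃ u, E u v
      · obtain ⟨u, e⟩ := d
        exact Finset.mem_union_right _ (Finset.mem_biUnion.2 ⟨y' u, mP u (hV u v e).1,
          (mN _ _).2 ⟨u, v, e, rfl, rfl⟩⟩)
      · exact Finset.mem_union_left _ ((mW _).2 (Or.inr (Or.inr ⟨v, c, fun u e => d ⟨u, e⟩, rfl⟩)))
  have oE : ∀ u v, E u v → C.Obj P (φ u, φ v) := by
    intro u v e
    rw [φ1 u (hV u v e).1, φ2 v (hV u v e).2]
    exact Or.inr (Or.inr ⟨_, mP u (hV u v e).1, _, (mN _ _).2 ⟨u, v, e, rfl, rfl⟩, rfl⟩)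
  let pos1 : V → ℤ × ℤ := fun v => ((pos (φ v)).1, (pos (φ v)).1 + (pos (φ v)).2)
  have key : ∀ u v u' v', C.Obj P (φ u, φ v) → C.Obj P (φ u', φ v') → (u, v) ≠ (u', v') →
      ∀ z, z ∈ segment ℝ (toR (pos1 u)) (toR (pos1 v)) → z ∈ segment ℝ (toR (pos1 u')) (toR (pos1 v')) →
      ∃ w, (w = u ∨ w = v) ∧ (w = u' ∨ w = v') ∧ z = toR (pos1 w) := by
    intro u v u' v' o o' hne z hz hz'
    obtain ⟨w, w1, w2, w3⟩ := pl _ _ o o' (fun c => hne (by
      simp only [Prod.mk.injEq] at c ⊢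
      exact ⟨φi c.1, φi c.2⟩)) _ (unshear hz) (unshear hz')
    obtain ⟨w0, rfl, w4⟩ : ∃ w0, w = φ w0 ∧ (w0 = u ∨ w0 = v) := by
      rcases w1 with e | e
      · exact ⟨u, e, Or.inl rfl⟩
      · exact ⟨v, e, Or.inr rfl⟩
    refine ⟨w0, w4, w2.imp (fun e => φi e) (fun e => φi e), ?_⟩
    simp only [toR, Prod.mk.injEq] at w3
    refine Prod.ext ?_ ?_
    · simp only [toR, pos1]; exact w3.1
    · simp only [toR, pos1]; push_cast; linarith [w3.1, w3.2]
  refine ⟨⟨pos1, fun _ _ => [], ?_, ?_, ?_, ?_⟩, fun _ _ _ => rfl, ?_⟩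
  · intro u v e
    have := up _ (mP u (hV u v e).1) _ ((mN _ _).2 ⟨u, v, e, rfl, rfl⟩)
    rw [← φ1 u (hV u v e).1, ← φ2 v (hV u v e).2] at this
    simpa [pos1] using this
  · intro u v h
    by_contra c
    obtain ⟨w, w1, w2, -⟩ := key u u v v (oV u) (oV v) (by simp [c]) (toR (pos1 u))
      (left_mem_segment _ _ _) (by simp only at h; rw [h]; exact left_mem_segment _ _ _)
    simp only [or_self] at w1 w2
    exact c (w1.symm.trans w2)
  · intro u v w e h
    simp only [List.nil_append, polySet, union_empty] at h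
    by_cases c : (w, w) = (u, v)
    · exact Or.inl (Prod.ext_iff.1 c).1
    · obtain ⟨w', w1, w2, -⟩ := key w w u v (oV w) (oE u v e) c _ (left_mem_segment _ _ _) h
      simp only [or_self] at w1
      exact w1 ▸ w2
  · intro u v u' v' e e' hne z hz hz'
    simp only [List.nil_append, polySet, union_empty] at hz hz'
    exact key u v u' v' (oE u v e) (oE u' v' e') hne z hz hz'
  · intro v
    have := box _ (oV v)
    simp only [pos1] at this ⊢
    omega

theorem upward_of_straight (D : GridDrawing E) (h : D.Straight) : UpwardPlanar E := by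
  refine ⟨_, _, D.planar, fun u v e => ?_⟩
  have up := D.up u v e
  simp only [h u v e, List.nil_append, polySet, union_empty] at up ⊢
  have up' : ((D.pos u).2 : ℝ) < (D.pos v).2 := by
    have : (D.pos u).2 < (D.pos v).2 := by simpa using up
    exact_mod_cast this
  refine ⟨fun t => toR (D.pos u) + t • (toR (D.pos v) - toR (D.pos u)), by fun_prop, by simp, by simp,
    ?_, segment_eq_image' ℝ _ _⟩
  intro s _ t _ hst
  simp only [toR, Prod.snd_add, Prod.smul_snd, Prod.snd_sub, smul_eq_mul]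
  nlinarith

theorem area_le (D : GridDrawing E) (h : D.Straight) (K : ℕ)
    (hb : ∀ v, 0 ≤ (D.pos v).1 ∧ (D.pos v).1 ≤ K ∧ -(K : ℤ) ≤ (D.pos v).2 ∧ (D.pos v).2 ≤ K) :
    D.area ≤ ((2 * K ^ 2 : ℕ) : ℕ∞) := by
  have pts : ∀ p ∈ D.pts, ∃ v, p = D.pos v := by
    rintro p (hp | ⟨u, v, e, hp⟩)
    · exact hp
    · rw [h u v e] at hp; simp at hp
  have h1 : (⨆ p ∈ D.pts, ⨆ q ∈ D.pts, ((p.1 - q.1).natAbs : ℕ∞)) ≤ (K : ℕ∞) := by
    refine iSup₂_le fun p hp => iSup₂_le fun q hq => ?_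
    obtain ⟨u, rfl⟩ := pts p hp
    obtain ⟨v, rfl⟩ := pts q hq
    have := hb u
    have := hb v
    exact_mod_cast (by omega : ((D.pos u).1 - (D.pos v).1).natAbs ≤ K)
  have h2 : (⨆ p ∈ D.pts, ⨆ q ∈ D.pts, ((p.2 - q.2).natAbs : ℕ∞)) ≤ ((2 * K : ℕ) : ℕ∞) := by
    refine iSup₂_le fun p hp => iSup₂_le fun q hq => ?_
    obtain ⟨u, rfl⟩ := pts p hp
    obtain ⟨v, rfl⟩ := pts q hq
    have := hb u
    have := hb v
    exact_mod_cast (by omega : ((D.pos u).2 - (D.pos v).2).natAbs ≤ 2 * K)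
  refine le_trans (mul_le_mul' h1 h2) (le_of_eq ?_)
  push_cast; ring

theorem areaStraight_le (n : ℕ) : areaStraight n ≤ ((50 * (n + 2) ^ 2 : ℕ) : ℕ∞) := by
  refine iSup₂_le fun E h => ?_
  obtain ⟨x, y, h1, h2, h3⟩ := ranks_of_upward h.1 h.2
  obtain ⟨D, d1, d2⟩ := draw_of_ranks h.1 x y h1 h2 h3
  refine le_trans (iInf₂_le D d1) (le_trans (area_le D d1 (5 * (n + 2)) ?_) (le_of_eq ?_))
  · intro v
    have := d2 v
    rw [Fintype.card_fin] at this
    push_cast
    exact this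
  · congr 1; ring

theorem areaPoly_le_areaStraight (n : ℕ) : areaPoly n ≤ areaStraight n :=
  iSup₂_mono fun _ _ => le_iInf₂ fun D _ => iInf_le _ D

end Pool.Agent.H858Z.Up
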