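import Pool.Agent.H858Z.UpLowA
import Pool.Agent.H858Z.UpUpper

/-!
Lower bound: nested four-cycles force linear width and linear height.
-/

namespace Pool.Agent.H858Z.Up

open Classical Set

variable {V : Type} {E : V → V → Prop}

def GridDrawing.chain (G : GridDrawing E) (u v : V) : List (ℤ × ℤ) :=
  G.pos u :: (G.bends u v ++ [G.pos v])

theorem sys_of_grid (G : GridDrawing E) : ∃ D : Sys E, (∀ v, D.X v = (G.pos v).1) ∧
    (∀ v, D.Y v = (G.pos v).2) ∧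
    (∀ u v, E u v → ∀ t, D.Y u ≤ t → t ≤ D.Y v → (∃ r ∈ G.chain u v, (r.1 : ℝ) ≤ D.F u v t) ∧
      (∃ r ∈ G.chain u v, D.F u v t ≤ r.1)) ∧
    ∀ u v, E u v → ∀ r ∈ G.chain u v, r = G.pos u ∨
      (D.Y u < r.2 ∧ (r.2 : ℝ) ≤ D.Y v ∧ D.F u v r.2 = r.1) := by
  have : ∀ u v, ∃ f : ℝ → ℝ, E u v → ((G.pos u).2 : ℝ) < (G.pos v).2 ∧
      Continuous f ∧ f (G.pos u).2 = (G.pos u).1 ∧ f (G.pos v).2 = (G.pos v).1 ∧
      (∀ t ∈ Icc ((G.pos u).2 : ℝ) (G.pos v).2, (f t, t) ∈ polySet (G.chain u v) ∧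
        (∃ r ∈ G.chain u v, (r.1 : ℝ) ≤ f t) ∧ (∃ r ∈ G.chain u v, f t ≤ r.1)) ∧
      ∀ r ∈ G.bends u v, ((G.pos u).2 : ℝ) < r.2 ∧ (r.2 : ℝ) < (G.pos v).2 ∧ f r.2 = r.1 := by
    intro u v
    by_cases e : E u v
    · obtain ⟨a, f, hf⟩ := poly_graph (G.pos v) (G.bends u v) (G.pos u) (G.up u v e)
      exact ⟨f, fun _ => And.intro a hf⟩
    · exact ⟨fun _ => 0, fun c => absurd c e⟩
  choose F hF using this
  refine ⟨Sys.ofLayout G.planar F (fun u v e => ⟨(hF u v e).1, (hF u v e).2.1.continuousOn,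
    (hF u v e).2.2.1, (hF u v e).2.2.2.1, fun t ht => ((hF u v e).2.2.2.2.1 t ht).1⟩),
    fun _ => rfl, fun _ => rfl, fun u v e t a b => ((hF u v e).2.2.2.2.1 t ⟨a, b⟩).2, ?_⟩
  intro u v e r hr
  rcases List.mem_cons.1 hr with c | c
  · exact Or.inl c
  · right
    rcases List.mem_append.1 c with d | d
    · obtain ⟨a, b, c⟩ := (hF u v e).2.2.2.2.2 r d
      exact ⟨a, b.le, c⟩
    · rw [List.mem_singleton] at d
      rw [d]
      exact ⟨(hF u v e).1, le_rfl, (hF u v e).2.2.2.1⟩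

def GridDrawing.ptsOf (G : GridDrawing E) (K : V → V → Prop) : Set (ℤ × ℤ) :=
  {p | ∃ u v, K u v ∧ p ∈ G.chain u v}

def Nested (S' S : Set (ℤ × ℤ)) : Prop :=
  ∃ a0, ∀ r ∈ S', (r = a0 ∧ ∃ r' ∈ S', r.2 < r'.2) ∨
    ((∃ r1 ∈ S, r1.1 < r.1) ∧ (∃ r2 ∈ S, r.1 < r2.1) ∧ ∃ r3 ∈ S, r.2 < r3.2)

theorem nested_of (G : GridDrawing E) (D : Sys E) (hX : ∀ v, D.X v = (G.pos v).1)
    (hY : ∀ v, D.Y v = (G.pos v).2)
    (h1 : ∀ u v, E u v → ∀ t, D.Y u ≤ t → t ≤ D.Y v → (∃ r ∈ G.chain u v, (r.1 : ℝ) ≤ D.F u v t) ∧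
      (∃ r ∈ G.chain u v, D.F u v t ≤ r.1))
    (h2 : ∀ u v, E u v → ∀ r ∈ G.chain u v, r = G.pos u ∨
      (D.Y u < r.2 ∧ (r.2 : ℝ) ≤ D.Y v ∧ D.F u v r.2 = r.1))
    {s s' b b' a0 : V} (C : Cyc E s s' b b') {K K' : V → V → Prop}
    (hK : ∀ u v, (u = s ∨ u = s') → (v = b ∨ v = b') → K u v)
    (hK' : ∀ u v, K' u v → E u v ∧ ¬ OnC s s' b b' v ∧ D.Ins s s' b b' (D.X v) (D.Y v) ∧
      (u = a0 ∨ ¬ OnC s s' b b' u)) : Nested (G.ptsOf K') (G.ptsOf K) := by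
  refine ⟨G.pos a0, ?_⟩
  rintro r ⟨u, v, k, hr⟩
  obtain ⟨e, nv, iv, hu⟩ := hK' u v k
  have lt := D.lt u v e
  have main : ∀ t : ℝ, D.Y u ≤ t → t ≤ D.Y v → (OnC s s' b b' u → D.Y u < t) → t = r.2 →
      D.F u v t = r.1 → ((∃ r1 ∈ G.ptsOf K, r1.1 < r.1) ∧ (∃ r2 ∈ G.ptsOf K, r.1 < r2.1) ∧
        ∃ r3 ∈ G.ptsOf K, r.2 < r3.2) := by
    intro t a1 a2 a3 a4 a5
    have ins := D.ins_down C e nv iv a1 a2 a3
    obtain ⟨⟨x, y, x1, y1, p1, p2, p3⟩, ⟨x', y', x1', y1', q1, q2, q3⟩⟩ := D.enclosed C ins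
      (fun x y he hx hy b1 b2 => D.notouch e he hx hy (fun c => nv c.2) a1 a2 a3
        (fun c => absurd c nv) b1 b2)
    have ed : ∀ x y, (x = s ∨ x = s') → (y = b ∨ y = b') → E x y := by
      rintro x y (rfl | rfl) (rfl | rfl)
      exacts [C.e1, C.e2, C.e3, C.e4]
    obtain ⟨r1, m1, n1⟩ := (h1 x y (ed x y x1 y1) t p1 p2.le).1
    obtain ⟨r2, m2, n2⟩ := (h1 x' y' (ed x' y' x1' y1') t q1 q2.le).2
    refine ⟨⟨r1, ⟨x, y, hK x y x1 y1, m1⟩, ?_⟩, ⟨r2, ⟨x', y', hK x' y' x1' y1', m2⟩, ?_⟩,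
      ⟨G.pos y, ⟨x, y, hK x y x1 y1, by simp [GridDrawing.chain]⟩, ?_⟩⟩
    · have : (r1.1 : ℝ) < r.1 := by linarith
      exact_mod_cast this
    · have : (r.1 : ℝ) < r2.1 := by linarith
      exact_mod_cast this
    · have : (r.2 : ℝ) < (G.pos y).2 := by rw [← hY]; linarith
      exact_mod_cast this
  rcases h2 u v e r hr with c | ⟨c1, c2, c3⟩
  · rcases hu with hu | hu
    · left
      refine ⟨by rw [c, hu], G.pos v, ⟨u, v, k, by simp [GridDrawing.chain]⟩, ?_⟩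
      rw [hY, hY] at lt
      rw [c]; exact_mod_cast lt
    · right
      exact main (D.Y u) le_rfl lt.le (fun d => absurd d hu) (by rw [c, hY])
        (by rw [D.bot u v e, c, hX])
  · exact Or.inr (main r.2 c1.le c2 (fun _ => c1) rfl c3)

noncomputable def xmin (S : Set (ℤ × ℤ)) : ℤ := sInf (Prod.fst '' S)
noncomputable def xmax (S : Set (ℤ × ℤ)) : ℤ := sSup (Prod.fst '' S)
noncomputable def ymax (S : Set (ℤ × ℤ)) : ℤ := sSup (Prod.snd '' S)

theorem ext_spec {S : Set (ℤ × ℤ)} (hf : S.Finite) (hn : S.Nonempty) :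
    (∃ p ∈ S, p.1 = xmin S) ∧ (∃ p ∈ S, p.1 = xmax S) ∧ (∃ p ∈ S, p.2 = ymax S) ∧
      ∀ p ∈ S, xmin S ≤ p.1 ∧ p.1 ≤ xmax S ∧ p.2 ≤ ymax S :=
  ⟨(hn.image _).csInf_mem (hf.image _), (hn.image _).csSup_mem (hf.image _),
    (hn.image _).csSup_mem (hf.image _), fun p hp =>
      ⟨csInf_le (hf.image _).bddBelow ⟨p, hp, rfl⟩, le_csSup (hf.image _).bddAbove ⟨p, hp, rfl⟩,
        le_csSup (hf.image _).bddAbove ⟨p, hp, rfl⟩⟩⟩

theorem ext_mono {S' S : Set (ℤ × ℤ)} (hf : S.Finite) (hn : S'.Nonempty) (h : S' ⊆ S) :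
    xmin S ≤ xmin S' ∧ xmax S' ≤ xmax S ∧ ymax S' ≤ ymax S := by
  obtain ⟨⟨p, p1, p2⟩, ⟨q, q1, q2⟩, ⟨r, r1, r2⟩, -⟩ := ext_spec (hf.subset h) hn
  have k := (ext_spec hf (hn.mono h)).2.2.2
  have := k p (h p1)
  have := k q (h q1)
  have := k r (h r1)
  omega

theorem ext_strict {S' S : Set (ℤ × ℤ)} (hf : S.Finite) (hn : S'.Nonempty) (h : S' ⊆ S)
    (hN : Nested S' S) : xmax S' - xmin S' + 1 ≤ xmax S - xmin S ∧ ymax S' + 1 ≤ ymax S := by
  obtain ⟨a0, hN⟩ := hN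
  obtain ⟨⟨p, p1, p2⟩, ⟨q, q1, q2⟩, ⟨r, r1, r2⟩, k'⟩ := ext_spec (hf.subset h) hn
  have k := (ext_spec hf (hn.mono h)).2.2.2
  have m := ext_mono hf hn h
  have := k' r r1
  have hr : (∃ r1 ∈ S, r1.1 < r.1) ∧ (∃ r2 ∈ S, r.1 < r2.1) ∧ ∃ r3 ∈ S, r.2 < r3.2 := by
    rcases hN r r1 with ⟨-, r', a, b⟩ | c
    · have := k' r' a; omega
    · exact c
  obtain ⟨⟨s1, a1, b1⟩, ⟨s2, a2, b2⟩, ⟨s3, a3, b3⟩⟩ := hr
  have := k s1 a1
  have := k s2 a2
  have := k s3 a3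
  refine ⟨?_, by omega⟩
  rcases hN p p1 with ⟨c, -⟩ | ⟨⟨t, t1, t2⟩, -⟩
  · rcases hN q q1 with ⟨d, -⟩ | ⟨-, ⟨t, t1, t2⟩, -⟩
    · have : p = q := c.trans d.symm
      rw [this] at p2
      omega
    · have := k t t1; omega
  · have := k t t1; omega

theorem telescope {f g : ℕ → ℤ} {k : ℕ}
    (h : ∀ i, 1 ≤ i → i + 2 ≤ k → f i - g i + 1 ≤ f (i + 1) - g (i + 1)) :
    ∀ i, 1 ≤ i → i + 1 ≤ k → f 1 - g 1 + (i - 1) ≤ f i - g i := by
  intro i
  induction i with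
  | zero => intro a; omega
  | succ i ih =>
    intro a b
    rcases Nat.eq_zero_or_pos i with c | c
    · subst c; simp
    · have := ih c (by omega)
      have := h i c (by omega)
      push_cast; omega

theorem nested_lower [Fintype V] (hb : IsBipDAG E) (G : GridDrawing E) {k : ℕ} (hk : 2 ≤ k) (a : V)
    (c : ℕ → V) (w : ℕ → Bool → V)
    (ea : ∀ j < k, ∀ s, E a (w j s)) (e0 : ∀ j < k, ∀ s, E (c j) (w j s))
    (e1 : ∀ j < k, ∀ s, E (c (j + 1)) (w j s))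
    (ci : ∀ i ≤ k, ∀ j ≤ k, c i = c j → i = j) (ac : ∀ i ≤ k, a ≠ c i)
    (wi : ∀ i < k, ∀ j < k, ∀ s s', w i s = w j s' → i = j ∧ s = s') :
    (∃ p ∈ G.pts, ∃ q ∈ G.pts, ∃ p' ∈ G.pts, ∃ q' ∈ G.pts, (k : ℤ) - 2 ≤ (p.1 - q.1) + (p'.1 - q'.1)) ∧
    (∃ p ∈ G.pts, ∃ q ∈ G.pts, ∃ p' ∈ G.pts, ∃ q' ∈ G.pts, (k : ℤ) - 2 ≤ (p.2 - q.2) + (p'.2 - q'.2)) := by
  obtain ⟨D, hX, hY, h1, h2⟩ := sys_of_grid G
  obtain ⟨V₁, hV⟩ := hb
  let K : ℕ → ℕ → V → V → Prop := fun lo hi u v =>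
    ∃ j s, lo ≤ j ∧ j < hi ∧ j < k ∧ v = w j s ∧ (u = a ∨ u = c j ∨ u = c (j + 1))
  have KE : ∀ lo hi u v, K lo hi u v → E u v := by
    rintro lo hi u v ⟨j, s, -, -, hj, rfl, rfl | rfl | rfl⟩
    exacts [ea j hj s, e0 j hj s, e1 j hj s]
  have sub : ∀ lo hi, G.ptsOf (K lo hi) ⊆ G.pts := by
    rintro lo hi p ⟨u, v, k', hp⟩
    rcases List.mem_cons.1 hp with d | d
    · exact Or.inl ⟨u, d⟩
    · rcases List.mem_append.1 d with d | d
      · exact Or.inr ⟨u, v, KE _ _ _ _ k', d⟩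
      · exact Or.inl ⟨v, List.mem_singleton.1 d⟩
  have fin0 : G.pts.Finite := by
    have : G.pts ⊆ range G.pos ∪ ⋃ u, ⋃ v, {p | p ∈ G.bends u v} := by
      rintro p (⟨v, rfl⟩ | ⟨u, v, -, h⟩)
      · exact Or.inl ⟨v, rfl⟩
      · exact Or.inr (mem_iUnion.2 ⟨u, mem_iUnion.2 ⟨v, h⟩⟩)
    exact ((finite_range _).union (finite_iUnion fun u => finite_iUnion fun v =>
      List.finite_toSet _)).subset this
  have fin : ∀ lo hi, (G.ptsOf (K lo hi)).Finite := fun lo hi => fin0.subset (sub lo hi)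
  have ne : ∀ lo hi, lo < hi → lo < k → (G.ptsOf (K lo hi)).Nonempty := fun lo hi h h' =>
    ⟨G.pos a, a, w lo true, ⟨lo, true, le_rfl, h, h', rfl, Or.inl rfl⟩, by simp [GridDrawing.chain]⟩
  have mono : ∀ lo hi lo' hi', lo ≤ lo' → hi' ≤ hi → G.ptsOf (K lo' hi') ⊆ G.ptsOf (K lo hi) := by
    rintro lo hi lo' hi' h h' p ⟨u, v, ⟨j, s, a1, a2, a3⟩, hp⟩
    exact ⟨u, v, ⟨j, s, by omega, by omega, a3⟩, hp⟩
  have aB : a ∈ V₁ := (hV _ _ (ea 0 (by omega) true)).1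
  have cB : ∀ j ≤ k, c j ∈ V₁ := by
    intro j hj
    rcases Nat.eq_zero_or_pos j with d | d
    · rw [d]; exact (hV _ _ (e0 0 (by omega) true)).1
    · have := (hV _ _ (e1 (j - 1) (by omega) true)).1
      rwa [Nat.sub_add_cancel d] at this
  have wW : ∀ j < k, ∀ s, w j s ∉ V₁ := fun j hj s => (hV _ _ (ea j hj s)).2
  have nw : ∀ i < k, ∀ j < k, j ≠ i → ∀ s x y, x ∈ V₁ → y ∈ V₁ →
      ¬ OnC x y (w i true) (w i false) (w j s) := by
    rintro i hi j hj hne s x y hx hy (d | d | d | d)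
    · exact wW j hj s (d ▸ hx)
    · exact wW j hj s (d ▸ hy)
    · exact hne (wi j hj i hi _ _ d).1
    · exact hne (wi j hj i hi _ _ d).1
  have nb : ∀ i < k, ∀ z x y, z ∈ V₁ → z ≠ x → z ≠ y → ¬ OnC x y (w i true) (w i false) z := by
    rintro i hi z x y hz n1 n2 (d | d | d | d)
    · exact n1 d
    · exact n2 d
    · exact wW i hi _ (d ▸ hz)
    · exact wW i hi _ (d ▸ hz)
  have step : ∀ i, 1 ≤ i → i + 2 ≤ k → Nested (G.ptsOf (K 0 i)) (G.ptsOf (K 0 (i + 1))) ∨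
      Nested (G.ptsOf (K (i + 1) k)) (G.ptsOf (K i k)) := by
    intro i i1 i2
    have ik : i < k := by omega
    have cne : ∀ j ≤ k, ∀ j' ≤ k, j ≠ j' → c j ≠ c j' := fun j hj j' hj' n d => n (ci j hj j' hj' d)
    rcases D.k23 (s1 := c i) (s2 := c (i + 1)) (s3 := a) (b := w i true) (b' := w i false)
      (cne _ (by omega) _ (by omega) (by omega)) (ac _ (by omega)).symm (ac _ (by omega)).symm
      (fun d => by simpa using (wi i ik i ik _ _ d).2) (e0 i ik _) (e0 i ik _) (e1 i ik _) (e1 i ik _)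
      (ea i ik _) (ea i ik _) with h | h | h
    · left
      have C : Cyc E (c (i + 1)) a (w i true) (w i false) := ⟨e1 i ik _, e1 i ik _, ea i ik _, ea i ik _⟩
      have nc : ∀ j ≤ i, ¬ OnC (c (i + 1)) a (w i true) (w i false) (c j) := fun j hj =>
        nb i ik _ _ _ (cB j (by omega)) (cne _ (by omega) _ (by omega) (by omega)) (ac _ (by omega)).symm
      have nw' : ∀ j < i, ∀ s, ¬ OnC (c (i + 1)) a (w i true) (w i false) (w j s) := fun j hj s =>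
        nw i ik j (by omega) (by omega) s _ _ (cB _ (by omega)) aB
      have ins : ∀ d, d ≤ i → D.Ins (c (i + 1)) a (w i true) (w i false) (D.X (c (i - d))) (D.Y (c (i - d))) := by
        intro d
        induction d with
        | zero => intro _; exact h
        | succ d ih =>
          intro hd
          have := ih (by omega)
          have e : i - d = (i - (d + 1)) + 1 := by omega
          rw [e, D.ins_edge C (e1 _ (by omega) true) (nc _ (by omega)) (nw' _ (by omega) _),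
            ← D.ins_edge C (e0 _ (by omega) true) (nc _ (by omega)) (nw' _ (by omega) _)] at this
          exact this
      refine nested_of G D hX hY h1 h2 (a0 := a) C ?_ ?_
      · rintro u v hu (rfl | rfl) <;> exact ⟨i, _, by omega, by omega, ik, rfl, by tauto⟩
      · rintro u v ⟨j, s, -, hj, hj', rfl, hu⟩
        refine ⟨KE 0 i _ _ ⟨j, s, by omega, hj, hj', rfl, hu⟩, nw' j hj s, ?_, ?_⟩
        · have := ins (i - j) (by omega)
          rw [show i - (i - j) = j by omega,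
            D.ins_edge C (e0 _ hj' s) (nc _ (by omega)) (nw' _ hj _)] at this
          exact this
        · rcases hu with rfl | rfl | rfl
          exacts [Or.inl rfl, Or.inr (nc _ (by omega)), Or.inr (nc _ (by omega))]
    · right
      have C : Cyc E (c i) a (w i true) (w i false) := ⟨e0 i ik _, e0 i ik _, ea i ik _, ea i ik _⟩
      have nc : ∀ j, i < j → j ≤ k → ¬ OnC (c i) a (w i true) (w i false) (c j) := fun j hj hj' =>
        nb i ik _ _ _ (cB j hj') (cne _ (by omega) _ (by omega) (by omega)) (ac _ (by omega)).symm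
      have nw' : ∀ j, i < j → j < k → ∀ s, ¬ OnC (c i) a (w i true) (w i false) (w j s) :=
        fun j hj hj' s => nw i ik j hj' (by omega) s _ _ (cB _ (by omega)) aB
      have ins : ∀ d, i + 1 + d ≤ k →
          D.Ins (c i) a (w i true) (w i false) (D.X (c (i + 1 + d))) (D.Y (c (i + 1 + d))) := by
        intro d
        induction d with
        | zero => intro _; exact h
        | succ d ih =>
          intro hd
          have := ih (by omega)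
          rw [D.ins_edge C (e0 _ (by omega) true) (nc _ (by omega) (by omega))
              (nw' _ (by omega) (by omega) _),
            ← D.ins_edge C (e1 _ (by omega) true) (nc _ (by omega) (by omega))
              (nw' _ (by omega) (by omega) _)] at this
          exact this
      refine nested_of G D hX hY h1 h2 (a0 := a) C ?_ ?_
      · rintro u v hu (rfl | rfl) <;> exact ⟨i, _, by omega, by omega, ik, rfl, by tauto⟩
      · rintro u v ⟨j, s, hj, -, hj', rfl, hu⟩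
        refine ⟨KE (i + 1) k _ _ ⟨j, s, hj, hj', hj', rfl, hu⟩, nw' j (by omega) hj' s, ?_, ?_⟩
        · have := ins (j - (i + 1)) (by omega)
          rw [show i + 1 + (j - (i + 1)) = j by omega,
            D.ins_edge C (e0 _ hj' s) (nc _ (by omega) (by omega)) (nw' _ (by omega) hj' _)] at this
          exact this
        · rcases hu with rfl | rfl | rfl
          exacts [Or.inl rfl, Or.inr (nc _ (by omega) (by omega)), Or.inr (nc _ (by omega) (by omega))]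
    · left
      have C : Cyc E (c i) (c (i + 1)) (w i true) (w i false) :=
        ⟨e0 i ik _, e0 i ik _, e1 i ik _, e1 i ik _⟩
      have na : ¬ OnC (c i) (c (i + 1)) (w i true) (w i false) a :=
        nb i ik _ _ _ aB (ac _ (by omega)) (ac _ (by omega))
      have nc : ∀ j < i, ¬ OnC (c i) (c (i + 1)) (w i true) (w i false) (c j) := fun j hj =>
        nb i ik _ _ _ (cB j (by omega)) (cne _ (by omega) _ (by omega) (by omega))
          (cne _ (by omega) _ (by omega) (by omega))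
      have nw' : ∀ j < i, ∀ s, ¬ OnC (c i) (c (i + 1)) (w i true) (w i false) (w j s) := fun j hj s =>
        nw i ik j (by omega) (by omega) s _ _ (cB _ (by omega)) (cB _ (by omega))
      refine nested_of G D hX hY h1 h2 (a0 := c i) C ?_ ?_
      · rintro u v hu (rfl | rfl) <;> exact ⟨i, _, by omega, by omega, ik, rfl, by tauto⟩
      · rintro u v ⟨j, s, -, hj, hj', rfl, hu⟩
        refine ⟨KE 0 i _ _ ⟨j, s, by omega, hj, hj', rfl, hu⟩, nw' j hj s,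
          (D.ins_edge C (ea _ hj' s) na (nw' _ hj _)).1 h, ?_⟩
        rcases hu with rfl | rfl | rfl
        · exact Or.inr na
        · exact Or.inr (nc _ hj)
        · by_cases z : j + 1 = i
          · exact Or.inl (by rw [z])
          · exact Or.inr (nc _ (by omega))
  have both : ∀ i, 1 ≤ i → i + 2 ≤ k →
      ((xmax (G.ptsOf (K 0 i)) - xmin (G.ptsOf (K 0 i))) -
        (xmax (G.ptsOf (K i k)) - xmin (G.ptsOf (K i k))) + 1 ≤
       (xmax (G.ptsOf (K 0 (i + 1))) - xmin (G.ptsOf (K 0 (i + 1)))) -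
        (xmax (G.ptsOf (K (i + 1) k)) - xmin (G.ptsOf (K (i + 1) k)))) ∧
      ymax (G.ptsOf (K 0 i)) - ymax (G.ptsOf (K i k)) + 1 ≤
        ymax (G.ptsOf (K 0 (i + 1))) - ymax (G.ptsOf (K (i + 1) k)) := by
    intro i i1 i2
    have n1 := ne 0 i (by omega) (by omega)
    have n2 := ne (i + 1) k (by omega) (by omega)
    have s1 := mono 0 (i + 1) 0 i le_rfl (by omega)
    have s2 := mono i k (i + 1) k (by omega) le_rfl
    have m1 := ext_mono (fin _ _) n1 s1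
    have m2 := ext_mono (fin _ _) n2 s2
    rcases step i i1 i2 with h | h
    · have := ext_strict (fin _ _) n1 s1 h; omega
    · have := ext_strict (fin _ _) n2 s2 h; omega
  have t1 := telescope (f := fun i => xmax (G.ptsOf (K 0 i)) - xmin (G.ptsOf (K 0 i)))
    (g := fun i => xmax (G.ptsOf (K i k)) - xmin (G.ptsOf (K i k))) (fun i a b => (both i a b).1)
    (k - 1) (by omega) (by omega)
  have t2 := telescope (f := fun i => ymax (G.ptsOf (K 0 i)))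
    (g := fun i => ymax (G.ptsOf (K i k))) (fun i a b => (both i a b).2)
    (k - 1) (by omega) (by omega)
  obtain ⟨⟨p1, a1, b1⟩, ⟨p2, a2, b2⟩, ⟨p3, a3, b3⟩, k1⟩ := ext_spec (fin 0 (k - 1)) (ne _ _ (by omega) (by omega))
  obtain ⟨⟨q1, c1, d1⟩, ⟨q2, c2, d2⟩, ⟨q3, c3, d3⟩, k2⟩ := ext_spec (fin 1 k) (ne _ _ (by omega) (by omega))
  obtain ⟨⟨r1, f1, g1⟩, -, ⟨r3, f3, g3⟩, k3⟩ := ext_spec (fin 0 1) (ne _ _ (by omega) (by omega))
  obtain ⟨⟨s1, u1, v1⟩, -, ⟨s3, u3, v3⟩, k4⟩ := ext_spec (fin (k - 1) k) (ne _ _ (by omega) (by omega))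
  have := k3 r1 f1
  have := k4 s1 u1
  have kk : ((k - 1 : ℕ) : ℤ) = k - 1 := by omega
  simp only [kk] at t1 t2
  exact ⟨⟨p2, sub _ _ a2, p1, sub _ _ a1, q2, sub _ _ c2, q1, sub _ _ c1, by omega⟩,
    ⟨p3, sub _ _ a3, r3, sub _ _ f3, q3, sub _ _ c3, s3, sub _ _ u3, by omega⟩⟩

theorem le_iSup_of_pairs {S : Set (ℤ × ℤ)} (f : ℤ × ℤ → ℤ) {m : ℕ}
    (h : ∃ p ∈ S, ∃ q ∈ S, ∃ p' ∈ S, ∃ q' ∈ S, 2 * (m : ℤ) ≤ (f p - f q) + (f p' - f q')) :
    (m : ℕ∞) ≤ ⨆ p ∈ S, ⨆ q ∈ S, ((f p - f q).natAbs : ℕ∞) := by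
  obtain ⟨p, hp, q, hq, p', hp', q', hq', h⟩ := h
  have k : ∀ p ∈ S, ∀ q ∈ S, (m : ℤ) ≤ f p - f q →
      (m : ℕ∞) ≤ ⨆ p ∈ S, ⨆ q ∈ S, ((f p - f q).natAbs : ℕ∞) := by
    intro p hp q hq h
    refine le_trans ?_ (le_iSup₂_of_le p hp (le_iSup₂_of_le q hq le_rfl))
    exact_mod_cast (by omega : m ≤ (f p - f q).natAbs)
  by_cases c : (m : ℤ) ≤ f p - f q
  · exact k p hp q hq c
  · exact k p' hp' q' hq' (by omega)

def famE (k n : ℕ) (u v : Fin n) : Prop :=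
  ∃ j < k, (v.val = 3 * j + 2 ∨ v.val = 3 * j + 3) ∧ (u.val = 0 ∨ u.val = 3 * j + 1 ∨ u.val = 3 * j + 4)

theorem famE_bip (k n : ℕ) : IsBipDAG (famE k n) := by
  refine ⟨{u | u.val = 0 ∨ u.val % 3 = 1}, ?_⟩
  rintro u v ⟨j, -, h1, h2⟩
  simp only [mem_setOf_eq]
  omega

theorem famE_upward (k n : ℕ) : UpwardPlanar (famE k n) := by
  refine (draw_of_ranks (famE_bip k n)
    (fun v => if v.val % 3 = 2 then -(v.val : ℤ) else (v.val : ℤ) - 1) (fun u => u.val) ?_ ?_ ?_).elim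
    (fun D d => upward_of_straight D d.1)
  · rintro u v u' v' ⟨j, -, h1, -⟩ ⟨j', -, h2, -⟩ h
    apply Fin.ext
    split_ifs at h <;> omega
  · intro u v u' v' _ _ h
    apply Fin.ext
    omega
  · rintro a b1 b2 b a1 a2 ⟨j1, -, p1, q1⟩ ⟨j2, -, p2, q2⟩ ⟨j3, -, p3, q3⟩ ⟨j4, -, p4, q4⟩ c1 c2 c3 c4
    split_ifs at c1 c2 <;> omega

theorem areaPoly_ge (n m : ℕ) (h : 6 * m + 8 ≤ n) : ((m ^ 2 : ℕ) : ℕ∞) ≤ areaPoly n := by
  refine le_iSup₂_of_le (famE (2 * m + 2) n) ⟨famE_bip _ _, famE_upward _ _⟩ (le_iInf fun G => ?_)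
  let ι : ℕ → Fin n := fun j => ⟨j % n, Nat.mod_lt _ (by omega)⟩
  have hι : ∀ j, j < n → (ι j).val = j := fun j hj => Nat.mod_eq_of_lt hj
  have hw : ∀ j < 2 * m + 2, ∀ s : Bool, (ι (if s then 3 * j + 2 else 3 * j + 3)).val =
      if s then 3 * j + 2 else 3 * j + 3 := fun j hj s => hι _ (by split_ifs <;> omega)
  have hw' : ∀ j < 2 * m + 2, ∀ s : Bool, (ι (if s then 3 * j + 2 else 3 * j + 3)).val = 3 * j + 2 ∨
      (ι (if s then 3 * j + 2 else 3 * j + 3)).val = 3 * j + 3 := fun j hj s => by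
    rw [hw j hj s]; split_ifs <;> simp
  obtain ⟨h1, h2⟩ := nested_lower (famE_bip (2 * m + 2) n) G (k := 2 * m + 2) (by omega) (ι 0)
    (fun j => ι (3 * j + 1)) (fun j s => ι (if s then 3 * j + 2 else 3 * j + 3))
    (fun j hj s => ⟨j, hj, hw' j hj s, Or.inl (hι _ (by omega))⟩)
    (fun j hj s => ⟨j, hj, hw' j hj s, Or.inr (Or.inl (hι _ (by omega)))⟩)
    (fun j hj s => ⟨j, hj, hw' j hj s, Or.inr (Or.inr (by rw [hι _ (by omega)]; ring))⟩)
    (fun i hi j hj e => by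
      have := congrArg Fin.val e
      rw [hι _ (by omega), hι _ (by omega)] at this
      omega)
    (fun i hi e => by
      have := congrArg Fin.val e
      rw [hι _ (by omega), hι _ (by omega)] at this
      omega)
    (fun i hi j hj s s' e => by
      have := congrArg Fin.val e
      rw [hw i hi, hw j hj] at this
      cases s <;> cases s' <;> simp at this ⊢ <;> omega)
  have e : ((2 * m + 2 : ℕ) : ℤ) - 2 = 2 * (m : ℤ) := by push_cast; ring
  rw [e] at h1 h2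
  refine le_trans (le_of_eq ?_) (mul_le_mul' (le_iSup_of_pairs Prod.fst h1) (le_iSup_of_pairs Prod.snd h2))
  push_cast; ring

theorem areaPoly_lower (n : ℕ) (h : 28 ≤ n) : (n : ℕ∞) ^ 2 ≤ 144 * areaPoly n := by
  have h1 := areaPoly_ge n ((n - 8) / 6) (by omega)
  refine le_trans ?_ (mul_le_mul' le_rfl h1)
  have : n ^ 2 ≤ 144 * ((n - 8) / 6) ^ 2 := by
    have : n ≤ 12 * ((n - 8) / 6) := by omega
    nlinarith
  exact_mod_cast this

theorem areaStraight_upper (n : ℕ) (h : 28 ≤ n) : areaStraight n ≤ 144 * (n : ℕ∞) ^ 2 := by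
  refine le_trans (areaStraight_le n) ?_
  have : 50 * (n + 2) ^ 2 ≤ 144 * n ^ 2 := by nlinarith
  exact_mod_cast this

end Pool.Agent.H858Z.Up
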