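import Mathlib

/-!
Words with two non-crossing partitions, and their rank representations: basic lemmas.
-/

namespace Pool.Agent.H858Z.Up

open Classical

variable {ι B W : Type}

def NC {κ : Type} (E : Finset ι) (o : ι → ℝ) (β : ι → κ) : Prop :=
  ∀ e1 ∈ E, ∀ e2 ∈ E, ∀ e3 ∈ E, ∀ e4 ∈ E, o e1 < o e2 → o e2 < o e3 → o e3 < o e4 →
    β e1 = β e3 → β e2 = β e4 → β e1 = β e2

theorem NC.neg {κ : Type} {E : Finset ι} {o : ι → ℝ} {β : ι → κ} (h : NC E o β) :
    NC E (fun e => - o e) β := by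
  intro e1 h1 e2 h2 e3 h3 e4 h4 a b c d e
  have := h e4 h4 e3 h3 e2 h2 e1 h1 (by linarith) (by linarith) (by linarith) e.symm d.symm
  rw [d, ← this, e]

theorem NC.mono {κ : Type} {E S : Finset ι} {o : ι → ℝ} {β : ι → κ} (h : NC E o β)
    (hS : S ⊆ E) : NC S o β :=
  fun e1 h1 e2 h2 e3 h3 e4 h4 => h e1 (hS h1) e2 (hS h2) e3 (hS h3) e4 (hS h4)

structure Word (E : Finset ι) (o : ι → ℝ) (β : ι → B) (ω : ι → W) : Prop where
  inj : ∀ e ∈ E, ∀ f ∈ E, o e = o f → e = f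
  simple : ∀ e ∈ E, ∀ f ∈ E, β e = β f → ω e = ω f → e = f
  nb : NC E o β
  nw : NC E o ω

theorem Word.neg {E : Finset ι} {o : ι → ℝ} {β : ι → B} {ω : ι → W} (h : Word E o β ω) :
    Word E (fun e => - o e) β ω :=
  ⟨fun e he f hf hh => h.inj e he f hf (by linarith), h.simple, h.nb.neg, h.nw.neg⟩

theorem Word.mono {E S : Finset ι} {o : ι → ℝ} {β : ι → B} {ω : ι → W} (h : Word E o β ω)
    (hS : S ⊆ E) : Word S o β ω :=
  ⟨fun e he f hf => h.inj e (hS he) f (hS hf), fun e he f hf => h.simple e (hS he) f (hS hf),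
    h.nb.mono hS, h.nw.mono hS⟩

structure Good (E : Finset ι) (o : ι → ℝ) (β : ι → B) (ω : ι → W) (s t : B) (l : W) : Prop where
  word : Word E o β ω
  ne : s ≠ t
  first : ∃ e ∈ E, β e = s ∧ ω e = l ∧ ∀ f ∈ E, o e ≤ o f
  last : ∃ e ∈ E, β e = t ∧ ω e = l ∧ ∀ f ∈ E, o f ≤ o e

theorem Good.neg {E : Finset ι} {o : ι → ℝ} {β : ι → B} {ω : ι → W} {s t : B} {l : W}
    (h : Good E o β ω s t l) : Good E (fun e => - o e) β ω t s l := by
  obtain ⟨e, he, h1, h2, h3⟩ := h.first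
  obtain ⟨f, hf, g1, g2, g3⟩ := h.last
  exact ⟨h.word.neg, h.ne.symm, ⟨f, hf, g1, g2, fun g hg => by linarith [g3 g hg]⟩,
    ⟨e, he, h1, h2, fun g hg => by linarith [h3 g hg]⟩⟩

structure RepBy {α γ : Type} [LinearOrder α] [LinearOrder γ] (E : Finset ι) (o : ι → ℝ)
    (β : ι → B) (ω : ι → W) (s t : B) (l : W) (x : W → α) (y : B → γ) : Prop where
  xinj : ∀ e ∈ E, ∀ f ∈ E, x (ω e) = x (ω f) → ω e = ω f
  yinj : ∀ e ∈ E, ∀ f ∈ E, y (β e) = y (β f) → β e = β f
  ylo : ∀ e ∈ E, y s ≤ y (β e)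
  yhi : ∀ e ∈ E, y (β e) ≤ y t
  xlo : ∀ e ∈ E, x l ≤ x (ω e)
  incs : ∀ e ∈ E, ∀ f ∈ E, β e = s → β f = s → o e < o f → x (ω e) < x (ω f)
  dect : ∀ e ∈ E, ∀ f ∈ E, β e = t → β f = t → o e < o f → x (ω f) < x (ω e)
  nocross : ∀ e1 ∈ E, ∀ e2 ∈ E, ∀ f1 ∈ E, ∀ f2 ∈ E, β e1 = β e2 → ω f1 = ω f2 →
    x (ω e1) < x (ω f1) → x (ω f1) < x (ω e2) → y (β f1) < y (β e1) → y (β e1) < y (β f2) → False

def Rep (E : Finset ι) (o : ι → ℝ) (β : ι → B) (ω : ι → W) (s t : B) (l : W) : Prop :=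
  ∃ (x : W → ℤ) (y : B → ℤ), RepBy E o β ω s t l x y

theorem exists_rank {α κ : Type} [LinearOrder α] (x : κ → α) (S : Finset κ) :
    ∃ x' : κ → ℤ, ∀ b ∈ S, ∀ b' ∈ S, (x' b < x' b' ↔ x b < x b') := by
  refine ⟨fun b => ((S.filter (fun c => x c < x b)).card : ℤ), fun b hb b' hb' => ?_⟩
  constructor
  · intro h
    by_contra hn
    push Not at hn
    have : (S.filter (fun c => x c < x b')) ⊆ (S.filter (fun c => x c < x b)) := by
      intro c hc
      rw [Finset.mem_filter] at hc ⊢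
      exact ⟨hc.1, lt_of_lt_of_le hc.2 hn⟩
    have := Finset.card_le_card this
    simp only at h
    omega
  · intro h
    have : (S.filter (fun c => x c < x b)) ⊂ (S.filter (fun c => x c < x b')) := by
      rw [Finset.ssubset_iff_of_subset]
      · exact ⟨b, by simp [hb, h], by simp⟩
      · intro c hc
        rw [Finset.mem_filter] at hc ⊢
        exact ⟨hc.1, lt_trans hc.2 h⟩
    have := Finset.card_lt_card this
    simp only
    omega

theorem RepBy.toRep {α γ : Type} [LinearOrder α] [LinearOrder γ] {E : Finset ι} {o : ι → ℝ}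
    {β : ι → B} {ω : ι → W} {s t : B} {l : W} {x : W → α} {y : B → γ}
    (h : RepBy E o β ω s t l x y) : Rep E o β ω s t l := by
  obtain ⟨x', hx⟩ := exists_rank x (insert l (E.image ω))
  obtain ⟨y', hy⟩ := exists_rank y (insert s (insert t (E.image β)))
  have mx : ∀ e ∈ E, ω e ∈ insert l (E.image ω) := fun e he =>
    Finset.mem_insert_of_mem (Finset.mem_image_of_mem _ he)
  have my : ∀ e ∈ E, β e ∈ insert s (insert t (E.image β)) := fun e he =>
    Finset.mem_insert_of_mem (Finset.mem_insert_of_mem (Finset.mem_image_of_mem _ he))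
  have ml : l ∈ insert l (E.image ω) := Finset.mem_insert_self _ _
  have ms : s ∈ insert s (insert t (E.image β)) := Finset.mem_insert_self _ _
  have mt : t ∈ insert s (insert t (E.image β)) :=
    Finset.mem_insert_of_mem (Finset.mem_insert_self _ _)
  refine ⟨x', y', ?_, ?_, ?_, ?_, ?_, ?_, ?_, ?_⟩
  · intro e he f hf hh
    apply h.xinj e he f hf
    apply le_antisymm
    · rw [← not_lt, ← hx _ (mx f hf) _ (mx e he)]; omega
    · rw [← not_lt, ← hx _ (mx e he) _ (mx f hf)]; omega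
  · intro e he f hf hh
    apply h.yinj e he f hf
    apply le_antisymm
    · rw [← not_lt, ← hy _ (my f hf) _ (my e he)]; omega
    · rw [← not_lt, ← hy _ (my e he) _ (my f hf)]; omega
  · intro e he
    rw [← not_lt, hy _ (my e he) _ ms, not_lt]; exact h.ylo e he
  · intro e he
    rw [← not_lt, hy _ mt _ (my e he), not_lt]; exact h.yhi e he
  · intro e he
    rw [← not_lt, hx _ (mx e he) _ ml, not_lt]; exact h.xlo e he
  · intro e he f hf a b c
    rw [hx _ (mx e he) _ (mx f hf)]; exact h.incs e he f hf a b c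
  · intro e he f hf a b c
    rw [hx _ (mx f hf) _ (mx e he)]; exact h.dect e he f hf a b c
  · intro e1 h1 e2 h2 f1 g1 f2 g2 a b c d e f
    rw [hx _ (mx _ h1) _ (mx _ g1)] at c
    rw [hx _ (mx _ g1) _ (mx _ h2)] at d
    rw [hy _ (my _ g1) _ (my _ h1)] at e
    rw [hy _ (my _ h1) _ (my _ g2)] at f
    exact h.nocross e1 h1 e2 h2 f1 g1 f2 g2 a b c d e f

theorem Rep.of_neg {E : Finset ι} {o : ι → ℝ} {β : ι → B} {ω : ι → W} {s t : B} {l : W}
    (h : Rep E (fun e => - o e) β ω t s l) : Rep E o β ω s t l := by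
  obtain ⟨x, y, h⟩ := h
  refine ⟨x, fun c => - y c, h.xinj, ?_, ?_, ?_, h.xlo, ?_, ?_, ?_⟩
  · intro e he f hf hh
    exact h.yinj e he f hf (by simpa using hh)
  · intro e he
    have := h.yhi e he
    omega
  · intro e he
    have := h.ylo e he
    omega
  · intro e he f hf a b c
    exact h.dect f hf e he b a (by linarith)
  · intro e he f hf a b c
    exact h.incs f hf e he b a (by linarith)
  · intro e1 h1 e2 h2 f1 g1 f2 g2 a b c d e f
    skip
    exact h.nocross e1 h1 e2 h2 f2 g2 f1 g1 a b.symm (b ▸ c) (b ▸ d) (by omega) (by omega)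

/-- merging the block `a` into the block `u` -/
noncomputable def mrg (β : ι → B) (a u : B) : ι → B := fun e => if β e = a then u else β e

theorem merge_aux {E : Finset ι} {o : ι → ℝ} {β : ι → B} (h : NC E o β) {a u : B} {m m' : ι}
    (hm : m ∈ E) (hm' : m' ∈ E) (ha : β m = a) (hu : β m' = u)
    (hadj : ∀ f ∈ E, β f ≠ a → β f ≠ u → (o f < o m ∧ o f < o m') ∨ (o m < o f ∧ o m' < o f))
    {e1 e2 e3 e4 : ι} (h1 : e1 ∈ E) (h2 : e2 ∈ E) (h3 : e3 ∈ E) (h4 : e4 ∈ E)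
    (a1 : o e1 < o e2) (a2 : o e2 < o e3) (a3 : o e3 < o e4)
    (b1 : β e1 = a ∨ β e1 = u) (b3 : β e3 = a ∨ β e3 = u) (b2 : β e2 = β e4)
    (c1 : β e2 ≠ a) (c2 : β e2 ≠ u) : False := by
  have k : ∀ e, (β e = a ∨ β e = u) → ∃ n ∈ E, β n = β e ∧ (n = m ∨ n = m') := by
    rintro e (he | he)
    · exact ⟨m, hm, by rw [ha, he], Or.inl rfl⟩
    · exact ⟨m', hm', by rw [hu, he], Or.inr rfl⟩
  obtain ⟨n1, hn1, p1, q1⟩ := k e1 b1
  obtain ⟨n3, hn3, p3, q3⟩ := k e3 b3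
  have d2 := hadj e2 h2 c1 c2
  have d4 := hadj e4 h4 (b2 ▸ c1) (b2 ▸ c2)
  have ne3 : β e2 ≠ β e3 := by rcases b3 with b3 | b3 <;> rw [b3] <;> assumption
  have ne1 : β e2 ≠ β e1 := by rcases b1 with b1 | b1 <;> rw [b1] <;> assumption
  rcases d2 with d2 | d2
  · rcases d4 with d4 | d4
    · have : o e4 < o n3 := by rcases q3 with q3 | q3 <;> rw [q3] <;> tauto
      exact ne3 (h e2 h2 e3 h3 e4 h4 n3 hn3 a2 a3 this b2 p3.symm)
    · have t1 : o e2 < o n1 := by rcases q1 with q1 | q1 <;> rw [q1] <;> tauto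
      have t2 : o n1 < o e4 := by rcases q1 with q1 | q1 <;> rw [q1] <;> tauto
      exact ne1 (h e1 h1 e2 h2 n1 hn1 e4 h4 a1 t1 t2 p1.symm b2).symm
  · have : o n3 < o e2 := by rcases q3 with q3 | q3 <;> rw [q3] <;> tauto
    have := h n3 hn3 e2 h2 e3 h3 e4 h4 this a2 a3 p3 b2
    exact ne3 (by rw [← this, p3])

theorem merge_nc {E : Finset ι} {o : ι → ℝ} {β : ι → B} (h : NC E o β) {a u : B} {m m' : ι}
    (hm : m ∈ E) (hm' : m' ∈ E) (ha : β m = a) (hu : β m' = u)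
    (hadj : ∀ f ∈ E, β f ≠ a → β f ≠ u → (o f < o m ∧ o f < o m') ∨ (o m < o f ∧ o m' < o f)) :
    NC E o (mrg β a u) := by
  intro e1 h1 e2 h2 e3 h3 e4 h4 a1 a2 a3 b1 b2
  have k1 : ∀ e, mrg β a u e = u → β e = a ∨ β e = u := by
    intro e he
    unfold mrg at he
    split_ifs at he with hh
    · exact Or.inl hh
    · exact Or.inr he
  have k2 : ∀ e, mrg β a u e ≠ u → β e ≠ a ∧ β e ≠ u ∧ mrg β a u e = β e := by
    intro e he
    unfold mrg at he ⊢
    split_ifs at he ⊢ with hh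
    · exact absurd rfl he
    · exact ⟨hh, he, rfl⟩
  by_contra hne
  by_cases c1 : mrg β a u e1 = u
  · have c2 : mrg β a u e2 ≠ u := fun c => hne (c1.trans c.symm)
    obtain ⟨p1, p2, p3⟩ := k2 e2 c2
    obtain ⟨-, -, p4⟩ := k2 e4 (b2 ▸ c2)
    exact merge_aux h hm hm' ha hu hadj h1 h2 h3 h4 a1 a2 a3 (k1 _ c1) (k1 _ (b1 ▸ c1))
      (by rw [← p3, b2, p4]) p1 p2
  · obtain ⟨p1, p2, p3⟩ := k2 e1 c1
    obtain ⟨q1, q2, p4⟩ := k2 e3 (b1 ▸ c1)
    by_cases c2 : mrg β a u e2 = u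
    · refine merge_aux (o := fun e => - o e) h.neg hm hm' ha hu ?_ h4 h3 h2 h1
        (by linarith) (by linarith) (by linarith)
        (k1 _ (b2 ▸ c2)) (k1 _ c2) (by rw [← p3, b1, p4]) q1 q2
      intro f hf g1 g2
      rcases hadj f hf g1 g2 with g | g
      · right; constructor <;> linarith [g.1, g.2]
      · left; constructor <;> linarith [g.1, g.2]
    · obtain ⟨-, -, r3⟩ := k2 e2 c2
      obtain ⟨-, -, r4⟩ := k2 e4 (b2 ▸ c2)
      apply hne
      rw [p3, r3]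
      exact h e1 h1 e2 h2 e3 h3 e4 h4 a1 a2 a3 (by rw [← p3, b1, p4]) (by rw [← r3, b2, r4])

structure Pocket (E : Finset ι) (o : ι → ℝ) (β : ι → B) (ω : ι → W) (a t : B)
    (S : Finset ι) (p : W) (x : W → ℤ) (y : B → ℤ) : Prop where
  sub : S ⊆ E
  clW : ∀ e ∈ S, ∀ f ∈ E, ω f = ω e → ω e ≠ p → f ∈ S
  clB : ∀ e ∈ S, ∀ f ∈ E, β f = β e → β e ≠ a → β e ≠ t → f ∈ S
  kept : ∀ e ∈ S, ∃ k ∈ S, β k = t ∧ ω k = p ∧ ∀ f ∈ S, o f ≤ o k
  lowr : ∀ e ∈ S, ∃ k ∈ S, β k = a ∧ ω k = p ∧ ∀ f ∈ S, o k ≤ o f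
  conv : ∀ e ∈ S, ∀ g ∈ S, ∀ f ∈ E, o e ≤ o f → o f ≤ o g → f ∈ S
  maxl : ∀ ea ∈ E, ∀ et ∈ E, β ea = a → β et = t → ω ea = ω et → o ea < o et → ea ∈ S ∧ et ∈ S
  rep : RepBy S o β ω a t p x y

theorem exists_pocket {E : Finset ι} {o : ι → ℝ} {β : ι → B} {ω : ι → W} (h : Word E o β ω)
    {a t s : B} (l : W) (hat : a ≠ t) (hm : NC E o (mrg β a t))
    (hs : ∀ e ∈ E, β e = s → ∀ ea ∈ E, ∀ et ∈ E, β ea = a → β et = t →
      ¬ (o ea ≤ o e ∧ o e ≤ o et))
    (ih : ∀ S p, S ⊆ E → (∀ e ∈ S, β e ≠ s) → Good S o β ω a t p → Rep S o β ω a t p) :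
    ∃ S p x y, Pocket E o β ω a t S p x y ∧ ∀ e ∈ S, β e ≠ s := by
  by_cases hex : ∃ et ∈ E, β et = t ∧ ∃ ea ∈ E, β ea = a ∧ ω ea = ω et ∧ o ea < o et
  · obtain ⟨et, het, hmax⟩ := Finset.exists_max_image
      (E.filter (fun et => β et = t ∧ ∃ ea ∈ E, β ea = a ∧ ω ea = ω et ∧ o ea < o et)) o
      (by obtain ⟨et, h1, h2⟩ := hex; exact ⟨et, Finset.mem_filter.2 ⟨h1, h2⟩⟩)
    rw [Finset.mem_filter] at het
    obtain ⟨het, ht, ea, hea, ha, hw, hlt⟩ := het
    set S := E.filter (fun e => o ea ≤ o e ∧ o e ≤ o et) with hS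
    have mem : ∀ e, e ∈ S ↔ e ∈ E ∧ o ea ≤ o e ∧ o e ≤ o et := fun e => Finset.mem_filter
    have sub : S ⊆ E := Finset.filter_subset _ _
    have mea : ea ∈ S := (mem _).2 ⟨hea, le_rfl, hlt.le⟩
    have met : et ∈ S := (mem _).2 ⟨het, hlt.le, le_rfl⟩
    have nos : ∀ e ∈ S, β e ≠ s := by
      intro e he hes
      obtain ⟨h1, h2⟩ := (mem _).1 he
      exact hs e h1 hes ea hea et het ha ht h2
    have good : Good S o β ω a t (ω et) :=
      ⟨h.mono sub, hat, ⟨ea, mea, ha, hw, fun f hf => ((mem _).1 hf).2.1⟩,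
        ⟨et, met, ht, rfl, fun f hf => ((mem _).1 hf).2.2⟩⟩
    obtain ⟨x, y, rep⟩ := ih S (ω et) sub nos good
    have cl : ∀ {κ : Type} (g : ι → κ), NC E o g → g ea = g et → ∀ e ∈ S, ∀ f ∈ E,
        g f = g e → g e ≠ g et → f ∈ S := by
      intro κ g hg hge e he f hf hfe hne
      obtain ⟨h1, h2, h3⟩ := (mem _).1 he
      have h2' : o ea < o e := lt_of_le_of_ne h2 (fun c => hne (by
        rw [← h.inj _ hea _ h1 c, hge]))
      have h3' : o e < o et := lt_of_le_of_ne h3 (fun c => hne (by rw [h.inj _ h1 _ het c]))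
      refine (mem _).2 ⟨hf, ?_, ?_⟩
      · by_contra c
        push Not at c
        have := hg f hf ea hea e h1 et het c h2' h3' hfe hge
        exact hne (by rw [← hfe, this, hge])
      · by_contra c
        push Not at c
        have := hg ea hea e h1 et het f hf h2' h3' c hge hfe.symm
        exact hne (by rw [← this, hge])
    refine ⟨S, ω et, x, y, ⟨sub, ?_, ?_, ?_, ?_, ?_, ?_, rep⟩, nos⟩
    · exact cl ω h.nw hw
    · intro e he f hf hfe h1 h2
      refine cl (mrg β a t) hm ?_ e he f hf ?_ ?_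
      · simp [mrg, ha, ht]
      · simp [mrg, hfe]
      · simp [mrg, ht, h1, h2]
    · intro e he
      exact ⟨et, met, ht, rfl, fun f hf => ((mem _).1 hf).2.2⟩
    · intro e he
      exact ⟨ea, mea, ha, hw, fun f hf => ((mem _).1 hf).2.1⟩
    · intro e he g hg f hf h1 h2
      exact (mem _).2 ⟨hf, le_trans ((mem _).1 he).2.1 h1, le_trans h2 ((mem _).1 hg).2.2⟩
    · intro ea' hea' et' het' ha' ht' hw' hlt'
      have h1 : o et' ≤ o et := hmax et' (Finset.mem_filter.2 ⟨het', ht', ea', hea', ha', hw', hlt'⟩)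
      have h2 : o ea ≤ o ea' := by
        by_contra c
        push Not at c
        rcases lt_trichotomy (o ea) (o et') with d | d | d
        · rcases eq_or_lt_of_le h1 with g | g
          · have := h.inj _ het' _ het g
            have : ea' = ea := h.simple _ hea' _ hea (by rw [ha, ha']) (by rw [hw, hw', this])
            rw [this] at c; exact lt_irrefl _ c
          · have := h.nw ea' hea' ea hea et' het' et het c d g hw' hw
            have : ea' = ea := h.simple _ hea' _ hea (by rw [ha, ha']) this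
            rw [this] at c; exact lt_irrefl _ c
        · have := h.inj _ hea _ het' d
          exact hat (by rw [← ha, this, ht'])
        · have := h.nb ea' hea' et' het' ea hea et het hlt' d hlt (by rw [ha, ha']) (by rw [ht, ht'])
          exact hat (by rw [← ha', this, ht'])
      exact ⟨(mem _).2 ⟨hea', h2, by linarith⟩, (mem _).2 ⟨het', by linarith, h1⟩⟩
  · refine ⟨∅, l, fun _ => 0, fun _ => 0, ⟨by simp, by simp, by simp, by simp, by simp, by simp, ?_,
      ⟨by simp, by simp, by simp, by simp, by simp, by simp, by simp, by simp⟩⟩, by simp⟩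
    intro ea hea et het ha ht hw hlt
    exact absurd ⟨et, het, ht, ea, hea, ha, hw, hlt⟩ hex

theorem base_rep {E : Finset ι} {o : ι → ℝ} {β : ι → B} {ω : ι → W} {s t : B} {l : W}
    (h : Good E o β ω s t l) (hb : ∀ e ∈ E, β e = s ∨ β e = t) : Rep E o β ω s t l := by
  obtain ⟨e0, he0, s0, l0, m0⟩ := h.first
  obtain ⟨e1, he1, t1, l1, m1⟩ := h.last
  have hw := h.word
  have hst : ∀ e ∈ E, ∀ f ∈ E, β e = s → β f = t → o e < o f := by
    intro e he f hf a b
    by_contra c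
    push Not at c
    have n1 : o f ≠ o e := fun d => h.ne (by rw [← a, ← hw.inj _ hf _ he d, b])
    have n2 : o e0 ≠ o f := fun d => h.ne (by rw [← s0, hw.inj _ he0 _ hf d, b])
    have n3 : o e ≠ o e1 := fun d => h.ne (by rw [← a, hw.inj _ he _ he1 d, t1])
    have := hw.nb e0 he0 f hf e he e1 he1 (lt_of_le_of_ne (m0 f hf) n2) (lt_of_le_of_ne c n1)
      (lt_of_le_of_ne (m1 e he) n3) (by rw [s0, a]) (by rw [b, t1])
    exact h.ne (by rw [← s0, this, b])
  -- anchors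
  let C : ℝ → Finset ι := fun r => E.filter (fun e => β e = s ∧ ∃ g ∈ E, β g = t ∧ ω g = ω e ∧ r ≤ o g)
  have hA : ∀ f ∈ E, ∃ e ∈ C (o f), ∀ e' ∈ C (o f), o e' ≤ o e := fun f hf =>
    Finset.exists_max_image _ o ⟨e0, Finset.mem_filter.2 ⟨he0, s0, e1, he1, t1, by rw [l0, l1], m1 f hf⟩⟩
  choose! A hA1 hA2 using hA
  have hC : ∀ r e, e ∈ C r ↔ e ∈ E ∧ β e = s ∧ ∃ g ∈ E, β g = t ∧ ω g = ω e ∧ r ≤ o g :=
    fun r e => Finset.mem_filter
  have anti : ∀ f ∈ E, ∀ f' ∈ E, o f ≤ o f' → o (A f') ≤ o (A f) := by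
    intro f hf f' hf' hle
    apply hA2 f hf
    obtain ⟨a1, a2, g, a3, a4, a5, a6⟩ := (hC _ _).1 (hA1 f' hf')
    exact (hC _ _).2 ⟨a1, a2, g, a3, a4, a5, le_trans hle a6⟩
  have nest : ∀ e ∈ E, ∀ g ∈ E, ∀ e' ∈ E, ∀ g' ∈ E, β e = s → β g = t → ω g = ω e →
      β e' = s → β g' = t → ω g' = ω e' → o g < o g' → o e' < o e := by
    intro e he g hg e' he' g' hg' a1 a2 a3 b1 b2 b3 hlt
    rcases lt_trichotomy (o e') (o e) with c | c | c
    · exact c
    · have := hw.inj _ he' _ he c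
      have : g = g' := hw.simple _ hg _ hg' (by rw [a2, b2]) (by rw [a3, b3, this])
      rw [this] at hlt; exact absurd hlt (lt_irrefl _)
    · have := hw.nw e he e' he' g hg g' hg' c (hst _ he' _ hg b1 a2) hlt a3.symm b3.symm
      have : e = e' := hw.simple _ he _ he' (by rw [a1, b1]) this
      rw [this] at c; exact absurd c (lt_irrefl _)
  have own : ∀ e ∈ E, ∀ g ∈ E, β e = s → β g = t → ω g = ω e → o (A g) = o e := by
    intro e he g hg a1 a2 a3
    apply le_antisymm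
    · obtain ⟨b1, b2, g', b3, b4, b5, b6⟩ := (hC _ _).1 (hA1 g hg)
      rcases eq_or_lt_of_le b6 with c | c
      · have := hw.inj _ hg _ b3 c
        have : A g = e := hw.simple _ b1 _ he (by rw [a1, b2]) (by rw [← b5, ← this, a3])
        rw [this]
      · exact (nest e he g hg _ b1 g' b3 a1 a2 a3 b2 b4 b5 c).le
    · exact hA2 g hg e ((hC _ _).2 ⟨he, a1, g, hg, a2, a3, le_rfl⟩)
  let x : W → ℝ ×ₗ ℝ := fun b =>
    if hs : ∃ e ∈ E, β e = s ∧ ω e = b then toLex (o hs.choose, 0)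
    else if ht : ∃ g ∈ E, β g = t ∧ ω g = b then toLex (o (A ht.choose), o e1 + 1 - o ht.choose)
    else toLex (0, 0)
  have xs : ∀ e ∈ E, β e = s → x (ω e) = toLex (o e, 0) := by
    intro e he a
    have hs : ∃ e' ∈ E, β e' = s ∧ ω e' = ω e := ⟨e, he, a, rfl⟩
    have := hs.choose_spec
    have : hs.choose = e := hw.simple _ this.1 _ he (by rw [this.2.1, a]) this.2.2
    simp only [x, dif_pos hs, this]
  have xt : ∀ g ∈ E, β g = t → (¬ ∃ e ∈ E, β e = s ∧ ω e = ω g) →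
      x (ω g) = toLex (o (A g), o e1 + 1 - o g) := by
    intro g hg a hn
    have ht : ∃ e' ∈ E, β e' = t ∧ ω e' = ω g := ⟨g, hg, a, rfl⟩
    have := ht.choose_spec
    have : ht.choose = g := hw.simple _ this.1 _ hg (by rw [this.2.1, a]) this.2.2
    simp only [x, dif_neg hn, dif_pos ht, this]
  have cls : ∀ f ∈ E, (∃ e ∈ E, β e = s ∧ ω e = ω f ∧ x (ω f) = toLex (o e, 0)) ∨
      (β f = t ∧ (¬ ∃ e ∈ E, β e = s ∧ ω e = ω f) ∧ x (ω f) = toLex (o (A f), o e1 + 1 - o f)) := by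
    intro f hf
    by_cases c : ∃ e ∈ E, β e = s ∧ ω e = ω f
    · obtain ⟨e, he, a, b⟩ := c
      exact Or.inl ⟨e, he, a, b, by rw [← b]; exact xs e he a⟩
    · have : β f = t := by
        rcases hb f hf with d | d
        · exact absurd ⟨f, hf, d, rfl⟩ c
        · exact d
      exact Or.inr ⟨this, c, xt f hf this c⟩
  let y : B → ℤ := fun c => if c = s then 0 else 1
  have ys : y s = 0 := by simp [y]
  have yt : y t = 1 := by simp [y, h.ne.symm]
  have yv : ∀ e ∈ E, (β e = s ∧ y (β e) = 0) ∨ (β e = t ∧ y (β e) = 1) := by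
    intro e he
    rcases hb e he with d | d
    · exact Or.inl ⟨d, by rw [d, ys]⟩
    · exact Or.inr ⟨d, by rw [d, yt]⟩
  refine RepBy.toRep (x := x) (y := y) ⟨?_, ?_, ?_, ?_, ?_, ?_, ?_, ?_⟩
  · intro e he f hf hh
    have := m1 e he
    have := m1 f hf
    rcases cls e he with ⟨e', he', a1, a2, a3⟩ | ⟨a1, a2, a3⟩ <;>
      rcases cls f hf with ⟨f', hf', b1, b2, b3⟩ | ⟨b1, b2, b3⟩ <;> rw [a3, b3] at hh <;>
      simp only [toLex_inj, Prod.mk.injEq] at hh
    · rw [← a2, ← b2, hw.inj _ he' _ hf' hh.1]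
    · linarith [hh.2]
    · linarith [hh.2]
    · rw [hw.inj _ he _ hf (by linarith [hh.2])]
  · intro e he f hf hh
    rcases yv e he with a | a <;> rcases yv f hf with b | b
    · rw [a.1, b.1]
    · omega
    · omega
    · rw [a.1, b.1]
  · intro e he
    rcases yv e he with a | a <;> omega
  · intro e he
    rcases yv e he with a | a <;> omega
  · intro e he
    rw [← l0, xs e0 he0 s0]
    have := m1 e he
    rcases cls e he with ⟨e', he', a1, a2, a3⟩ | ⟨a1, a2, a3⟩ <;> rw [a3, Prod.Lex.toLex_le_toLex]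
    · rcases eq_or_lt_of_le (m0 e' he') with c | c
      · exact Or.inr ⟨c, le_rfl⟩
      · exact Or.inl c
    · rcases eq_or_lt_of_le (m0 _ ((hC _ _).1 (hA1 e he)).1) with c | c
      · exact Or.inr ⟨c, by simp only; linarith⟩
      · exact Or.inl c
  · intro e he f hf a b c
    rw [xs e he a, xs f hf b, Prod.Lex.toLex_lt_toLex]
    exact Or.inl c
  · intro e he f hf a b c
    have := m1 e he
    have := m1 f hf
    rcases cls e he with ⟨e', he', a1, a2, a3⟩ | ⟨a1, a2, a3⟩ <;>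
      rcases cls f hf with ⟨f', hf', b1, b2, b3⟩ | ⟨b1, b2, b3⟩ <;>
      rw [a3, b3, Prod.Lex.toLex_lt_toLex]
    · exact Or.inl (nest e' he' e he f' hf' f hf a1 a a2.symm b1 b b2.symm c)
    · left
      obtain ⟨p1, p2, g, p3, p4, p5, p6⟩ := (hC _ _).1 (hA1 f hf)
      exact nest e' he' e he _ p1 g p3 a1 a a2.symm p2 p4 p5 (by linarith)
    · have h1 := anti e he f hf c.le
      rw [own f' hf' f hf b1 b b2.symm] at h1
      rcases eq_or_lt_of_le h1 with d | d
      · exact Or.inr ⟨d, by simp only; linarith⟩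
      · exact Or.inl d
    · rcases eq_or_lt_of_le (anti e he f hf c.le) with d | d
      · exact Or.inr ⟨d, by simp only; linarith⟩
      · exact Or.inl d
  · intro e1 h1 e2 h2 f1 g1 f2 g2 a b c d e f
    rcases yv e1 h1 with p | p <;> rcases yv f1 g1 with q | q <;> rcases yv f2 g2 with r | r <;> omega

end Pool.Agent.H858Z.Up
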